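import Pool.Agent.KS6_97.Unc.Defs

/-!
# JOB CV: change of variables `x_i = ψ(w_i)` (helper6)
-/

set_option autoImplicit false

namespace Pool.Agent.KS6_97.Unc

open MeasureTheory Set Filter Topology
open scoped ENNReal InnerProductSpace ContDiff
open Pool.Agent.H888R2.KT (LC)
open Pool.Agent.H212R2.KLS (mu Bdd)

namespace CV

/-- the density `ψ'` -/
noncomputable def ee (u : ℝ) : ℝ := Real.exp (u - √(1 + u ^ 2))

theorem ee_cont : Continuous ee := by unfold ee; fun_prop

theorem ee_pos (u : ℝ) : 0 < ee u := Real.exp_pos _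

theorem le_sqrt_one (u : ℝ) : u ≤ √(1 + u ^ 2) := by
  apply Real.le_sqrt_of_sq_le; linarith

theorem ee_le_one (u : ℝ) : ee u ≤ 1 := by
  unfold ee
  rw [Real.exp_le_one_iff]
  linarith [le_sqrt_one u]

theorem ee_mono : Monotone ee := by
  intro a b hab
  unfold ee
  apply Real.exp_le_exp.2
  have h1 : √(1 + b ^ 2) ≤ √(1 + a ^ 2) + (b - a) := by
    rw [Real.sqrt_le_left (by have := Real.sqrt_nonneg (1 + a ^ 2); linarith)]
    have h2 : (√(1 + a ^ 2) + (b - a)) ^ 2 = (1 + a ^ 2) + 2 * √(1 + a ^ 2) * (b - a) + (b - a) ^ 2 := by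
      rw [add_sq, Real.sq_sqrt (by positivity)]
    rw [h2]
    have h3 := le_sqrt_one a
    nlinarith
  linarith

theorem ps_zero : ps 0 = 0 := by unfold ps; simp

theorem ps_deriv (w : ℝ) : HasDerivAt ps (ee w) w := by
  unfold ps
  exact intervalIntegral.integral_hasDerivAt_right (ee_cont.intervalIntegrable _ _)
    ee_cont.stronglyMeasurable.stronglyMeasurableAtFilter ee_cont.continuousAt

theorem ps_diff : Differentiable ℝ ps := fun w => (ps_deriv w).differentiableAt

theorem ps_cont : Continuous ps := ps_diff.continuous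

theorem deriv_ps : deriv ps = ee := funext fun w => (ps_deriv w).deriv

theorem ps_strict : StrictMono ps := by
  apply strictMono_of_deriv_pos
  intro w
  rw [deriv_ps]; exact ee_pos w

theorem ps_convex : ConvexOn ℝ univ ps := by
  apply Monotone.convexOn_univ_of_deriv ps_diff
  rw [deriv_ps]; exact ee_mono

theorem ps_nonneg {w : ℝ} (hw : 0 ≤ w) : 0 ≤ ps w := by
  rw [← ps_zero]; exact ps_strict.monotone hw

theorem ps_le {w : ℝ} (hw : 0 ≤ w) : ps w ≤ w := by
  have h1 : Antitone fun w => ps w - w := by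
    apply antitone_of_deriv_nonpos
    · exact ps_diff.sub differentiable_id
    · intro x
      have h2 : HasDerivAt (fun w => ps w - w) (ee x - 1) x := (ps_deriv x).sub (hasDerivAt_id x)
      rw [h2.deriv]; linarith [ee_le_one x]
  have h2 := h1 hw
  simp only [ps_zero, sub_zero] at h2
  linarith

theorem ps_ge {w : ℝ} (hw : 0 ≤ w) : Real.exp (-1) * w ≤ ps w := by
  have h1 : MonotoneOn (fun w => ps w - Real.exp (-1) * w) (Ici 0) := by
    apply monotoneOn_of_deriv_nonneg (convex_Ici 0)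
    · exact (ps_cont.sub (continuous_const.mul continuous_id)).continuousOn
    · exact (ps_diff.sub ((differentiable_const _).mul differentiable_id)).differentiableOn
    · intro x hx
      rw [interior_Ici] at hx
      have h2 : HasDerivAt (fun w => ps w - Real.exp (-1) * w) (ee x - Real.exp (-1) * 1) x :=
        (ps_deriv x).sub ((hasDerivAt_id x).const_mul _)
      rw [h2.deriv]
      have h3 : ee 0 ≤ ee x := ee_mono (le_of_lt hx)
      have h4 : ee 0 = Real.exp (-1) := by unfold ee; simp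
      linarith
  have h2 := h1 (mem_Ici.2 le_rfl) (mem_Ici.2 hw) hw
  simp only [ps_zero, mul_zero, sub_zero] at h2
  linarith

theorem ps_surj {x : ℝ} (hx : 0 ≤ x) : ∃ w : ℝ, 0 ≤ w ∧ ps w = x := by
  have h1 : x ≤ ps (Real.exp 1 * x) := by
    have h2 := ps_ge (w := Real.exp 1 * x) (by positivity)
    rw [← mul_assoc, ← Real.exp_add] at h2
    simpa using h2
  have h3 := intermediate_value_Icc (a := 0) (b := Real.exp 1 * x) (by positivity) ps_cont.continuousOn
  have h4 : x ∈ Icc (ps 0) (ps (Real.exp 1 * x)) := by rw [ps_zero]; exact ⟨hx, h1⟩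
  obtain ⟨w, hw, hwx⟩ := h3 h4
  exact ⟨w, hw.1, hwx⟩

section

variable {κ : Type} [Fintype κ]

/-- the orthant -/
def O (κ : Type) [Fintype κ] : Set (Eu κ) := {w | ∀ i, 0 ≤ w i}

theorem O_meas : MeasurableSet (O κ) := by
  have : O κ = ⋂ i, {w : Eu κ | 0 ≤ w i} := by ext w; simp [O]
  rw [this]
  exact MeasurableSet.iInter fun i => measurableSet_le measurable_const (by fun_prop)

theorem Ps_apply (w : Eu κ) (i : κ) : Ps w i = ps (w i) := rfl

theorem Ps_cont : Continuous (Ps (κ := κ)) := by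
  unfold Ps
  apply (PiLp.continuous_toLp 2 _).comp
  apply continuous_pi
  intro i
  exact ps_cont.comp (by fun_prop)

theorem Wt_cont : Continuous (Wt (κ := κ)) := by
  unfold Wt; fun_prop

theorem Ps_inj : Function.Injective (Ps (κ := κ)) := by
  intro x y h
  ext i
  have := congrArg (fun v : Eu κ => v i) h
  simp only [Ps_apply] at this
  exact ps_strict.injective this

theorem Ps_mem {w : Eu κ} (hw : w ∈ O κ) : Ps w ∈ O κ := fun i => ps_nonneg (hw i)

theorem Ps_image : Ps (κ := κ) '' O κ = O κ := by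
  ext x
  constructor
  · rintro ⟨w, hw, rfl⟩; exact Ps_mem hw
  · intro hx
    choose w hw1 hw2 using fun i => ps_surj (hx i)
    refine ⟨WithLp.toLp 2 w, fun i => hw1 i, ?_⟩
    ext i
    rw [Ps_apply]; exact hw2 i

variable [DecidableEq κ]

/-- the derivative of `Ps` -/
noncomputable def dPs (w : Eu κ) : Eu κ →L[ℝ] Eu κ :=
  LinearMap.toContinuousLinearMap (Matrix.toLpLin 2 2 (Matrix.diagonal fun i => ee (w i)))

theorem dPs_apply (w v : Eu κ) (i : κ) : dPs w v i = ee (w i) * v i := by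
  unfold dPs
  rw [LinearMap.coe_toContinuousLinearMap', Matrix.toLpLin_apply]
  simp [Matrix.mulVec_diagonal]

theorem dPs_det (w : Eu κ) : (dPs w).det = ∏ i, ee (w i) := by
  unfold dPs
  rw [ContinuousLinearMap.det, LinearMap.coe_toContinuousLinearMap, Matrix.toLpLin_eq_toLin,
    LinearMap.det_toLin, Matrix.det_diagonal]

theorem Ps_fderiv (w : Eu κ) : HasFDerivWithinAt Ps (dPs w) (O κ) w := by
  rw [hasFDerivWithinAt_euclidean]
  intro i
  have h0 : HasFDerivAt (fun x : Eu κ => x i) (EuclideanSpace.proj i : Eu κ →L[ℝ] ℝ) w :=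
    (EuclideanSpace.proj i : Eu κ →L[ℝ] ℝ).hasFDerivAt
  have h1 : HasFDerivAt (fun x : Eu κ => ps (x i)) (ee (w i) • (EuclideanSpace.proj i : Eu κ →L[ℝ] ℝ)) w :=
    HasDerivAt.comp_hasFDerivAt (f := fun x : Eu κ => x i) w (ps_deriv (w i)) h0
  have h2 : PiLp.proj 2 (fun _ : κ => ℝ) i ∘L dPs w = ee (w i) • (EuclideanSpace.proj i : Eu κ →L[ℝ] ℝ) := by
    ext v
    simp [dPs_apply]
  rw [h2]
  exact h1.hasFDerivWithinAt

theorem change (g : Eu κ → ℝ≥0∞) :
    ∫⁻ x in O κ, g x = ∫⁻ w in O κ, ENNReal.ofReal (∏ i, ee (w i)) * g (Ps w) := by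
  have h := lintegral_image_eq_lintegral_abs_det_fderiv_mul (volume : Measure (Eu κ)) O_meas
    (fun w _ => Ps_fderiv w) Ps_inj.injOn g
  rw [Ps_image] at h
  rw [h]
  congr 1
  ext w
  rw [dPs_det, abs_of_pos (Finset.prod_pos fun i _ => ee_pos _)]

theorem prod_ee (w : Eu κ) : ∏ i, ee (w i) = Real.exp (∑ i, w i) * Wt w := by
  unfold ee Wt
  rw [← Real.exp_sum, ← Real.exp_add, Finset.sum_sub_distrib]
  congr 1

open Classical in
/-- the new density -/
noncomputable def hh (ρ : Eu κ → ℝ) (w : Eu κ) : ℝ :=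
  if w ∈ O κ then ρ (Ps w) * Real.exp (∑ i, w i) else 0

theorem hh_of_mem (ρ : Eu κ → ℝ) {w : Eu κ} (hw : w ∈ O κ) : hh ρ w = ρ (Ps w) * Real.exp (∑ i, w i) := by
  unfold hh; rw [if_pos hw]

theorem hh_of_not (ρ : Eu κ → ℝ) {w : Eu κ} (hw : w ∉ O κ) : hh ρ w = 0 := by
  unfold hh; rw [if_neg hw]

theorem hh_meas {ρ : Eu κ → ℝ} (hρ : Measurable ρ) : Measurable (hh ρ) := by
  classical
  unfold hh
  apply Measurable.ite O_meas _ measurable_const
  exact (hρ.comp Ps_cont.measurable).mul (by fun_prop)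

theorem hh_nonneg {ρ : Eu κ → ℝ} (hρ : ∀ x, 0 ≤ ρ x) (w : Eu κ) : 0 ≤ hh ρ w := by
  unfold hh; split_ifs
  · exact mul_nonneg (hρ _) (Real.exp_pos _).le
  · exact le_rfl

theorem hh_logc {ρ : Eu κ → ℝ} (hρ : LC ρ) (hO : Orth ρ) (x y : Eu κ) (t : ℝ) (ht0 : 0 < t) (ht1 : t < 1) :
    hh ρ x ^ (1 - t) * hh ρ y ^ t ≤ hh ρ ((1 - t) • x + t • y) := by
  by_cases hx : x ∈ O κ
  swap
  · rw [hh_of_not ρ hx, Real.zero_rpow (by linarith), zero_mul]
    exact hh_nonneg hρ.nonneg _
  by_cases hy : y ∈ O κ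
  swap
  · rw [hh_of_not ρ hy, Real.zero_rpow (by linarith), mul_zero]
    exact hh_nonneg hρ.nonneg _
  have hz : (1 - t) • x + t • y ∈ O κ := by
    intro i
    simp only [PiLp.add_apply, PiLp.smul_apply, smul_eq_mul]
    have := hx i
    have := hy i
    nlinarith [mul_nonneg (by linarith : (0 : ℝ) ≤ 1 - t) (hx i), mul_nonneg ht0.le (hy i)]
  rw [hh_of_mem ρ hx, hh_of_mem ρ hy, hh_of_mem ρ hz, Real.mul_rpow (hρ.nonneg _) (Real.exp_pos _).le,
    Real.mul_rpow (hρ.nonneg _) (Real.exp_pos _).le]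
  have h1 : ρ (Ps x) ^ (1 - t) * ρ (Ps y) ^ t ≤ ρ (Ps ((1 - t) • x + t • y)) := by
    refine (hρ.logc (Ps x) (Ps y) t ht0 ht1).trans ?_
    apply hO.anti
    · exact Ps_mem hz
    · intro i
      simp only [PiLp.add_apply, PiLp.smul_apply, smul_eq_mul, Ps_apply]
      have := ps_convex.2 (mem_univ (x i)) (mem_univ (y i)) (by linarith : (0 : ℝ) ≤ 1 - t) ht0.le (by ring)
      simpa using this
  have h2 : Real.exp (∑ i, x i) ^ (1 - t) * Real.exp (∑ i, y i) ^ t
      = Real.exp (∑ i, ((1 - t) • x + t • y) i) := by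
    rw [← Real.exp_mul, ← Real.exp_mul, ← Real.exp_add]
    congr 1
    simp only [PiLp.add_apply, PiLp.smul_apply, smul_eq_mul]
    rw [Finset.sum_add_distrib, ← Finset.mul_sum, ← Finset.mul_sum]; ring
  calc ρ (Ps x) ^ (1 - t) * Real.exp (∑ i, x i) ^ (1 - t) * (ρ (Ps y) ^ t * Real.exp (∑ i, y i) ^ t)
      = (ρ (Ps x) ^ (1 - t) * ρ (Ps y) ^ t) * (Real.exp (∑ i, x i) ^ (1 - t) * Real.exp (∑ i, y i) ^ t) := by ring
    _ ≤ ρ (Ps ((1 - t) • x + t • y)) * Real.exp (∑ i, ((1 - t) • x + t • y) i) := by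
      rw [h2]
      exact mul_le_mul_of_nonneg_right h1 (Real.exp_pos _).le

theorem norm_le_Ps {w : Eu κ} (hw : w ∈ O κ) : ‖w‖ ≤ Real.exp 1 * ‖Ps w‖ := by
  have h1 : ‖w‖ ^ 2 ≤ (Real.exp 1 * ‖Ps w‖) ^ 2 := by
    rw [mul_pow, EuclideanSpace.norm_sq_eq, EuclideanSpace.norm_sq_eq, Finset.mul_sum]
    apply Finset.sum_le_sum
    intro i _
    rw [← mul_pow]
    apply pow_le_pow_left₀ (norm_nonneg _)
    rw [Real.norm_of_nonneg (hw i), Ps_apply, Real.norm_of_nonneg (ps_nonneg (hw i))]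
    have h2 := ps_ge (hw i)
    have h3 : Real.exp 1 * (Real.exp (-1) * w i) = w i := by
      rw [← mul_assoc, ← Real.exp_add]; simp
    nlinarith [Real.exp_pos 1]
  exact (abs_le_of_sq_le_sq' h1 (by positivity)).2

theorem hh_bdd {ρ : Eu κ → ℝ} (hρ : Bdd ρ) : Bdd (hh ρ) := by
  obtain ⟨R, hR⟩ := hρ
  refine ⟨Real.exp 1 * |R|, ?_⟩
  intro w hw
  by_cases h : w ∈ O κ
  · rw [hh_of_mem ρ h, hR, zero_mul]
    have h1 := norm_le_Ps h
    have h2 : |R| < ‖Ps w‖ := by
      by_contra hc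
      rw [not_lt] at hc
      have := mul_le_mul_of_nonneg_left hc (Real.exp_pos 1).le
      linarith
    exact (le_abs_self R).trans_lt h2
  · exact hh_of_not ρ h

theorem Wt_pos (w : Eu κ) : 0 < Wt w := Real.exp_pos _

/-- the change of variables for nonnegative functions -/
theorem lchange {ρ : Eu κ → ℝ} (hρ : LC ρ) (hO : Orth ρ) {G : Eu κ → ℝ≥0∞} (hG : Measurable G) :
    ∫⁻ x, G x ∂(mu ρ) = ∫⁻ w, ENNReal.ofReal (Wt w) * G (Ps w) ∂(mu (hh ρ)) := by
  have hm : Measurable fun w : Eu κ => ENNReal.ofReal (Wt w) * G (Ps w) :=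
    (Wt_cont.measurable.ennreal_ofReal).mul (hG.comp Ps_cont.measurable)
  unfold mu
  rw [lintegral_withDensity_eq_lintegral_mul _ hρ.meas.ennreal_ofReal hG,
    lintegral_withDensity_eq_lintegral_mul _ (hh_meas hρ.meas).ennreal_ofReal hm]
  have e1 : ∫⁻ x, ((fun x => ENNReal.ofReal (ρ x)) * G) x = ∫⁻ x in O κ, ENNReal.ofReal (ρ x) * G x := by
    rw [← lintegral_indicator O_meas]
    apply lintegral_congr
    intro x
    by_cases hx : x ∈ O κ
    · rw [indicator_of_mem hx]; rfl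
    · rw [indicator_of_notMem hx]
      have h1 : ∃ i, x i < 0 := by
        by_contra hc; push Not at hc; exact hx hc
      simp [hO.supp x h1]
  have e2 : ∫⁻ w, ((fun w => ENNReal.ofReal (hh ρ w)) * fun w => ENNReal.ofReal (Wt w) * G (Ps w)) w
      = ∫⁻ w in O κ, ENNReal.ofReal (hh ρ w) * (ENNReal.ofReal (Wt w) * G (Ps w)) := by
    rw [← lintegral_indicator O_meas]
    apply lintegral_congr
    intro x
    by_cases hx : x ∈ O κ
    · rw [indicator_of_mem hx]; rfl
    · rw [indicator_of_notMem hx]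
      simp [hh_of_not ρ hx]
  rw [e1, e2, change]
  apply setLIntegral_congr_fun O_meas
  intro w hw
  simp only []
  rw [hh_of_mem ρ hw, prod_ee, ENNReal.ofReal_mul (Real.exp_pos _).le, ENNReal.ofReal_mul (hρ.nonneg _)]
  ring

theorem map_eq {ρ : Eu κ → ℝ} (hρ : LC ρ) (hO : Orth ρ) :
    mu ρ = ((mu (hh ρ)).withDensity fun w => ENNReal.ofReal (Wt w)).map Ps := by
  ext s hs
  rw [Measure.map_apply Ps_cont.measurable hs, withDensity_apply _ (Ps_cont.measurable hs),
    ← lintegral_indicator (Ps_cont.measurable hs), ← lintegral_indicator_one hs,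
    lchange hρ hO (measurable_one.indicator hs)]
  apply lintegral_congr
  intro w
  by_cases hw : Ps w ∈ s
  · rw [indicator_of_mem hw, indicator_of_mem (show w ∈ Ps ⁻¹' s from hw)]; simp
  · rw [indicator_of_notMem hw, indicator_of_notMem (show w ∉ Ps ⁻¹' s from hw)]; simp

theorem hh_fin {ρ : Eu κ → ℝ} (hρ : LC ρ) (hO : Orth ρ) : mu (hh ρ) univ ≠ ⊤ := by
  obtain ⟨R, hR⟩ := hh_bdd hρ.bdd
  -- a lower bound for the weight on the support
  obtain ⟨c, hc0, hc⟩ : ∃ c : ℝ, 0 < c ∧ ∀ w : Eu κ, ‖w‖ ≤ R → c ≤ Wt w := by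
    have hcomp : IsCompact (Metric.closedBall (0 : Eu κ) R) := isCompact_closedBall _ _
    rcases (Metric.closedBall (0 : Eu κ) R).eq_empty_or_nonempty with h | h
    · refine ⟨1, one_pos, fun w hw => ?_⟩
      exfalso
      have : w ∈ Metric.closedBall (0 : Eu κ) R := by simpa using hw
      rw [h] at this; exact this
    · obtain ⟨w0, _, hw0⟩ := hcomp.exists_isMinOn h Wt_cont.continuousOn
      refine ⟨Wt w0, Wt_pos _, fun w hw => ?_⟩
      exact hw0 (by simpa using hw)
  have h1 : (mu ρ) univ = ∫⁻ w, ENNReal.ofReal (Wt w) ∂(mu (hh ρ)) := by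
    have := lchange hρ hO (G := fun _ => 1) measurable_const
    simpa using this
  have h2 : ENNReal.ofReal c * mu (hh ρ) univ ≤ (mu ρ) univ := by
    rw [h1, ← lintegral_const]
    apply lintegral_mono_ae
    unfold mu
    rw [ae_withDensity_iff (hh_meas hρ.meas).ennreal_ofReal]
    refine Eventually.of_forall fun w hw => ?_
    apply ENNReal.ofReal_le_ofReal
    apply hc
    by_contra hcon
    rw [not_le] at hcon
    apply hw
    rw [hR w hcon]; simp
  intro htop
  rw [htop, ENNReal.mul_top (by simpa using hc0)] at h2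
  exact hρ.fin (top_le_iff.1 h2)

theorem hh_ne {ρ : Eu κ → ℝ} (hρ : LC ρ) (hO : Orth ρ) : mu (hh ρ) ≠ 0 := by
  intro h0
  apply hρ.ne
  rw [map_eq hρ hO, h0]
  simp

theorem hh_LC {ρ : Eu κ → ℝ} (hρ : LC ρ) (hO : Orth ρ) : LC (hh ρ) where
  nonneg := hh_nonneg hρ.nonneg
  meas := hh_meas hρ.meas
  logc := hh_logc hρ hO
  bdd := hh_bdd hρ.bdd
  fin := hh_fin hρ hO
  ne := hh_ne hρ hO

end

end CV

open CV in
/-- **[JOB CV]** -/
theorem cv : S_CV := by
  intro κ _ _ ρ hρ hO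
  refine ⟨hh ρ, hh_LC hρ hO, ?_, ?_⟩
  · unfold mu
    rw [ae_withDensity_iff (hh_meas hρ.meas).ennreal_ofReal]
    refine Eventually.of_forall fun w hw => ?_
    by_contra hc
    apply hw
    rw [hh_of_not ρ hc]; simp
  · intro F hF
    conv_lhs => rw [map_eq hρ hO]
    rw [integral_map Ps_cont.measurable.aemeasurable hF.aestronglyMeasurable,
      integral_withDensity_eq_integral_toReal_smul Wt_cont.measurable.ennreal_ofReal
        (Eventually.of_forall fun _ => ENNReal.ofReal_lt_top)]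
    apply integral_congr_ae
    refine Eventually.of_forall fun w => ?_
    simp only [smul_eq_mul]
    rw [ENNReal.toReal_ofReal (Wt_pos w).le, mul_comm]

end Pool.Agent.KS6_97.Unc
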