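import Pool.Agent.KS6_97.Unc.OR
import Pool.Graph.R_pool_sql_team_seeded_3997aac3.Q188.TS.Iso

/-!
# JOB ORT, part (b): diagonal changes of variables (helper6)

For `L : κ → ℝ`, `dl L x = (L_i x_i)`, `dg ρ L y = (∏ L_i) ρ (L y)` is the density of `L⁻¹ X` for `X ∼ ρ`.
-/

set_option autoImplicit false

namespace Pool.Agent.KS6_97.Unc

open MeasureTheory Set Filter Topology
open scoped ENNReal InnerProductSpace ContDiff
open Pool.Agent.H888R2.KT (LC)
open Pool.Agent.H212R2.KLS (mu Bdd)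
open Pool.Agent.Q188.TS (Euc LCF)
open Pool.Agent.Q86.EM (bs)

variable {κ : Type} [Fintype κ]

/-- the diagonal map -/
noncomputable def dl (L : κ → ℝ) (x : Eu κ) : Eu κ := WithLp.toLp 2 fun i => L i * x i

theorem dl_apply (L : κ → ℝ) (x : Eu κ) (i : κ) : dl L x i = L i * x i := rfl

theorem dl_comp (L M : κ → ℝ) (x : Eu κ) : dl L (dl M x) = dl (fun i => L i * M i) x := by
  ext i
  simp only [dl_apply]
  ring

theorem dl_inv {L : κ → ℝ} (hL : ∀ i, 0 < L i) (x : Eu κ) : dl L (dl (fun i => (L i)⁻¹) x) = x := by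
  ext i
  simp only [dl_apply]
  rw [← mul_assoc, mul_inv_cancel₀ (hL i).ne', one_mul]

theorem inv_dl {L : κ → ℝ} (hL : ∀ i, 0 < L i) (x : Eu κ) : dl (fun i => (L i)⁻¹) (dl L x) = x := by
  ext i
  simp only [dl_apply]
  rw [← mul_assoc, inv_mul_cancel₀ (hL i).ne', one_mul]

/-- the diagonal map as a linear map -/
noncomputable def dlL (L : κ → ℝ) : Eu κ →ₗ[ℝ] Eu κ where
  toFun := dl L
  map_add' x y := by
    ext i
    simp only [dl_apply, PiLp.add_apply]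
    ring
  map_smul' c x := by
    ext i
    simp only [dl_apply, PiLp.smul_apply, smul_eq_mul, RingHom.id_apply]
    ring

theorem dlL_apply (L : κ → ℝ) (x : Eu κ) : dlL L x = dl L x := rfl

/-- the diagonal map as a continuous linear map -/
noncomputable def dlC (L : κ → ℝ) : Eu κ →L[ℝ] Eu κ := LinearMap.toContinuousLinearMap (dlL L)

theorem dlC_apply (L : κ → ℝ) (x : Eu κ) : dlC L x = dl L x := rfl

theorem dl_cont (L : κ → ℝ) : Continuous (dl L) := (dlC L).continuous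

theorem dl_meas (L : κ → ℝ) : Measurable (dl L) := (dl_cont L).measurable

theorem dl_smul (L : κ → ℝ) (c : ℝ) (x : Eu κ) : dl L (c • x) = c • dl L x := (dlL L).map_smul c x

theorem dl_add (L : κ → ℝ) (x y : Eu κ) : dl L (x + y) = dl L x + dl L y := (dlL L).map_add x y

theorem dlL_det [DecidableEq κ] (L : κ → ℝ) : LinearMap.det (dlL L) = ∏ i, L i := by
  have h : dlL L = Matrix.toLpLin 2 2 (Matrix.diagonal L) := by
    ext x i
    rw [dlL_apply, dl_apply, Matrix.toLpLin_apply]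
    simp [Matrix.mulVec_diagonal]
  rw [h, Matrix.toLpLin_eq_toLin, LinearMap.det_toLin, Matrix.det_diagonal]

/-- the density of `L⁻¹ X` -/
noncomputable def dg (ρ : Eu κ → ℝ) (L : κ → ℝ) (y : Eu κ) : ℝ := (∏ i, L i) * ρ (dl L y)

theorem dg_map [DecidableEq κ] {ρ : Eu κ → ℝ} (hρ : Measurable ρ) {L : κ → ℝ} (hL : ∀ i, 0 < L i) :
    mu (dg ρ L) = (mu ρ).map (dl fun i => (L i)⁻¹) := by
  have hm : Measurable (dl fun i => (L i)⁻¹) := dl_meas _
  have hm2 : Measurable (dl L) := dl_meas _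
  have hP : 0 < ∏ i, L i := Finset.prod_pos fun i _ => hL i
  refine Measure.ext fun A hA => ?_
  rw [Measure.map_apply hm hA]
  unfold mu dg
  rw [withDensity_apply _ hA, withDensity_apply _ (hm hA), ← lintegral_indicator hA,
    ← lintegral_indicator (hm hA)]
  have e1 : ∀ y : Eu κ, A.indicator (fun y => ENNReal.ofReal ((∏ i, L i) * ρ (dl L y))) y =
      ENNReal.ofReal (∏ i, L i) *
        (((dl fun i => (L i)⁻¹) ⁻¹' A).indicator fun x => ENNReal.ofReal (ρ x)) (dl L y) := by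
    intro y
    have e2 : (dl L y ∈ (dl fun i => (L i)⁻¹) ⁻¹' A) ↔ y ∈ A := by
      simp only [mem_preimage]
      rw [inv_dl hL]
    by_cases h : y ∈ A
    · rw [indicator_of_mem h, indicator_of_mem (e2.2 h), ENNReal.ofReal_mul hP.le]
    · rw [indicator_of_notMem h, indicator_of_notMem (fun h2 => h (e2.1 h2)), mul_zero]
  simp_rw [e1]
  have hG : Measurable (((dl fun i => (L i)⁻¹) ⁻¹' A).indicator fun x => ENNReal.ofReal (ρ x)) :=
    (hρ.ennreal_ofReal).indicator (hm hA)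
  have hG2 : Measurable fun y : Eu κ => (((dl fun i => (L i)⁻¹) ⁻¹' A).indicator
      fun x => ENNReal.ofReal (ρ x)) (dl L y) := hG.comp hm2
  rw [lintegral_const_mul _ hG2]
  have hdet : LinearMap.det (dlL L) ≠ 0 := by rw [dlL_det]; exact hP.ne'
  have hmap : Measure.map (dl L) (volume : Measure (Eu κ)) = ENNReal.ofReal |(∏ i, L i)⁻¹| • volume := by
    have := Measure.map_linearMap_addHaar_eq_smul_addHaar (volume : Measure (Eu κ)) hdet
    rw [dlL_det] at this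
    exact this
  have e3 : ∫⁻ y : Eu κ, (((dl fun i => (L i)⁻¹) ⁻¹' A).indicator
      fun x => ENNReal.ofReal (ρ x)) (dl L y) =
      ENNReal.ofReal |(∏ i, L i)⁻¹| *
        ∫⁻ x, (((dl fun i => (L i)⁻¹) ⁻¹' A).indicator fun x => ENNReal.ofReal (ρ x)) x := by
    rw [← lintegral_map hG hm2, hmap, lintegral_smul_measure, smul_eq_mul]
  rw [e3, ← mul_assoc, ← ENNReal.ofReal_mul hP.le, abs_of_pos (inv_pos.2 hP),
    mul_inv_cancel₀ hP.ne', ENNReal.ofReal_one, one_mul]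

theorem dg_int [DecidableEq κ] {ρ : Eu κ → ℝ} (hρ : Measurable ρ) {L : κ → ℝ} (hL : ∀ i, 0 < L i)
    {F : Eu κ → ℝ} (hF : Continuous F) :
    ∫ y, F y ∂(mu (dg ρ L)) = ∫ x, F (dl (fun i => (L i)⁻¹) x) ∂(mu ρ) := by
  rw [dg_map hρ hL, integral_map (dl_meas _).aemeasurable hF.aestronglyMeasurable]

/-- composed form: `∫ F (L y) dμ_{dg ρ L}(y) = ∫ F dμ_ρ` -/
theorem dg_int' [DecidableEq κ] {ρ : Eu κ → ℝ} (hρ : Measurable ρ) {L : κ → ℝ} (hL : ∀ i, 0 < L i)
    {F : Eu κ → ℝ} (hF : Continuous F) :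
    ∫ y, F (dl L y) ∂(mu (dg ρ L)) = ∫ x, F x ∂(mu ρ) := by
  rw [dg_int hρ hL (F := fun y => F (dl L y)) (hF.comp (dl_cont L))]
  simp only [dl_inv hL]

theorem dg_prob [DecidableEq κ] {ρ : Eu κ → ℝ} (hρ : Measurable ρ) {L : κ → ℝ} (hL : ∀ i, 0 < L i)
    [IsProbabilityMeasure (mu ρ)] : IsProbabilityMeasure (mu (dg ρ L)) := by
  rw [dg_map hρ hL]
  exact Measure.isProbabilityMeasure_map (dl_meas _).aemeasurable

theorem dg_univ [DecidableEq κ] {ρ : Eu κ → ℝ} (hρ : Measurable ρ) {L : κ → ℝ} (hL : ∀ i, 0 < L i) :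
    mu (dg ρ L) univ = mu ρ univ := by
  rw [dg_map hρ hL, Measure.map_apply (dl_meas _) MeasurableSet.univ, preimage_univ]

theorem dg_integrable [DecidableEq κ] {ρ : Eu κ → ℝ} (hρ : Measurable ρ) {L : κ → ℝ}
    (hL : ∀ i, 0 < L i) {F : Eu κ → ℝ} (hF : Continuous F) (h : Integrable F (mu ρ)) :
    Integrable (fun y => F (dl L y)) (mu (dg ρ L)) := by
  have hc : Continuous fun y => F (dl L y) := hF.comp (dl_cont L)
  rw [dg_map hρ hL]
  refine (integrable_map_measure hc.aestronglyMeasurable (dl_meas _).aemeasurable).2 ?_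
  refine h.congr (Eventually.of_forall fun x => ?_)
  simp only [Function.comp_apply]
  rw [dl_inv hL]

theorem dg_memLp [DecidableEq κ] {ρ : Eu κ → ℝ} (hρ : Measurable ρ) {L : κ → ℝ}
    (hL : ∀ i, 0 < L i) {F : Eu κ → ℝ} (hF : Continuous F) (h : MemLp F 2 (mu ρ)) :
    MemLp (fun y => F (dl L y)) 2 (mu (dg ρ L)) := by
  have hc : Continuous fun y => F (dl L y) := hF.comp (dl_cont L)
  rw [dg_map hρ hL]
  refine (memLp_map_measure_iff hc.aestronglyMeasurable (dl_meas _).aemeasurable).2 ?_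
  refine h.ae_eq (Eventually.of_forall fun x => ?_)
  simp only [Function.comp_apply]
  rw [dl_inv hL]

/-- log-concavity -/
theorem dg_logc {ρ : Eu κ → ℝ} (h0 : ∀ x, 0 ≤ ρ x)
    (hlc : ∀ x y, ∀ t : ℝ, 0 < t → t < 1 → ρ x ^ (1 - t) * ρ y ^ t ≤ ρ ((1 - t) • x + t • y))
    {L : κ → ℝ} (hL : ∀ i, 0 < L i) (x y : Eu κ) (t : ℝ) (ht0 : 0 < t) (ht1 : t < 1) :
    dg ρ L x ^ (1 - t) * dg ρ L y ^ t ≤ dg ρ L ((1 - t) • x + t • y) := by
  have hP : 0 < ∏ i, L i := Finset.prod_pos fun i _ => hL i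
  unfold dg
  rw [Real.mul_rpow hP.le (h0 _), Real.mul_rpow hP.le (h0 _)]
  have h2 := hlc (dl L x) (dl L y) t ht0 ht1
  rw [← dl_smul, ← dl_smul, ← dl_add] at h2
  have e2 : (∏ i, L i) ^ (1 - t) * (∏ i, L i) ^ t = ∏ i, L i := by
    rw [← Real.rpow_add hP]
    simp
  calc _ = ((∏ i, L i) ^ (1 - t) * (∏ i, L i) ^ t) * (ρ (dl L x) ^ (1 - t) * ρ (dl L y) ^ t) := by ring
    _ ≤ _ := by
      rw [e2]
      exact mul_le_mul_of_nonneg_left h2 hP.le

theorem dg_lcf {n : ℕ} {ρ : Euc n → ℝ} (hρ : LCF ρ) {L : Fin n → ℝ} (hL : ∀ i, 0 < L i) :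
    LCF (dg ρ L) :=
  ⟨fun x => mul_nonneg (Finset.prod_pos fun i _ => hL i).le (hρ.nonneg _),
    (hρ.meas.comp (dl_meas L)).const_mul _, dg_logc hρ.nonneg hρ.logc hL⟩

theorem dg_orth {ρ : Eu κ → ℝ} (ho : Orth ρ) {L : κ → ℝ} (hL : ∀ i, 0 < L i) : Orth (dg ρ L) := by
  have hP : 0 < ∏ i, L i := Finset.prod_pos fun i _ => hL i
  refine ⟨fun x hx => ?_, fun x y hx hxy => ?_⟩
  · obtain ⟨i, hi⟩ := hx
    unfold dg
    rw [ho.supp (dl L x) ⟨i, by
      rw [dl_apply]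
      exact mul_neg_of_pos_of_neg (hL i) hi⟩, mul_zero]
  · unfold dg
    refine mul_le_mul_of_nonneg_left (ho.anti _ _ (fun i => ?_) fun i => ?_) hP.le
    · rw [dl_apply]
      exact mul_nonneg (hL i).le (hx i)
    · rw [dl_apply, dl_apply]
      exact mul_le_mul_of_nonneg_left (hxy i) (hL i).le

theorem dl_fl [DecidableEq κ] (L : κ → ℝ) (S : Finset κ) (x : Eu κ) : dl L (fl S x) = fl S (dl L x) := by
  ext i
  show L i * (if i ∈ S then -x i else x i) = if i ∈ S then -(L i * x i) else L i * x i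
  split_ifs <;> ring

theorem dg_flip [DecidableEq κ] {ρ : Eu κ → ℝ} (h : ∀ (S : Finset κ) (x : Eu κ), ρ (fl S x) = ρ x)
    (L : κ → ℝ) (S : Finset κ) (x : Eu κ) : dg ρ L (fl S x) = dg ρ L x := by
  unfold dg
  rw [dl_fl, h]

/-- the derivative of `f ∘ L` -/
theorem dl_fderiv [DecidableEq κ] {f : Eu κ → ℝ} (hf : ContDiff ℝ 1 f) (L : κ → ℝ) (y : Eu κ) :
    ‖fderiv ℝ (fun y => f (dl L y)) y‖ ^ 2 =
      ∑ i, L i ^ 2 * (fderiv ℝ f (dl L y) (bs κ i)) ^ 2 := by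
  have h1 : HasFDerivAt (fun y => f (dlC L y)) ((fderiv ℝ f (dlC L y)).comp (dlC L)) y :=
    (hf.differentiable one_ne_zero (dlC L y)).hasFDerivAt.comp y (dlC L).hasFDerivAt
  have h2 : fderiv ℝ (fun y => f (dl L y)) y = (fderiv ℝ f (dl L y)).comp (dlC L) := h1.fderiv
  rw [Pool.Agent.Q190.EM.norm_fd, h2]
  refine Finset.sum_congr rfl fun i _ => ?_
  have h3 : dlC L (bs κ i) = L i • bs κ i := by
    ext j
    rw [dlC_apply, dl_apply, PiLp.smul_apply, smul_eq_mul]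
    unfold bs
    by_cases hij : j = i
    · rw [hij]
    · simp [hij]
  rw [ContinuousLinearMap.comp_apply, h3, map_smul, smul_eq_mul, mul_pow]

theorem dl_smooth {f : Eu κ → ℝ} (hf : ContDiff ℝ 1 f) (L : κ → ℝ) :
    ContDiff ℝ 1 fun y => f (dl L y) := by
  have : ContDiff ℝ 1 (dlC L) := (dlC L).contDiff
  exact hf.comp this

/-- partial derivatives are square integrable if the gradient is -/
theorem pd_sq_integrable [DecidableEq κ] {f : Eu κ → ℝ} (hf : ContDiff ℝ 1 f) {μ : Measure (Eu κ)}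
    (h : Integrable (fun x => ‖fderiv ℝ f x‖ ^ 2) μ) (i : κ) :
    Integrable (fun x => (fderiv ℝ f x (bs κ i)) ^ 2) μ := by
  have hc : Continuous fun x => (fderiv ℝ f x (bs κ i)) ^ 2 :=
    ((hf.continuous_fderiv one_ne_zero).clm_apply continuous_const).pow 2
  refine h.mono' hc.aestronglyMeasurable (Eventually.of_forall fun x => ?_)
  rw [Real.norm_eq_abs, abs_of_nonneg (sq_nonneg _), Pool.Agent.Q190.EM.norm_fd]
  exact Finset.single_le_sum (f := fun i => (fderiv ℝ f x (bs κ i)) ^ 2)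
    (fun i _ => sq_nonneg _) (Finset.mem_univ i)

/-- **the Dirichlet form after the change of variables** -/
theorem dg_dir [DecidableEq κ] {ρ : Eu κ → ℝ} (hρ : Measurable ρ) {L : κ → ℝ} (hL : ∀ i, 0 < L i)
    {f : Eu κ → ℝ} (hf : ContDiff ℝ 1 f) (h : Integrable (fun x => ‖fderiv ℝ f x‖ ^ 2) (mu ρ)) :
    ∫ y, ‖fderiv ℝ (fun y => f (dl L y)) y‖ ^ 2 ∂(mu (dg ρ L)) =
      ∑ i, L i ^ 2 * ∫ x, (fderiv ℝ f x (bs κ i)) ^ 2 ∂(mu ρ) := by
  have hc : ∀ i, Continuous fun x => (fderiv ℝ f x (bs κ i)) ^ 2 := fun i =>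
    ((hf.continuous_fderiv one_ne_zero).clm_apply continuous_const).pow 2
  have hc2 : Continuous fun x => ∑ i, L i ^ 2 * (fderiv ℝ f x (bs κ i)) ^ 2 :=
    continuous_finset_sum _ fun i _ => continuous_const.mul (hc i)
  simp_rw [dl_fderiv hf L]
  rw [dg_int' hρ hL (F := fun x => ∑ i, L i ^ 2 * (fderiv ℝ f x (bs κ i)) ^ 2) hc2,
    integral_finset_sum _ fun i _ => (pd_sq_integrable hf h i).const_mul _]
  exact Finset.sum_congr rfl fun i _ => integral_const_mul _ _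

theorem dg_dir_integrable [DecidableEq κ] {ρ : Eu κ → ℝ} (hρ : Measurable ρ) {L : κ → ℝ}
    (hL : ∀ i, 0 < L i) {f : Eu κ → ℝ} (hf : ContDiff ℝ 1 f)
    (h : Integrable (fun x => ‖fderiv ℝ f x‖ ^ 2) (mu ρ)) :
    Integrable (fun y => ‖fderiv ℝ (fun y => f (dl L y)) y‖ ^ 2) (mu (dg ρ L)) := by
  have hc : ∀ i, Continuous fun x => (fderiv ℝ f x (bs κ i)) ^ 2 := fun i =>
    ((hf.continuous_fderiv one_ne_zero).clm_apply continuous_const).pow 2
  simp_rw [dl_fderiv hf L]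
  exact dg_integrable hρ hL (F := fun x => ∑ i, L i ^ 2 * (fderiv ℝ f x (bs κ i)) ^ 2)
    (continuous_finset_sum _ fun i _ => continuous_const.mul (hc i))
    (integrable_finset_sum _ fun i _ => (pd_sq_integrable hf h i).const_mul _)

/-- second moments after the change of variables -/
theorem dg_mom [DecidableEq κ] {ρ : Eu κ → ℝ} (hρ : Measurable ρ) {L : κ → ℝ} (hL : ∀ i, 0 < L i)
    (i : κ) : ∫ y, y i ^ 2 ∂(mu (dg ρ L)) = (L i ^ 2)⁻¹ * ∫ x, x i ^ 2 ∂(mu ρ) := by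
  rw [dg_int hρ hL (F := fun y : Eu κ => y i ^ 2) (by fun_prop), ← integral_const_mul]
  refine integral_congr_ae (Eventually.of_forall fun x => ?_)
  simp only [dl_apply]
  rw [mul_pow, inv_pow]

end Pool.Agent.KS6_97.Unc
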