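import Pool.Agent.KS6_97.Unc.SC

/-!
# Functions which vanish on a coordinate hyperplane
-/

set_option autoImplicit false

namespace Pool.Agent.KS6_97.Unc

open MeasureTheory Set Filter Topology
open scoped ENNReal InnerProductSpace ContDiff
open Pool.Agent.H888R2.KT (LC)
open Pool.Agent.H212R2.KLS (mu Bdd)
open Pool.Agent.Q86.EM (bs)

theorem di : S_DI := by
  intro κ _ _ ρ hρ ho i g hg hg0 a ha
  have hbs := Pool.Agent.KS6_97.Sch.bs_lc hρ
  have hgc := hg.continuous
  obtain ⟨F, hF⟩ : ∃ F : Eu κ → ℝ, F = fun x => ‖fderiv ℝ g x‖ := ⟨_, rfl⟩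
  have hFc : Continuous F := by
    rw [hF]
    exact (hg.continuous_fderiv one_ne_zero).norm
  have hF0 : ∀ x, 0 ≤ F x := fun x => by
    rw [hF]
    exact norm_nonneg _
  obtain ⟨e, he⟩ : ∃ e : Eu κ, e = bs κ i := ⟨_, rfl⟩
  have hen : ‖e‖ = 1 := by
    rw [he]
    unfold bs
    simp
  have hei : ∀ (x : Eu κ) (t : ℝ), (x - t • e) i = x i - t := by
    intro x t
    rw [he]
    unfold bs
    simp
  have hej : ∀ (x : Eu κ) (t : ℝ) (j : κ), j ≠ i → (x - t • e) j = x j := by
    intro x t j hj
    rw [he]
    unfold bs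
    simp [hj]
  -- the line integral
  have hline : ∀ x : Eu κ, 0 ≤ x i → |g x| ≤ ∫ t in (0 : ℝ)..(x i), F (x - t • e) := by
    intro x hx
    have hd : ∀ t ∈ uIcc (0 : ℝ) (x i), HasDerivAt (fun t : ℝ => g (x - t • e))
        (-(fderiv ℝ g (x - t • e) e)) t := by
      intro t _
      have h1 : HasDerivAt (fun t : ℝ => x - t • e) (-e) t := by
        have h2 := ((hasDerivAt_id t).smul_const e).const_sub x
        simpa using h2
      have h2 := ((hg.differentiable one_ne_zero (x - t • e)).hasFDerivAt).comp_hasDerivAt t h1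
      rw [map_neg] at h2
      exact h2
    have hcont : Continuous fun t : ℝ => -(fderiv ℝ g (x - t • e) e) := by
      have h1 : Continuous fun t : ℝ => fderiv ℝ g (x - t • e) :=
        (hg.continuous_fderiv one_ne_zero).comp (by fun_prop)
      exact (h1.clm_apply continuous_const).neg
    have h1 := intervalIntegral.integral_eq_sub_of_hasDerivAt hd (hcont.intervalIntegrable _ _)
    have h2 : g (x - x i • e) = 0 := hg0 _ (by rw [hei]; ring)
    rw [h2, zero_smul, sub_zero, zero_sub] at h1
    have h3 : |g x| = |∫ t in (0 : ℝ)..(x i), -(fderiv ℝ g (x - t • e) e)| := by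
      rw [h1, abs_neg]
    rw [h3]
    refine (intervalIntegral.abs_integral_le_integral_abs hx).trans ?_
    refine intervalIntegral.integral_mono_on hx (hcont.abs.intervalIntegrable _ _)
      ((hFc.comp (by fun_prop)).intervalIntegrable _ _) fun t _ => ?_
    rw [abs_neg, hF, ← Real.norm_eq_abs]
    refine ((fderiv ℝ g (x - t • e)).le_opNorm e).trans ?_
    rw [hen, mul_one]
  -- lintegral form
  have hρm : Measurable fun x => ENNReal.ofReal (ρ x) := hρ.meas.ennreal_ofReal
  have hFm : Measurable fun x => ENNReal.ofReal (F x) := hFc.measurable.ennreal_ofReal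
  have hset : MeasurableSet {x : Eu κ | x i < a} :=
    measurableSet_lt (by fun_prop) measurable_const
  have hgm : Measurable fun x : Eu κ => |g x| * (if x i < a then (1 : ℝ) else 0) :=
    (hgc.abs.measurable).mul (Measurable.ite hset measurable_const measurable_const)
  have hpt : ∀ x : Eu κ, ENNReal.ofReal (ρ x) * ENNReal.ofReal (|g x| * (if x i < a then 1 else 0)) ≤
      ∫⁻ t in Ioc (0 : ℝ) a, ENNReal.ofReal (ρ (x - t • e)) * ENNReal.ofReal (F (x - t • e)) := by
    intro x
    by_cases hx : ∀ j, 0 ≤ x j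
    swap
    · push Not at hx
      rw [ho.supp x hx, ENNReal.ofReal_zero, zero_mul]
      exact zero_le
    by_cases hxa : x i < a
    swap
    · rw [if_neg hxa, mul_zero, ENNReal.ofReal_zero, mul_zero]
      exact zero_le
    rw [if_pos hxa, mul_one]
    have hint : IntegrableOn (fun t : ℝ => F (x - t • e)) (Ioc 0 (x i)) :=
      ((hFc.comp (by fun_prop : Continuous fun t : ℝ => x - t • e)).intervalIntegrable 0 (x i)).1
    have h1 : ENNReal.ofReal |g x| ≤ ∫⁻ t in Ioc (0 : ℝ) (x i), ENNReal.ofReal (F (x - t • e)) := by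
      rw [← ofReal_integral_eq_lintegral_ofReal hint (Eventually.of_forall fun t => hF0 _),
        ← intervalIntegral.integral_of_le (hx i)]
      exact ENNReal.ofReal_le_ofReal (hline x (hx i))
    calc ENNReal.ofReal (ρ x) * ENNReal.ofReal |g x| ≤
        ENNReal.ofReal (ρ x) * ∫⁻ t in Ioc (0 : ℝ) (x i), ENNReal.ofReal (F (x - t • e)) := by
          gcongr
      _ = ∫⁻ t in Ioc (0 : ℝ) (x i), ENNReal.ofReal (ρ x) * ENNReal.ofReal (F (x - t • e)) := by
          have hm5 : Measurable fun t : ℝ => ENNReal.ofReal (F (x - t • e)) :=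
            hFm.comp (by fun_prop : Measurable fun t : ℝ => x - t • e)
          rw [lintegral_const_mul _ hm5]
      _ ≤ ∫⁻ t in Ioc (0 : ℝ) (x i), ENNReal.ofReal (ρ (x - t • e)) *
            ENNReal.ofReal (F (x - t • e)) := by
          refine setLIntegral_mono_ae' measurableSet_Ioc (Eventually.of_forall fun t ht => ?_)
          refine mul_le_mul_left (ENNReal.ofReal_le_ofReal (ho.anti _ _ (fun j => ?_) fun j => ?_)) _
          · by_cases hj : j = i
            · rw [hj, hei]
              linarith [ht.2]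
            · rw [hej x t j hj]
              exact hx j
          · by_cases hj : j = i
            · rw [hj, hei]
              linarith [ht.1]
            · rw [hej x t j hj]
      _ ≤ _ := lintegral_mono_set (Ioc_subset_Ioc_right hxa.le)
  have hmain : ∫⁻ x, ENNReal.ofReal (|g x| * (if x i < a then 1 else 0)) ∂(mu ρ) ≤
      ENNReal.ofReal a * ∫⁻ x, ENNReal.ofReal (F x) ∂(mu ρ) := by
    unfold mu
    rw [lintegral_withDensity_eq_lintegral_mul _ hρm hgm.ennreal_ofReal,
      lintegral_withDensity_eq_lintegral_mul _ hρm hFm]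
    calc ∫⁻ x, ((fun x => ENNReal.ofReal (ρ x)) *
          fun x => ENNReal.ofReal (|g x| * (if x i < a then 1 else 0))) x ≤
        ∫⁻ x, ∫⁻ t in Ioc (0 : ℝ) a, ENNReal.ofReal (ρ (x - t • e)) *
          ENNReal.ofReal (F (x - t • e)) := lintegral_mono fun x => hpt x
      _ = ∫⁻ t in Ioc (0 : ℝ) a, ∫⁻ x, ENNReal.ofReal (ρ (x - t • e)) *
          ENNReal.ofReal (F (x - t • e)) := by
          refine lintegral_lintegral_swap ?_
          have h1 : Measurable fun p : Eu κ × ℝ => p.1 - p.2 • e := by fun_prop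
          exact ((hρm.comp h1).mul (hFm.comp h1)).aemeasurable
      _ = ∫⁻ t in Ioc (0 : ℝ) a, ∫⁻ x, ENNReal.ofReal (ρ x) * ENNReal.ofReal (F x) := by
          refine lintegral_congr fun t => ?_
          exact lintegral_sub_right_eq_self
            (fun x => ENNReal.ofReal (ρ x) * ENNReal.ofReal (F x)) (t • e)
      _ = _ := by
          rw [lintegral_const, Measure.restrict_apply_univ, Real.volume_Ioc, sub_zero, mul_comm]
          rfl
  have hiF : Integrable F (mu ρ) := hbs.integrable hFc
  rw [← hF]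
  rw [integral_eq_lintegral_of_nonneg_ae (Eventually.of_forall fun x => by positivity)
    hgm.aestronglyMeasurable]
  have hI0 : 0 ≤ ∫ x, F x ∂(mu ρ) := integral_nonneg hF0
  refine ENNReal.toReal_le_of_le_ofReal (by positivity) ?_
  rw [ENNReal.ofReal_mul ha.le, ofReal_integral_eq_lintegral_ofReal hiF
    (Eventually.of_forall hF0)]
  exact hmain

end Pool.Agent.KS6_97.Unc
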