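import Pool.Agent.KS6_97.Sch.ILp

/-!
# Unconditional log-concave measures: definitions and statements of the parts
-/

set_option autoImplicit false

namespace Pool.Agent.KS6_97.Unc

open MeasureTheory Set Filter Topology
open scoped ENNReal InnerProductSpace ContDiff
open Pool.Agent.H888R2.KT (LC)
open Pool.Agent.H212R2.KLS (mu Bdd)

/-- Euclidean space -/
abbrev Eu (κ : Type) [Fintype κ] : Type := EuclideanSpace ℝ κ

/-- the coordinate change `ψ(w) = ∫_0^w exp (u - √(1 + u²)) du` -/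
noncomputable def ps (w : ℝ) : ℝ := ∫ u in (0 : ℝ)..w, Real.exp (u - √(1 + u ^ 2))

section

variable {κ : Type} [Fintype κ]

/-- `ψ` in all coordinates -/
noncomputable def Ps (w : Eu κ) : Eu κ := WithLp.toLp 2 fun i => ps (w i)

/-- the weight `exp (-∑ √(1 + w_i²))` -/
noncomputable def Wt (w : Eu κ) : ℝ := Real.exp (-∑ i, √(1 + w i ^ 2))

/-- `ρ` lives on the orthant and is nonincreasing in each coordinate there -/
structure Orth (ρ : Eu κ → ℝ) : Prop where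
  supp : ∀ x, (∃ i, x i < 0) → ρ x = 0
  anti : ∀ x y : Eu κ, (∀ i, 0 ≤ x i) → (∀ i, x i ≤ y i) → ρ y ≤ ρ x

/-- change of the signs of the coordinates in `S` -/
noncomputable def fl [DecidableEq κ] (S : Finset κ) (x : Eu κ) : Eu κ :=
  WithLp.toLp 2 fun i => if i ∈ S then -x i else x i

/-- the character `(-1)^|S ∩ T|` -/
def ch [DecidableEq κ] (T S : Finset κ) : ℝ := ∏ i ∈ T, if i ∈ S then -1 else 1

end

/-- **[JOB CV]** change of variables -/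
def S_CV : Prop := ∀ (κ : Type) [Fintype κ] [DecidableEq κ] (ρ : Eu κ → ℝ), LC ρ → Orth ρ →
  ∃ h : Eu κ → ℝ, LC h ∧ (∀ᵐ w ∂(mu h), ∀ i, 0 ≤ w i) ∧
    ∀ F : Eu κ → ℝ, Continuous F → ∫ x, F x ∂(mu ρ) = ∫ w, F (Ps w) * Wt w ∂(mu h)

/-- **[JOB WA]** the Walsh decomposition of a `C¹` function with respect to a measure of bounded
support which is invariant under the changes of signs -/
def S_WA : Prop := ∀ (κ : Type) [Fintype κ] [DecidableEq κ] (ρ : Eu κ → ℝ), LC ρ →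
  (∀ (S : Finset κ) (x : Eu κ), ρ (fl S x) = ρ x) → ∀ f : Eu κ → ℝ, ContDiff ℝ 1 f →
  ∃ g : Finset κ → Eu κ → ℝ, (∀ T, ContDiff ℝ 1 (g T)) ∧
    (∀ T S x, g T (fl S x) = ch T S * g T x) ∧
    ∫ x, f x ∂(mu ρ) = ∫ x, g ∅ x ∂(mu ρ) ∧
    ∫ x, f x ^ 2 ∂(mu ρ) = ∑ T, ∫ x, g T x ^ 2 ∂(mu ρ) ∧
    ∫ x, ‖fderiv ℝ f x‖ ^ 2 ∂(mu ρ) = ∑ T, ∫ x, ‖fderiv ℝ (g T) x‖ ^ 2 ∂(mu ρ)

/-- **[JOB EV]** reduction of even functions to the orthant -/
def S_EV : Prop := ∀ (κ : Type) [Fintype κ] [DecidableEq κ] (ρ : Eu κ → ℝ), LC ρ →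
  (∀ (S : Finset κ) (x : Eu κ), ρ (fl S x) = ρ x) →
  ∃ ρ' : Eu κ → ℝ, LC ρ' ∧ Orth ρ' ∧
    ∀ F : Eu κ → ℝ, Continuous F → (∀ S x, F (fl S x) = F x) →
      ∫ x, F x ∂(mu ρ) = ∫ x, F x ∂(mu ρ')

/-- **[JOB DI]** functions which vanish on the hyperplane `x_i = 0` -/
def S_DI : Prop := ∀ (κ : Type) [Fintype κ] [DecidableEq κ] (ρ : Eu κ → ℝ), LC ρ → Orth ρ →
  ∀ (i : κ) (g : Eu κ → ℝ), ContDiff ℝ 1 g → (∀ x : Eu κ, x i = 0 → g x = 0) → ∀ a : ℝ, 0 < a →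
    ∫ x, |g x| * (if x i < a then 1 else 0) ∂(mu ρ) ≤ a * ∫ x, ‖fderiv ℝ g x‖ ∂(mu ρ)

end Pool.Agent.KS6_97.Unc
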