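import Pool.Agent.KS6_97.Unc.Defs

/-!
# JOB EV: reduction of even functions to the orthant (helper6)
-/

set_option autoImplicit false

namespace Pool.Agent.KS6_97.Unc

open MeasureTheory Set Filter Topology
open scoped ENNReal InnerProductSpace ContDiff
open Pool.Agent.H888R2.KT (LC)
open Pool.Agent.H212R2.KLS (mu Bdd)

namespace EV

section

variable {κ : Type} [Fintype κ]

/-- the orthant -/
def O (κ : Type) [Fintype κ] : Set (Eu κ) := {w | ∀ i, 0 ≤ w i}

theorem O_meas : MeasurableSet (O κ) := by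
  have : O κ = ⋂ i, {w : Eu κ | 0 ≤ w i} := by ext w; simp [O]
  rw [this]
  exact MeasurableSet.iInter fun i => measurableSet_le measurable_const (by fun_prop)

/-- absolute values of all coordinates -/
noncomputable def Ab (x : Eu κ) : Eu κ := WithLp.toLp 2 fun i => |x i|

theorem Ab_apply (x : Eu κ) (i : κ) : Ab x i = |x i| := rfl

theorem Ab_cont : Continuous (Ab (κ := κ)) := by
  unfold Ab
  apply (PiLp.continuous_toLp 2 _).comp
  apply continuous_pi
  intro i
  exact continuous_abs.comp (by fun_prop)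

variable [DecidableEq κ]

theorem fl_apply (S : Finset κ) (x : Eu κ) (i : κ) : fl S x i = if i ∈ S then -x i else x i := rfl

theorem Ab_eq_fl (x : Eu κ) : Ab x = fl (Finset.univ.filter fun i => x i < 0) x := by
  ext i
  rw [Ab_apply, fl_apply]
  by_cases h : x i < 0
  · rw [if_pos (by simpa using h), abs_of_neg h]
  · rw [if_neg (by simpa using h), abs_of_nonneg (not_lt.1 h)]

/-- the flip as an isometry -/
noncomputable def flI (S : Finset κ) : Eu κ ≃ₗᵢ[ℝ] Eu κ :=
  LinearIsometryEquiv.piLpCongrRight 2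
    (fun i => if i ∈ S then LinearIsometryEquiv.neg ℝ else LinearIsometryEquiv.refl ℝ ℝ)

theorem flI_eq (S : Finset κ) (x : Eu κ) : flI S x = fl S x := by
  ext i
  rw [fl_apply]
  unfold flI
  simp only [LinearIsometryEquiv.piLpCongrRight_apply]
  split_ifs <;> simp

theorem fl_mp (S : Finset κ) : MeasurePreserving (fl S : Eu κ → Eu κ) volume volume := by
  have h := (flI S).measurePreserving
  have h2 : (flI S : Eu κ → Eu κ) = fl S := funext fun x => flI_eq S x
  rw [h2] at h
  exact h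

theorem fl_cont (S : Finset κ) : Continuous (fl S : Eu κ → Eu κ) := by
  have h2 : (flI S : Eu κ → Eu κ) = fl S := funext fun x => flI_eq S x
  rw [← h2]; exact (flI S).continuous

theorem fl_mem {S : Finset κ} {x : Eu κ} (hx : ∀ i, x i ≠ 0) :
    fl S x ∈ O κ ↔ S = Finset.univ.filter fun i => x i < 0 := by
  constructor
  · intro h
    ext i
    have hi := h i
    rw [fl_apply] at hi
    simp only [Finset.mem_filter, Finset.mem_univ, true_and]
    constructor
    · intro hS
      rw [if_pos hS] at hi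
      exact lt_of_le_of_ne (by linarith) (hx i)
    · intro hneg
      by_contra hS
      rw [if_neg hS] at hi
      linarith
  · rintro rfl i
    rw [fl_apply]
    by_cases h : x i < 0
    · rw [if_pos (by simpa using h)]; linarith
    · rw [if_neg (by simpa using h)]; linarith

theorem ae_ne : ∀ᵐ x : Eu κ, ∀ i, x i ≠ 0 := by
  rw [ae_all_iff]
  intro i
  have h1 : volume ((LinearMap.ker (EuclideanSpace.proj i : Eu κ →L[ℝ] ℝ).toLinearMap : Submodule ℝ (Eu κ)) : Set (Eu κ)) = 0 := by
    apply Measure.addHaar_submodule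
    intro htop
    have h2 : (EuclideanSpace.single i (1 : ℝ) : Eu κ) ∈ LinearMap.ker (EuclideanSpace.proj i : Eu κ →L[ℝ] ℝ).toLinearMap := by
      rw [htop]; trivial
    rw [LinearMap.mem_ker] at h2
    simp at h2
  rw [ae_iff]
  refine measure_mono_null ?_ h1
  intro x hx
  simp only [ne_eq, not_not, mem_setOf_eq] at hx
  simpa using hx

/-- an even nonnegative function: its integral is `2^n` times the integral over the orthant -/
theorem lint_even {G : Eu κ → ℝ≥0∞} (hG : Measurable G) (he : ∀ S x, G (fl S x) = G x) :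
    ∫⁻ x, G x = 2 ^ Fintype.card κ * ∫⁻ x in O κ, G x := by
  have h1 : ∀ᵐ x : Eu κ, G x = ∑ S : Finset κ, (O κ).indicator G (fl S x) := by
    filter_upwards [ae_ne (κ := κ)] with x hx
    rw [Finset.sum_eq_single (Finset.univ.filter fun i => x i < 0)]
    · rw [indicator_of_mem ((fl_mem hx).2 rfl), he]
    · intro S _ hS
      exact indicator_of_notMem (fun h => hS ((fl_mem hx).1 h)) _
    · intro h; exact absurd (Finset.mem_univ _) h
  have hGO : Measurable ((O κ).indicator G) := hG.indicator O_meas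
  have hGS : ∀ S ∈ (Finset.univ : Finset (Finset κ)), Measurable fun x : Eu κ => (O κ).indicator G (fl S x) :=
    fun S _ => hGO.comp (fl_cont S).measurable
  rw [lintegral_congr_ae h1, lintegral_finset_sum _ hGS]
  have h2 : ∀ S : Finset κ, ∫⁻ x, (O κ).indicator G (fl S x) = ∫⁻ x in O κ, G x := by
    intro S
    rw [(fl_mp S).lintegral_comp hGO, lintegral_indicator O_meas]
  rw [Finset.sum_congr rfl fun S _ => h2 S, Finset.sum_const, Finset.card_univ, Fintype.card_finset, nsmul_eq_mul]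
  norm_num

open Classical in
/-- the density on the orthant -/
noncomputable def rh (ρ : Eu κ → ℝ) (x : Eu κ) : ℝ := if x ∈ O κ then 2 ^ Fintype.card κ * ρ x else 0

theorem rh_of_mem (ρ : Eu κ → ℝ) {w : Eu κ} (hw : w ∈ O κ) : rh ρ w = 2 ^ Fintype.card κ * ρ w := by
  unfold rh; rw [if_pos hw]

theorem rh_of_not (ρ : Eu κ → ℝ) {w : Eu κ} (hw : w ∉ O κ) : rh ρ w = 0 := by
  unfold rh; rw [if_neg hw]

theorem rh_meas {ρ : Eu κ → ℝ} (hρ : Measurable ρ) : Measurable (rh ρ) := by
  classical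
  unfold rh
  exact Measurable.ite O_meas (measurable_const.mul hρ) measurable_const

theorem rh_nonneg {ρ : Eu κ → ℝ} (hρ : ∀ x, 0 ≤ ρ x) (w : Eu κ) : 0 ≤ rh ρ w := by
  unfold rh; split_ifs
  · exact mul_nonneg (by positivity) (hρ _)
  · exact le_rfl

theorem rpow_split {a t : ℝ} (ha : 0 ≤ a) : a ^ (1 - t) * a ^ t = a ∨ a = 0 := by
  rcases ha.eq_or_lt with h | h
  · right; exact h.symm
  · left
    rw [← Real.rpow_add h]; simp

theorem rpow_split' {a t : ℝ} (ha : 0 ≤ a) (ht : 0 < t) : a ^ (1 - t) * a ^ t = a := by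
  rcases rpow_split (t := t) ha with h | h
  · exact h
  · subst h
    rw [Real.zero_rpow ht.ne', mul_zero]

theorem rh_logc {ρ : Eu κ → ℝ} (hρ : LC ρ) (x y : Eu κ) (t : ℝ) (ht0 : 0 < t) (ht1 : t < 1) :
    rh ρ x ^ (1 - t) * rh ρ y ^ t ≤ rh ρ ((1 - t) • x + t • y) := by
  by_cases hx : x ∈ O κ
  swap
  · rw [rh_of_not ρ hx, Real.zero_rpow (by linarith), zero_mul]
    exact rh_nonneg hρ.nonneg _
  by_cases hy : y ∈ O κ
  swap
  · rw [rh_of_not ρ hy, Real.zero_rpow (by linarith), mul_zero]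
    exact rh_nonneg hρ.nonneg _
  have hz : (1 - t) • x + t • y ∈ O κ := by
    intro i
    simp only [PiLp.add_apply, PiLp.smul_apply, smul_eq_mul]
    nlinarith [mul_nonneg (by linarith : (0 : ℝ) ≤ 1 - t) (hx i), mul_nonneg ht0.le (hy i)]
  have h2 : (0 : ℝ) ≤ 2 ^ Fintype.card κ := by positivity
  rw [rh_of_mem ρ hx, rh_of_mem ρ hy, rh_of_mem ρ hz, Real.mul_rpow h2 (hρ.nonneg _),
    Real.mul_rpow h2 (hρ.nonneg _)]
  have h3 := rpow_split' (a := (2 : ℝ) ^ Fintype.card κ) h2 ht0
  calc ((2 : ℝ) ^ Fintype.card κ) ^ (1 - t) * ρ x ^ (1 - t) * (((2 : ℝ) ^ Fintype.card κ) ^ t * ρ y ^ t)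
      = (((2 : ℝ) ^ Fintype.card κ) ^ (1 - t) * ((2 : ℝ) ^ Fintype.card κ) ^ t) * (ρ x ^ (1 - t) * ρ y ^ t) := by ring
    _ ≤ 2 ^ Fintype.card κ * ρ ((1 - t) • x + t • y) := by
      rw [h3]
      exact mul_le_mul_of_nonneg_left (hρ.logc x y t ht0 ht1) h2

theorem rh_bdd {ρ : Eu κ → ℝ} (hρ : Bdd ρ) : Bdd (rh ρ) := by
  obtain ⟨R, hR⟩ := hρ
  refine ⟨R, ?_⟩
  intro w hw
  by_cases h : w ∈ O κ
  · rw [rh_of_mem ρ h, hR w hw, mul_zero]
  · exact rh_of_not ρ h

/-- an even log-concave function does not increase with the coordinates -/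
theorem anti_step {ρ : Eu κ → ℝ} (hρ : LC ρ) (he : ∀ (S : Finset κ) (x : Eu κ), ρ (fl S x) = ρ x)
    (p q : Eu κ) (i : κ) (h0 : 0 ≤ p i) (h1 : p i ≤ q i) (h2 : ∀ j, j ≠ i → p j = q j) : ρ q ≤ ρ p := by
  rcases h1.eq_or_lt with h | h
  · have : p = q := by
      ext j
      by_cases hj : j = i
      · rw [hj, h]
      · exact h2 j hj
    rw [this]
  have hq : 0 < q i := h0.trans_lt h
  set t : ℝ := (1 - p i / q i) / 2 with ht
  have hr : p i / q i < 1 := (div_lt_one hq).2 h
  have hr0 : 0 ≤ p i / q i := by positivity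
  have ht0 : 0 < t := by rw [ht]; linarith
  have ht1 : t < 1 := by rw [ht]; linarith
  have h3 : (1 - t) • q + t • fl {i} q = p := by
    ext j
    simp only [PiLp.add_apply, PiLp.smul_apply, smul_eq_mul, fl_apply, Finset.mem_singleton]
    by_cases hj : j = i
    · rw [if_pos hj, hj]
      have : (1 - 2 * t) * q i = p i := by
        rw [ht]; field_simp; ring
      linarith
    · rw [if_neg hj, h2 j hj]; ring
  have h4 := hρ.logc q (fl {i} q) t ht0 ht1
  rw [h3, he, rpow_split' (hρ.nonneg q) ht0] at h4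
  exact h4

theorem anti_all {ρ : Eu κ → ℝ} (hρ : LC ρ) (he : ∀ (S : Finset κ) (x : Eu κ), ρ (fl S x) = ρ x)
    (x y : Eu κ) (hx : ∀ i, 0 ≤ x i) (hxy : ∀ i, x i ≤ y i) : ρ y ≤ ρ x := by
  have key : ∀ S : Finset κ, ρ y ≤ ρ (WithLp.toLp 2 fun i => if i ∈ S then x i else y i) := by
    intro S
    induction S using Finset.induction_on with
    | empty => simp
    | insert i S hi ih =>
      refine ih.trans ?_
      apply anti_step hρ he _ _ i
      · simp [hx i]
      · simp [hi, hxy i]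
      · intro j hj
        simp [Finset.mem_insert, hj]
  have := key Finset.univ
  simpa using this

theorem rh_orth {ρ : Eu κ → ℝ} (hρ : LC ρ) (he : ∀ (S : Finset κ) (x : Eu κ), ρ (fl S x) = ρ x) : Orth (rh ρ) where
  supp := by
    rintro x ⟨i, hi⟩
    apply rh_of_not
    intro h
    exact absurd (h i) (not_le.2 hi)
  anti := by
    intro x y hx hxy
    have hxO : x ∈ O κ := hx
    have hyO : y ∈ O κ := fun i => (hx i).trans (hxy i)
    rw [rh_of_mem ρ hxO, rh_of_mem ρ hyO]
    exact mul_le_mul_of_nonneg_left (anti_all hρ he x y hx hxy) (by positivity)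

theorem Ab_fl (S : Finset κ) (x : Eu κ) : Ab (fl S x) = Ab x := by
  ext i
  rw [Ab_apply, Ab_apply, fl_apply]
  split_ifs
  · rw [abs_neg]
  · rfl

theorem Ab_of_mem {x : Eu κ} (hx : x ∈ O κ) : Ab x = x := by
  ext i
  rw [Ab_apply, abs_of_nonneg (hx i)]

theorem map_eq {ρ : Eu κ → ℝ} (hρ : LC ρ) (he : ∀ (S : Finset κ) (x : Eu κ), ρ (fl S x) = ρ x) :
    mu (rh ρ) = (mu ρ).map Ab := by
  ext s hs
  have hm : MeasurableSet (Ab ⁻¹' s : Set (Eu κ)) := Ab_cont.measurable hs
  rw [Measure.map_apply Ab_cont.measurable hs]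
  unfold mu
  rw [withDensity_apply _ hs, withDensity_apply _ hm, ← lintegral_indicator hs, ← lintegral_indicator hm]
  have hme : Measurable ((Ab ⁻¹' s : Set (Eu κ)).indicator fun x => ENNReal.ofReal (ρ x)) :=
    hρ.meas.ennreal_ofReal.indicator hm
  rw [lint_even hme]
  swap
  · intro S x
    by_cases hx : Ab x ∈ s
    · rw [indicator_of_mem (show x ∈ Ab ⁻¹' s from hx),
        indicator_of_mem (show fl S x ∈ Ab ⁻¹' s by rw [mem_preimage, Ab_fl]; exact hx), he]
    · rw [indicator_of_notMem (show x ∉ Ab ⁻¹' s from hx),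
        indicator_of_notMem (show fl S x ∉ Ab ⁻¹' s by rw [mem_preimage, Ab_fl]; exact hx)]
  rw [← lintegral_const_mul _ hme, ← lintegral_indicator O_meas]
  apply lintegral_congr
  intro x
  by_cases hO : x ∈ O κ
  · rw [indicator_of_mem hO]
    by_cases hx : x ∈ s
    · rw [indicator_of_mem hx, indicator_of_mem (show x ∈ Ab ⁻¹' s by rw [mem_preimage, Ab_of_mem hO]; exact hx),
        rh_of_mem ρ hO, ENNReal.ofReal_mul (by positivity), ENNReal.ofReal_pow (by norm_num)]
      norm_num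
    · rw [indicator_of_notMem hx, indicator_of_notMem (show x ∉ Ab ⁻¹' s by rw [mem_preimage, Ab_of_mem hO]; exact hx),
        mul_zero]
  · rw [indicator_of_notMem hO]
    by_cases hx : x ∈ s
    · rw [indicator_of_mem hx, rh_of_not ρ hO]; simp
    · rw [indicator_of_notMem hx]

theorem rh_LC {ρ : Eu κ → ℝ} (hρ : LC ρ) (he : ∀ (S : Finset κ) (x : Eu κ), ρ (fl S x) = ρ x) : LC (rh ρ) where
  nonneg := rh_nonneg hρ.nonneg
  meas := rh_meas hρ.meas
  logc := rh_logc hρ
  bdd := rh_bdd hρ.bdd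
  fin := by
    rw [map_eq hρ he, Measure.map_apply Ab_cont.measurable MeasurableSet.univ]
    exact hρ.fin
  ne := by
    rw [map_eq hρ he]
    intro h
    apply hρ.ne
    exact (Measure.map_eq_zero_iff Ab_cont.measurable.aemeasurable).1 h

end

end EV

open EV in
/-- **[JOB EV]** -/
theorem ev : S_EV := by
  intro κ _ _ ρ hρ he
  refine ⟨rh ρ, rh_LC hρ he, rh_orth hρ he, ?_⟩
  intro F hF hFe
  rw [map_eq hρ he, integral_map Ab_cont.measurable.aemeasurable hF.aestronglyMeasurable]
  apply integral_congr_ae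
  refine Eventually.of_forall fun x => ?_
  simp only []
  rw [Ab_eq_fl, hFe]

end Pool.Agent.KS6_97.Unc
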