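import Pool.Agent.KS6_97.Unc.OR
import Pool.Agent.KS6_97.Unc.DI

/-!
# The Poincare inequality for unconditional log-concave densities of bounded support
-/

set_option autoImplicit false

namespace Pool.Agent.KS6_97.Unc

open MeasureTheory Set Filter Topology
open scoped ENNReal InnerProductSpace ContDiff
open Pool.Agent.H888R2.KT (LC)
open Pool.Agent.H212R2.KLS (mu Bdd)
open Pool.Agent.Q86.EM (bs)
open Pool.Agent.KS6_97.Sch (BS)

variable {κ : Type} [Fintype κ] [DecidableEq κ]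

/-! ### the changes of signs -/

theorem fl_apply (S : Finset κ) (x : Eu κ) (i : κ) : fl S x i = if i ∈ S then -x i else x i := rfl

/-- the change of signs as an isometry -/
noncomputable def flE (S : Finset κ) : Eu κ ≃ₗᵢ[ℝ] Eu κ where
  toFun := fl S
  invFun := fl S
  left_inv x := by
    ext i
    rw [fl_apply, fl_apply]
    split_ifs <;> simp
  right_inv x := by
    ext i
    rw [fl_apply, fl_apply]
    split_ifs <;> simp
  map_add' x y := by
    ext i
    rw [fl_apply, PiLp.add_apply, PiLp.add_apply, fl_apply, fl_apply]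
    split_ifs
    · ring
    · rfl
  map_smul' c x := by
    ext i
    rw [fl_apply, PiLp.smul_apply, RingHom.id_apply, PiLp.smul_apply, fl_apply]
    split_ifs
    · rw [smul_neg]
    · rfl
  norm_map' x := by
    show ‖fl S x‖ = ‖x‖
    rw [EuclideanSpace.norm_eq, EuclideanSpace.norm_eq]
    congr 1
    refine Finset.sum_congr rfl fun i _ => ?_
    rw [fl_apply]
    split_ifs
    · rw [norm_neg]
    · rfl

theorem flE_apply (S : Finset κ) (x : Eu κ) : flE S x = fl S x := rfl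

theorem ch_sq (T S : Finset κ) : ch T S ^ 2 = 1 := by
  unfold ch
  rw [← Finset.prod_pow]
  refine Finset.prod_eq_one fun i _ => ?_
  split_ifs <;> norm_num

theorem ch_abs (T S : Finset κ) : |ch T S| = 1 := by
  have h := ch_sq T S
  rw [← sq_abs] at h
  nlinarith [abs_nonneg (ch T S)]

theorem ch_empty (S : Finset κ) : ch ∅ S = 1 := by
  unfold ch
  simp

theorem ch_single {T : Finset κ} {i : κ} (hi : i ∈ T) : ch T {i} = -1 := by
  unfold ch
  rw [Finset.prod_eq_single i]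
  · simp
  · intro j _ hj
    simp [hj]
  · intro h
    exact absurd hi h

/-- norm of the derivative of a function with a parity -/
theorem fd_even {g : Eu κ → ℝ} (hg : ContDiff ℝ 1 g) {T : Finset κ}
    (h : ∀ S x, g (fl S x) = ch T S * g x) (S : Finset κ) (x : Eu κ) :
    ‖fderiv ℝ g (fl S x)‖ = ‖fderiv ℝ g x‖ := by
  have h1 : fderiv ℝ (fun x => g (fl S x)) x =
      (fderiv ℝ g (fl S x)).comp ((flE S).toContinuousLinearEquiv : Eu κ →L[ℝ] Eu κ) := by
    have h2 : HasFDerivAt (fun x => g (flE S x))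
        ((fderiv ℝ g (flE S x)).comp ((flE S).toContinuousLinearEquiv : Eu κ →L[ℝ] Eu κ)) x :=
      (hg.differentiable one_ne_zero (flE S x)).hasFDerivAt.comp x
        ((flE S).toContinuousLinearEquiv.hasFDerivAt)
    exact h2.fderiv
  have h2 : fderiv ℝ (fun x => g (fl S x)) x = ch T S • fderiv ℝ g x := by
    have e : (fun x => g (fl S x)) = fun x => ch T S • g x := by
      funext y
      rw [h, smul_eq_mul]
    rw [e]
    exact ((hg.differentiable one_ne_zero x).hasFDerivAt.const_smul (ch T S)).fderiv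
  have h3 : ‖(fderiv ℝ g (fl S x)).comp ((flE S).toContinuousLinearEquiv : Eu κ →L[ℝ] Eu κ)‖ =
      ‖fderiv ℝ g (fl S x)‖ :=
    ContinuousLinearMap.opNorm_comp_linearIsometryEquiv (fderiv ℝ g (fl S x)) (flE S)
  rw [← h3, ← h1, h2, norm_smul, Real.norm_eq_abs, ch_abs, one_mul]

/-- functions odd in the coordinate `i`, on the orthant -/
theorem odd_part (hCV : S_CV) {ρ : Eu κ → ℝ} (hρ : LC ρ) (ho : Orth ρ)
    (h1 : mu ρ univ = 1) {s : ℝ} (hs : 0 < s) (hm : ∀ i, ∫ x, x i ^ 2 ∂(mu ρ) ≤ s)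
    {g : Eu κ → ℝ} (hg : ContDiff ℝ 1 g) (i : κ) (hg0 : ∀ x : Eu κ, x i = 0 → g x = 0) :
    ∫ x, g x ^ 2 ∂(mu ρ) ≤ 460 * s * ∫ x, ‖fderiv ℝ g x‖ ^ 2 ∂(mu ρ) := by
  have hbs := Pool.Agent.KS6_97.Sch.bs_lc hρ
  have hprob : IsProbabilityMeasure (mu ρ) := ⟨h1⟩
  have hgc := hg.continuous
  have hdc : Continuous fun x => ‖fderiv ℝ g x‖ := (hg.continuous_fderiv one_ne_zero).norm
  set G2 := ∫ x, g x ^ 2 ∂(mu ρ) with hG2
  set D := ∫ x, ‖fderiv ℝ g x‖ ^ 2 ∂(mu ρ) with hD
  set m := ∫ x, |g x| ∂(mu ρ) with hmd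
  have hD0 : 0 ≤ D := integral_nonneg fun x => sq_nonneg _
  have hm0 : 0 ≤ m := integral_nonneg fun x => abs_nonneg _
  have iG2 : Integrable (fun x => g x ^ 2) (mu ρ) := hbs.integrable (hgc.pow 2)
  have im : Integrable (fun x => |g x|) (mu ρ) := hbs.integrable hgc.abs
  have iD : Integrable (fun x => ‖fderiv ℝ g x‖ ^ 2) (mu ρ) := hbs.integrable (hdc.pow 2)
  have ic : ∀ c : ℝ, Integrable (fun _ : Eu κ => c) (mu ρ) := fun c => integrable_const c
  have hec : 18 * Real.exp 2 ≤ 133.1 := by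
    have h2 := Real.exp_one_lt_d9
    have h3 : Real.exp 2 = Real.exp 1 ^ 2 := by
      rw [← Real.exp_nat_mul]
      norm_num
    rw [h3]
    nlinarith [Real.exp_pos 1]
  -- the variance of `|g|`
  have hV : G2 - m ^ 2 ≤ 133.1 * s * D := by
    have h2 : ∀ ε : ℝ, 0 < ε → G2 - m ^ 2 - 2 * ε * m ≤ 133.1 * s * D := by
      intro ε hε
      obtain ⟨u, hu⟩ : ∃ u : Eu κ → ℝ, u = fun x => √(ε ^ 2 + g x ^ 2) := ⟨_, rfl⟩
      have hpos : ∀ x, 0 < ε ^ 2 + g x ^ 2 := fun x => by positivity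
      have hu2 : ∀ x, u x ^ 2 = ε ^ 2 + g x ^ 2 := fun x => by
        rw [hu]
        exact Real.sq_sqrt (hpos x).le
      have hu0 : ∀ x, 0 < u x := fun x => by
        rw [hu]
        exact Real.sqrt_pos.2 (hpos x)
      have huc : ContDiff ℝ 1 u := by
        rw [hu]
        exact (contDiff_const.add (hg.pow 2)).sqrt fun x => (hpos x).ne'
      have hud : ∀ x, ‖fderiv ℝ u x‖ ^ 2 ≤ ‖fderiv ℝ g x‖ ^ 2 := by
        intro x
        have h3 : HasFDerivAt (fun x => ε ^ 2 + g x ^ 2) ((2 * g x) • fderiv ℝ g x) x := by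
          have h4 := ((hg.differentiable one_ne_zero x).hasFDerivAt.pow 2).const_add (ε ^ 2)
          have h5 : (2 • g x ^ (2 - 1)) = 2 * g x := by
            norm_num
          rw [h5] at h4
          exact h4
        have h4 := h3.sqrt (hpos x).ne'
        have h5 : fderiv ℝ u x = (1 / (2 * √(ε ^ 2 + g x ^ 2))) • (2 * g x) • fderiv ℝ g x := by
          rw [hu]
          exact h4.fderiv
        have h6 : √(ε ^ 2 + g x ^ 2) = u x := by rw [hu]
        rw [h5, h6, smul_smul, norm_smul, mul_pow, Real.norm_eq_abs, sq_abs]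
        refine mul_le_of_le_one_left (sq_nonneg _) ?_
        have h7 : 1 / (2 * u x) * (2 * g x) = g x / u x := by
          have := (hu0 x).ne'
          field_simp
        rw [h7, div_pow, div_le_one (by have := hu0 x; positivity), hu2]
        nlinarith [sq_nonneg ε]
      have h3 := orth hCV hρ ho h1 hs hm u huc
      simp_rw [hu2] at h3
      rw [integral_add (ic _) iG2, integral_const, ← hG2] at h3
      simp only [Measure.real, h1, ENNReal.toReal_one, one_smul] at h3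
      have iu : Integrable u (mu ρ) := hbs.integrable huc.continuous
      have h4 : ∫ x, u x ∂(mu ρ) ≤ ε + m := by
        have h5 : ∫ x, u x ∂(mu ρ) ≤ ∫ x, (ε + |g x|) ∂(mu ρ) := by
          refine integral_mono iu ((ic ε).add im) fun x => ?_
          refine (le_abs_self _).trans (abs_le_of_sq_le_sq ?_ (by positivity))
          rw [hu2, ← sq_abs (g x)]
          nlinarith [abs_nonneg (g x)]
        rw [integral_add (ic _) im, integral_const] at h5
        simpa [Measure.real, h1] using h5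
      have h5 : 0 ≤ ∫ x, u x ∂(mu ρ) := integral_nonneg fun x => (hu0 x).le
      have h6 : (∫ x, u x ∂(mu ρ)) ^ 2 ≤ (ε + m) ^ 2 := pow_le_pow_left₀ h5 h4 2
      have h7 : ∫ x, ‖fderiv ℝ u x‖ ^ 2 ∂(mu ρ) ≤ D :=
        integral_mono (hbs.integrable ((huc.continuous_fderiv one_ne_zero).norm.pow 2)) iD hud
      have h8 : 18 * Real.exp 2 * s * ∫ x, ‖fderiv ℝ u x‖ ^ 2 ∂(mu ρ) ≤ 133.1 * s * D := by
        have h9 : 0 ≤ ∫ x, ‖fderiv ℝ u x‖ ^ 2 ∂(mu ρ) := integral_nonneg fun x => sq_nonneg _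
        exact mul_le_mul (mul_le_mul_of_nonneg_right hec hs.le) h7 h9 (by positivity)
      nlinarith
    have hc : Continuous fun ε : ℝ => G2 - m ^ 2 - 2 * ε * m := by fun_prop
    have h3 := (hc.tendsto 0).mono_left (nhdsWithin_le_nhds (s := Ioi (0 : ℝ)))
    simp only [mul_zero, zero_mul, sub_zero] at h3
    refine le_of_tendsto h3 ?_
    filter_upwards [self_mem_nhdsWithin] with ε hε
    exact h2 ε hε
  -- the mean of `|g|` near the hyperplane
  have hs0 : 0 < √s := Real.sqrt_pos.2 hs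
  have hss : √s ^ 2 = s := Real.sq_sqrt hs.le
  obtain ⟨χ, hχ⟩ : ∃ χ : Eu κ → ℝ, χ = fun x => if x i < 2 * √s then 1 else 0 := ⟨_, rfl⟩
  have hset : MeasurableSet {x : Eu κ | x i < 2 * √s} :=
    measurableSet_lt (by fun_prop) measurable_const
  have hχm : Measurable χ := by
    rw [hχ]
    exact Measurable.ite hset measurable_const measurable_const
  have hχ01 : ∀ x, χ x = 0 ∨ χ x = 1 := fun x => by
    rw [hχ]
    by_cases h : x i < 2 * √s
    · right
      simp [h]
    · left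
      simp [h]
  have hχb : ∀ x, |χ x| ≤ 1 := fun x => by
    rcases hχ01 x with h | h <;> rw [h] <;> simp
  have hdi := di κ ρ hρ ho i g hg hg0 (2 * √s) (by positivity)
  have hgχ : ∫ x, |g x| * (if x i < 2 * √s then 1 else 0) ∂(mu ρ) = ∫ x, |g x| * χ x ∂(mu ρ) := by
    rw [hχ]
  rw [hgχ] at hdi
  have iχ : Integrable χ (mu ρ) := (ic 1).mono' hχm.aestronglyMeasurable
    (Eventually.of_forall fun x => by rw [Real.norm_eq_abs]; exact hχb x)
  have igχ : Integrable (fun x => |g x| * χ x) (mu ρ) := by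
    refine im.mono' (hgc.abs.measurable.mul hχm).aestronglyMeasurable
      (Eventually.of_forall fun x => ?_)
    rw [Real.norm_eq_abs, abs_mul, abs_abs]
    exact mul_le_of_le_one_right (abs_nonneg _) (hχb x)
  -- Chebyshev
  have hP : 3 / 4 ≤ ∫ x, χ x ∂(mu ρ) := by
    have h2 : ∫ x, (1 - χ x) ∂(mu ρ) ≤ ∫ x, (4 * s)⁻¹ * x i ^ 2 ∂(mu ρ) := by
      refine integral_mono ((ic 1).sub iχ) ((hbs.integrable (by fun_prop)).const_mul _) fun x => ?_
      simp only [hχ]
      by_cases h : x i < 2 * √s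
      · rw [if_pos h, sub_self]
        positivity
      · rw [if_neg h, sub_zero]
        push Not at h
        have h3 : (2 * √s) ^ 2 ≤ x i ^ 2 := pow_le_pow_left₀ (by positivity) h 2
        rw [mul_pow, hss] at h3
        rw [inv_mul_eq_div, le_div_iff₀ (by positivity)]
        linarith
    rw [integral_sub (ic 1) iχ, integral_const, integral_const_mul] at h2
    simp only [Measure.real, h1, ENNReal.toReal_one, smul_eq_mul, mul_one] at h2
    have h3 := mul_le_mul_of_nonneg_left (hm i) (show (0 : ℝ) ≤ (4 * s)⁻¹ by positivity)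
    have h4 : (4 * s)⁻¹ * s = 1 / 4 := by
      field_simp
    linarith
  have cs : ∀ u : Eu κ → ℝ, Continuous u → (∀ x, 0 ≤ u x) →
      ∫ x, u x ∂(mu ρ) ≤ √(∫ x, u x ^ 2 ∂(mu ρ)) := by
    intro u hu hu0
    refine Real.le_sqrt_of_sq_le ?_
    have iu : Integrable u (mu ρ) := hbs.integrable hu
    have iu2 : Integrable (fun x => u x ^ 2) (mu ρ) := hbs.integrable (hu.pow 2)
    set c := ∫ x, u x ∂(mu ρ) with hc
    have h2 : 0 ≤ ∫ x, (u x - c) ^ 2 ∂(mu ρ) := integral_nonneg fun x => sq_nonneg _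
    have h3 : ∫ x, (u x - c) ^ 2 ∂(mu ρ) = (∫ x, u x ^ 2 ∂(mu ρ)) - c ^ 2 := by
      have e : ∀ x, (u x - c) ^ 2 = (u x ^ 2 - (2 * c) * u x) + c ^ 2 := fun x => by ring
      simp_rw [e]
      have i3 : Integrable (fun x => u x ^ 2 - 2 * c * u x) (mu ρ) := iu2.sub (iu.const_mul _)
      rw [integral_add i3 (ic _), integral_sub iu2 (iu.const_mul _), integral_const_mul, ← hc,
        integral_const]
      simp only [Measure.real, h1, ENNReal.toReal_one, one_smul]
      ring
    linarith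
  have hA : ∫ x, |g x| * χ x ∂(mu ρ) ≤ 2 * √(s * D) := by
    have h2 := cs (fun x => ‖fderiv ℝ g x‖) hdc fun x => norm_nonneg _
    rw [← hD] at h2
    calc _ ≤ _ := hdi
      _ ≤ 2 * √s * √D := mul_le_mul_of_nonneg_left h2 (by positivity)
      _ = _ := by
        rw [Real.sqrt_mul hs.le]
        ring
  have hB : m * (3 / 4) - √(133.1 * s * D) ≤ ∫ x, |g x| * χ x ∂(mu ρ) := by
    have h2 : ∫ x, |(|g x| - m)| ∂(mu ρ) ≤ √(133.1 * s * D) := by
      refine (cs (fun x => |(|g x| - m)|) (by fun_prop) fun x => abs_nonneg _).trans ?_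
      refine Real.sqrt_le_sqrt ?_
      have e : ∀ x, |(|g x| - m)| ^ 2 = (g x ^ 2 - (2 * m) * |g x|) + m ^ 2 := fun x => by
        rw [sq_abs]
        have := sq_abs (g x)
        linear_combination this
      simp_rw [e]
      have i3 : Integrable (fun x => g x ^ 2 - 2 * m * |g x|) (mu ρ) := iG2.sub (im.const_mul _)
      rw [integral_add i3 (ic _), integral_sub iG2 (im.const_mul _), integral_const_mul, ← hmd,
        ← hG2, integral_const]
      simp only [Measure.real, h1, ENNReal.toReal_one, one_smul]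
      linarith
    have i4 : Integrable (fun x => |(|g x| - m)|) (mu ρ) := hbs.integrable (by fun_prop)
    have h3 : ∫ x, (m * χ x - |(|g x| - m)|) ∂(mu ρ) ≤ ∫ x, |g x| * χ x ∂(mu ρ) := by
      refine integral_mono ((iχ.const_mul m).sub i4) igχ fun x => ?_
      have h5 := neg_abs_le (|g x| - m)
      have h6 := abs_nonneg (|g x| - m)
      rcases hχ01 x with h | h
      · simp only [h, mul_zero]
        linarith
      · simp only [h, mul_one]
        linarith
    rw [integral_sub (iχ.const_mul m) i4, integral_const_mul] at h3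
    have h7 := mul_le_mul_of_nonneg_left hP hm0
    linarith
  -- conclusion
  have hsD : 0 ≤ s * D := by positivity
  have hsq : √(133.1 * s * D) ≤ 11.54 * √(s * D) := by
    rw [mul_assoc, Real.sqrt_mul (by norm_num)]
    refine mul_le_mul_of_nonneg_right ?_ (Real.sqrt_nonneg _)
    rw [Real.sqrt_le_left (by norm_num)]
    norm_num
  have h9 : m ≤ 18.06 * √(s * D) := by linarith [Real.sqrt_nonneg (s * D)]
  have h10 : m ^ 2 ≤ 326.2 * (s * D) := by
    have h11 := pow_le_pow_left₀ hm0 h9 2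
    rw [mul_pow, Real.sq_sqrt hsD] at h11
    nlinarith
  nlinarith

/-- **the Poincare inequality for unconditional log-concave densities**, bounded support -/
theorem unc (hCV : S_CV) (hWA : S_WA) (hEV : S_EV) {ρ : Eu κ → ℝ} (hρ : LC ρ)
    (hsym : ∀ (S : Finset κ) (x : Eu κ), ρ (fl S x) = ρ x)
    (h1 : mu ρ univ = 1) {s : ℝ} (hs : 0 < s) (hm : ∀ i, ∫ x, x i ^ 2 ∂(mu ρ) ≤ s)
    (f : Eu κ → ℝ) (hf : ContDiff ℝ 1 f) :
    ∫ x, f x ^ 2 ∂(mu ρ) - (∫ x, f x ∂(mu ρ)) ^ 2 ≤
      460 * s * ∫ x, ‖fderiv ℝ f x‖ ^ 2 ∂(mu ρ) := by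
  obtain ⟨g, hgc, hgp, e1, e2, e3⟩ := hWA κ ρ hρ hsym f hf
  obtain ⟨ρ', hρ', ho, hint⟩ := hEV κ ρ hρ hsym
  have hbs' := Pool.Agent.KS6_97.Sch.bs_lc hρ'
  have h1' : mu ρ' univ = 1 := by
    have h2 := hint (fun _ => 1) continuous_const fun _ _ => rfl
    simp only [integral_const, smul_eq_mul, mul_one, Measure.real, h1, ENNReal.toReal_one] at h2
    have h3 := hρ'.fin
    rw [← ENNReal.ofReal_toReal h3, ← h2, ENNReal.ofReal_one]
  have hm' : ∀ i, ∫ x, x i ^ 2 ∂(mu ρ') ≤ s := by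
    intro i
    rw [← hint (fun x => x i ^ 2) (by fun_prop) fun S x => by
      simp only [fl_apply]
      split_ifs <;> ring]
    exact hm i
  have hsum : ∀ T, ∫ x, ‖fderiv ℝ (g T) x‖ ^ 2 ∂(mu ρ) = ∫ x, ‖fderiv ℝ (g T) x‖ ^ 2 ∂(mu ρ') :=
    fun T => hint (fun x => ‖fderiv ℝ (g T) x‖ ^ 2)
      (((hgc T).continuous_fderiv one_ne_zero).norm.pow 2) fun S x => by
        simp only [fd_even (hgc T) (hgp T) S x]
  have hsq : ∀ T, ∫ x, g T x ^ 2 ∂(mu ρ) = ∫ x, g T x ^ 2 ∂(mu ρ') :=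
    fun T => hint (fun x => g T x ^ 2) ((hgc T).continuous.pow 2) fun S x => by
        simp only [hgp T S x, mul_pow, ch_sq, one_mul]
  -- the parts
  have hT : ∀ T : Finset κ, T ≠ ∅ → ∫ x, g T x ^ 2 ∂(mu ρ) ≤
      460 * s * ∫ x, ‖fderiv ℝ (g T) x‖ ^ 2 ∂(mu ρ) := by
    intro T hTe
    obtain ⟨i, hi⟩ := Finset.nonempty_iff_ne_empty.2 hTe
    rw [hsum, hsq]
    refine odd_part hCV hρ' ho h1' hs hm' (hgc T) i fun x hx => ?_
    have h2 := hgp T {i} x
    have h3 : fl {i} x = x := by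
      ext j
      rw [fl_apply]
      by_cases hj : j = i
      · rw [hj, if_pos (Finset.mem_singleton_self i), hx, neg_zero]
      · rw [if_neg (fun h => hj (Finset.mem_singleton.1 h))]
    rw [h3, ch_single hi] at h2
    linarith
  have h0 : ∫ x, g ∅ x ^ 2 ∂(mu ρ) - (∫ x, g ∅ x ∂(mu ρ)) ^ 2 ≤
      460 * s * ∫ x, ‖fderiv ℝ (g ∅) x‖ ^ 2 ∂(mu ρ) := by
    rw [hsum, hsq, hint (g ∅) (hgc ∅).continuous fun S x => by
      rw [hgp ∅ S x, ch_empty, one_mul]]
    refine (orth hCV hρ' ho h1' hs hm' (g ∅) (hgc ∅)).trans ?_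
    refine mul_le_mul_of_nonneg_right (mul_le_mul_of_nonneg_right ?_ hs.le)
      (integral_nonneg fun x => sq_nonneg _)
    have h2 := Real.exp_one_lt_d9
    have h3 : Real.exp 2 = Real.exp 1 ^ 2 := by
      rw [← Real.exp_nat_mul]
      norm_num
    rw [h3]
    nlinarith [Real.exp_pos 1]
  rw [e1, e2, e3, ← Finset.add_sum_erase _ _ (Finset.mem_univ (∅ : Finset κ)),
    ← Finset.add_sum_erase Finset.univ (fun T => ∫ x, ‖fderiv ℝ (g T) x‖ ^ 2 ∂(mu ρ))
      (Finset.mem_univ (∅ : Finset κ)), mul_add, Finset.mul_sum]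
  have h2 := Finset.sum_le_sum fun (T : Finset κ) (hTm : T ∈ Finset.univ.erase ∅) =>
    hT T (Finset.ne_of_mem_erase hTm)
  linarith

end Pool.Agent.KS6_97.Unc
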