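import Pool.Agent.KS6_97.Unc.Defs
import Pool.Agent.KS6_97.Sch.Gen

/-!
# The Walsh decomposition (JOB WA, helper12)
-/

set_option autoImplicit false

namespace Pool.Agent.KS6_97.Unc

open MeasureTheory Set Filter Topology Finset
open scoped ENNReal InnerProductSpace ContDiff symmDiff
open Pool.Agent.H888R2.KT (LC)
open Pool.Agent.H212R2.KLS (mu Bdd)

namespace WAx

variable {κ : Type} [Fintype κ] [DecidableEq κ]

/-- the change of signs as a linear isometry -/
noncomputable def flE (S : Finset κ) : Eu κ ≃ₗᵢ[ℝ] Eu κ :=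
  LinearIsometryEquiv.piLpCongrRight 2 fun i =>
    if i ∈ S then LinearIsometryEquiv.neg ℝ else LinearIsometryEquiv.refl ℝ ℝ

theorem flE_apply (S : Finset κ) (x : Eu κ) : flE S x = fl S x := by
  ext i
  simp only [flE, fl, LinearIsometryEquiv.piLpCongrRight_apply]
  split_ifs <;> simp

omit [Fintype κ] in
theorem ch_mul (T S S' : Finset κ) : ch T S * ch T S' = ch T (S ∆ S') := by
  unfold ch
  rw [← Finset.prod_mul_distrib]
  refine Finset.prod_congr rfl fun i _ => ?_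
  by_cases h1 : i ∈ S <;> by_cases h2 : i ∈ S' <;> simp [Finset.mem_symmDiff, h1, h2]

theorem sum_ch (S : Finset κ) : ∑ T : Finset κ, ch T S =
    if S = ∅ then (2 : ℝ) ^ Fintype.card κ else 0 := by
  have h1 := Finset.prod_one_add (s := (Finset.univ : Finset κ))
    (f := fun i => if i ∈ S then (-1 : ℝ) else 1)
  rw [Finset.powerset_univ] at h1
  unfold ch
  rw [← h1]
  split_ifs with h
  · subst h
    simp
    norm_num
  · obtain ⟨i, hi⟩ := Finset.nonempty_iff_ne_empty.2 h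
    apply Finset.prod_eq_zero (Finset.mem_univ i)
    rw [if_pos hi]
    norm_num

theorem sum_ch_mul (S S' : Finset κ) : ∑ T : Finset κ, ch T S * ch T S' =
    if S = S' then (2 : ℝ) ^ Fintype.card κ else 0 := by
  simp_rw [ch_mul]
  rw [sum_ch]
  congr 1
  rw [← Finset.bot_eq_empty, symmDiff_eq_bot]

/-- Parseval's identity for the group of the changes of signs -/
theorem parseval {V : Type*} [NormedAddCommGroup V] [InnerProductSpace ℝ V] (a : Finset κ → V) :
    ∑ T : Finset κ, ‖((2 : ℝ) ^ Fintype.card κ)⁻¹ • ∑ S : Finset κ, ch T S • a S‖ ^ 2 =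
      ((2 : ℝ) ^ Fintype.card κ)⁻¹ * ∑ S : Finset κ, ‖a S‖ ^ 2 := by
  obtain ⟨N, hN⟩ : ∃ N, N = (2 : ℝ) ^ Fintype.card κ := ⟨_, rfl⟩
  have hN0 : N ≠ 0 := by rw [hN]; positivity
  rw [← hN]
  have h1 : ∀ T : Finset κ, ‖N⁻¹ • ∑ S : Finset κ, ch T S • a S‖ ^ 2 =
      (N⁻¹) ^ 2 * ∑ S : Finset κ, ∑ S' : Finset κ, (ch T S * ch T S') * ⟪a S, a S'⟫_ℝ := by
    intro T
    rw [norm_smul, mul_pow, Real.norm_eq_abs, sq_abs, ← real_inner_self_eq_norm_sq, sum_inner]
    congr 1
    refine Finset.sum_congr rfl fun S _ => ?_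
    rw [inner_sum]
    refine Finset.sum_congr rfl fun S' _ => ?_
    rw [real_inner_smul_left, real_inner_smul_right]
    ring
  simp_rw [h1]
  rw [← Finset.mul_sum, Finset.sum_comm]
  have h2 : ∀ S : Finset κ, ∑ T : Finset κ, ∑ S' : Finset κ, (ch T S * ch T S') * ⟪a S, a S'⟫_ℝ =
      N * ‖a S‖ ^ 2 := by
    intro S
    rw [Finset.sum_comm]
    simp_rw [← Finset.sum_mul, sum_ch_mul, ← hN]
    simp only [ite_mul, zero_mul, Finset.sum_ite_eq, Finset.mem_univ, if_true]
    rw [real_inner_self_eq_norm_sq]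
  simp_rw [h2]
  rw [← Finset.mul_sum]
  field_simp

theorem fl_fl (S S' : Finset κ) (x : Eu κ) : fl S (fl S' x) = fl (S ∆ S') x := by
  ext i
  simp only [fl, Finset.mem_symmDiff]
  by_cases h1 : i ∈ S <;> by_cases h2 : i ∈ S' <;> simp [h1, h2]

theorem fl_cont (S : Finset κ) : Continuous (fl S : Eu κ → Eu κ) := by
  have : (fl S : Eu κ → Eu κ) = flE S := funext fun x => (flE_apply S x).symm
  rw [this]
  exact (flE S).continuous

/-- invariance of the measure -/
theorem int_fl {ρ : Eu κ → ℝ} (hρ : LC ρ) (hfl : ∀ (S : Finset κ) (x : Eu κ), ρ (fl S x) = ρ x)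
    (S : Finset κ) (F : Eu κ → ℝ) : ∫ x, F (fl S x) ∂(mu ρ) = ∫ x, F x ∂(mu ρ) := by
  rw [Pool.Agent.H888R2.KT.N5ax.int_mu hρ, Pool.Agent.H888R2.KT.N5ax.int_mu hρ]
  have h1 := ((flE S).measurePreserving).integral_comp
    (flE S).toHomeomorph.measurableEmbedding (fun x => ρ x * F x)
  rw [← h1]
  refine integral_congr_ae (Eventually.of_forall fun x => ?_)
  simp only
  rw [flE_apply, hfl]

/-- the components -/
noncomputable def gg (f : Eu κ → ℝ) (T : Finset κ) (x : Eu κ) : ℝ :=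
  ((2 : ℝ) ^ Fintype.card κ)⁻¹ • ∑ S : Finset κ, ch T S • f (fl S x)

theorem gg_contDiff {f : Eu κ → ℝ} (hf : ContDiff ℝ 1 f) (T : Finset κ) :
    ContDiff ℝ 1 (gg f T) := by
  unfold gg
  refine ContDiff.const_smul _ (ContDiff.sum fun S _ => ContDiff.const_smul _ ?_)
  have h1 : (fun x : Eu κ => f (fl S x)) = f ∘ (flE S) := by
    funext x
    rw [Function.comp_apply, flE_apply]
  rw [h1]
  exact hf.comp (flE S).contDiff

theorem gg_fl (f : Eu κ → ℝ) (T S : Finset κ) (x : Eu κ) :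
    gg f T (fl S x) = ch T S * gg f T x := by
  unfold gg
  simp only [smul_eq_mul]
  rw [mul_left_comm]
  congr 1
  rw [Finset.mul_sum]
  simp_rw [fl_fl]
  have h1 : ∀ S' : Finset κ, ch T S * (ch T S' * f (fl S' x)) = ch T (S' ∆ S) * f (fl S' x) := by
    intro S'
    rw [← ch_mul]; ring
  simp_rw [h1]
  refine Finset.sum_nbij' (fun S' => S' ∆ S) (fun S' => S' ∆ S) (by simp) (by simp) ?_ ?_ ?_
  · intro a _; exact symmDiff_symmDiff_cancel_right S a
  · intro a _; exact symmDiff_symmDiff_cancel_right S a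
  · intro a _
    rw [symmDiff_symmDiff_cancel_right]

theorem fderiv_fl {f : Eu κ → ℝ} (hf : ContDiff ℝ 1 f) (S : Finset κ) (x : Eu κ) :
    HasFDerivAt (fun x : Eu κ => f (fl S x))
      ((fderiv ℝ f (fl S x)).comp ((flE S).toContinuousLinearEquiv : Eu κ →L[ℝ] Eu κ)) x := by
  have h1 : (fun x : Eu κ => f (fl S x)) = f ∘ (flE S) := by
    funext x
    rw [Function.comp_apply, flE_apply]
  rw [h1, ← flE_apply]
  have h2 : HasFDerivAt f (fderiv ℝ f (flE S x)) (flE S x) :=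
    ((hf.differentiable (by norm_num)) _).hasFDerivAt
  exact h2.comp x ((flE S).toContinuousLinearEquiv.hasFDerivAt)

theorem norm_comp_flE (L : Eu κ →L[ℝ] ℝ) (S : Finset κ) :
    ‖L.comp ((flE S).toContinuousLinearEquiv : Eu κ →L[ℝ] Eu κ)‖ = ‖L‖ := by
  exact ContinuousLinearMap.opNorm_comp_linearIsometryEquiv L (flE S)

/-- Parseval's identity in the dual -/
theorem parseval_dual (a : Finset κ → (Eu κ →L[ℝ] ℝ)) :
    ∑ T : Finset κ, ‖((2 : ℝ) ^ Fintype.card κ)⁻¹ • ∑ S : Finset κ, ch T S • a S‖ ^ 2 =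
      ((2 : ℝ) ^ Fintype.card κ)⁻¹ * ∑ S : Finset κ, ‖a S‖ ^ 2 := by
  have h := parseval (κ := κ) (V := Eu κ)
    (fun S => (InnerProductSpace.toDual ℝ (Eu κ)).symm (a S))
  have h2 : ∀ T : Finset κ, ((2 : ℝ) ^ Fintype.card κ)⁻¹ • ∑ S : Finset κ, ch T S •
      (InnerProductSpace.toDual ℝ (Eu κ)).symm (a S) =
      (InnerProductSpace.toDual ℝ (Eu κ)).symm
        (((2 : ℝ) ^ Fintype.card κ)⁻¹ • ∑ S : Finset κ, ch T S • a S) := by
    intro T
    rw [map_smulₛₗ, map_sum]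
    simp
  simp_rw [h2, LinearIsometryEquiv.norm_map] at h
  exact h

theorem gg_fderiv {f : Eu κ → ℝ} (hf : ContDiff ℝ 1 f) (T : Finset κ) (x : Eu κ) :
    fderiv ℝ (gg f T) x = ((2 : ℝ) ^ Fintype.card κ)⁻¹ • ∑ S : Finset κ, ch T S •
      ((fderiv ℝ f (fl S x)).comp ((flE S).toContinuousLinearEquiv : Eu κ →L[ℝ] Eu κ)) := by
  apply HasFDerivAt.fderiv
  have h : HasFDerivAt (fun x : Eu κ => ∑ S : Finset κ, ch T S • f (fl S x))
      (∑ S : Finset κ, ch T S •
        ((fderiv ℝ f (fl S x)).comp ((flE S).toContinuousLinearEquiv : Eu κ →L[ℝ] Eu κ))) x :=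
    HasFDerivAt.fun_sum fun S _ => (fderiv_fl hf S x).const_smul (ch T S)
  exact HasFDerivAt.const_smul (R := ℝ) h (((2 : ℝ) ^ Fintype.card κ)⁻¹)

end WAx

open WAx

theorem walsh : S_WA := by
  intro κ _ _ ρ hρ hfl f hf
  have hBS := Pool.Agent.KS6_97.Sch.bs_lc hρ
  obtain ⟨N, hN⟩ : ∃ N, N = (2 : ℝ) ^ Fintype.card κ := ⟨_, rfl⟩
  have hN0 : N ≠ 0 := by rw [hN]; positivity
  have hcard : ((Finset.univ : Finset (Finset κ)).card : ℝ) = N := by
    rw [Finset.card_univ, Fintype.card_finset, hN]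
    push_cast
    rfl
  have hgc := gg_contDiff hf
  have hfc : Continuous f := hf.continuous
  have hdc : Continuous (fun x => ‖fderiv ℝ f x‖ ^ 2) :=
    (hf.continuous_fderiv (by norm_num)).norm.pow 2
  refine ⟨gg f, hgc, fun T S x => gg_fl f T S x, ?_, ?_, ?_⟩
  · have h1 : ∀ x, gg f ∅ x = N⁻¹ * ∑ S : Finset κ, f (fl S x) := by
      intro x
      unfold gg
      rw [← hN, smul_eq_mul]
      congr 1
      refine Finset.sum_congr rfl fun S _ => ?_
      simp [ch]
    simp_rw [h1]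
    rw [integral_const_mul, integral_finsetSum _ (fun S _ =>
      hBS.integrable (F := fun x => f (fl S x)) (hfc.comp (fl_cont S)))]
    simp_rw [int_fl hρ hfl]
    rw [Finset.sum_const, nsmul_eq_mul, hcard]
    field_simp
  · have h1 : ∀ x, ∑ T : Finset κ, gg f T x ^ 2 = N⁻¹ * ∑ S : Finset κ, f (fl S x) ^ 2 := by
      intro x
      have := parseval (κ := κ) (V := ℝ) (fun S => f (fl S x))
      simp only [Real.norm_eq_abs, sq_abs] at this
      rw [← hN] at this
      rw [← this]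
      refine Finset.sum_congr rfl fun T _ => ?_
      unfold gg
      rw [← hN]
    rw [← integral_finsetSum _ (fun T _ => hBS.integrable (F := fun x => gg f T x ^ 2)
      ((hgc T).continuous.pow 2))]
    simp_rw [h1]
    rw [integral_const_mul, integral_finsetSum _ (fun S _ =>
      hBS.integrable (F := fun x => f (fl S x) ^ 2) ((hfc.comp (fl_cont S)).pow 2))]
    simp_rw [int_fl hρ hfl _ (fun x => f x ^ 2)]
    rw [Finset.sum_const, nsmul_eq_mul, hcard]
    field_simp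
  · have h1 : ∀ x, ∑ T : Finset κ, ‖fderiv ℝ (gg f T) x‖ ^ 2 =
        N⁻¹ * ∑ S : Finset κ, ‖fderiv ℝ f (fl S x)‖ ^ 2 := by
      intro x
      simp_rw [gg_fderiv hf]
      rw [parseval_dual, ← hN]
      simp_rw [norm_comp_flE]
    rw [← integral_finsetSum _ (fun T _ => hBS.integrable
      (F := fun x => ‖fderiv ℝ (gg f T) x‖ ^ 2) (((hgc T).continuous_fderiv (by norm_num)).norm.pow 2))]
    simp_rw [h1]
    rw [integral_const_mul, integral_finsetSum _ (fun S _ => hBS.integrable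
      (F := fun x => ‖fderiv ℝ f (fl S x)‖ ^ 2) (hdc.comp (fl_cont S)))]
    simp_rw [int_fl hρ hfl _ (fun x => ‖fderiv ℝ f x‖ ^ 2)]
    rw [Finset.sum_const, nsmul_eq_mul, hcard]
    field_simp

end Pool.Agent.KS6_97.Unc
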