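import Pool.Agent.KS6_97.Unc.TRU
import Pool.Agent.KS6_97.Unc.UN
import Pool.Agent.KS6_97.Unc.CV
import Pool.Agent.KS6_97.Unc.EV
import Pool.Agent.KS6_97.Unc.WA

/-!
# Unconditional log-concave densities, no bound on the support
-/

set_option autoImplicit false

namespace Pool.Agent.KS6_97.Unc

open MeasureTheory Set Filter Topology
open scoped ENNReal InnerProductSpace ContDiff
open Pool.Agent.H888R2.KT (LC)
open Pool.Agent.H212R2.KLS (mu Bdd)
open Pool.Agent.Q188.TS (Euc LCF Bl tr lc_tr int_tr mu_tr Bl_tendsto)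

theorem fl_norm {κ : Type} [Fintype κ] [DecidableEq κ] (S : Finset κ) (x : Eu κ) :
    ‖fl S x‖ = ‖x‖ := by
  rw [← flE_apply]
  exact (flE S).norm_map x

theorem fu {n : ℕ} {ρ : Euc n → ℝ} (hρ : LCF ρ)
    (hfl : ∀ (S : Finset (Fin n)) (x : Euc n), ρ (fl S x) = ρ x)
    (hPr : IsProbabilityMeasure (mu ρ))
    (hcoord : ∀ i, MemLp (fun x : Euc n => x i) 2 (mu ρ)) {s : ℝ} (hs : 0 < s)
    (hm : ∀ i, ∫ x, x i ^ 2 ∂(mu ρ) ≤ s)
    (f : Euc n → ℝ) (hf : ContDiff ℝ 1 f) (h2 : MemLp f 2 (mu ρ))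
    (h3 : Integrable (fun x => ‖fderiv ℝ f x‖ ^ 2) (mu ρ)) :
    ∫ x, f x ^ 2 ∂(mu ρ) - (∫ x, f x ∂(mu ρ)) ^ 2 ≤
      460 * s * ∫ x, ‖fderiv ℝ f x‖ ^ 2 ∂(mu ρ) := by
  refine trunc (fun ρ => ∀ (S : Finset (Fin n)) (x : Euc n), ρ (fl S x) = ρ x) ?_ ?_ hρ hfl hPr
    hcoord hs hm f hf h2 h3
  · intro ρ M N h hM S x
    unfold tr
    congr 1
    by_cases hx : x ∈ Bl n N
    · have hx' : fl S x ∈ Bl n N := by
        unfold Bl at hx ⊢
        rw [mem_closedBall_zero_iff] at hx ⊢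
        rw [fl_norm]
        exact hx
      rw [indicator_of_mem hx, indicator_of_mem hx', h S x]
    · have hx' : fl S x ∉ Bl n N := by
        unfold Bl at hx ⊢
        rw [mem_closedBall_zero_iff] at hx ⊢
        rw [fl_norm]
        exact hx
      rw [indicator_of_notMem hx, indicator_of_notMem hx']
  · intro ρ hL h hu s hs hm f hf
    exact unc cv walsh ev hL h hu hs hm f hf

end Pool.Agent.KS6_97.Unc
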