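import Pool.Agent.KS6_97.Sch.Full

/-!
# Truncation: from bounded support to all log-concave densities
-/

set_option autoImplicit false

namespace Pool.Agent.KS6_97.Unc

open MeasureTheory Set Filter Topology
open scoped ENNReal InnerProductSpace ContDiff
open Pool.Agent.H888R2.KT (LC)
open Pool.Agent.H212R2.KLS (mu Bdd)
open Pool.Agent.Q188.TS (Euc LCF Bl tr lc_tr int_tr mu_tr Bl_tendsto)

/-- a Poincare inequality for the densities of bounded support with the property `P` extends to all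
log-concave densities with the property `P` -/
theorem trunc {n : ℕ} {Cn : ℝ} (P : (Euc n → ℝ) → Prop)
    (hPt : ∀ (ρ : Euc n → ℝ) (M : ℝ) (N : ℕ), P ρ → 0 < M → P (tr ρ M N))
    (hmain : ∀ ρ : Euc n → ℝ, LC ρ → P ρ → mu ρ univ = 1 → ∀ s : ℝ, 0 < s →
      (∀ i, ∫ x, x i ^ 2 ∂(mu ρ) ≤ s) → ∀ f : Euc n → ℝ, ContDiff ℝ 1 f →
      ∫ x, f x ^ 2 ∂(mu ρ) - (∫ x, f x ∂(mu ρ)) ^ 2 ≤ Cn * s * ∫ x, ‖fderiv ℝ f x‖ ^ 2 ∂(mu ρ))
    {ρ : Euc n → ℝ} (hρ : LCF ρ) (hPρ : P ρ) (hPr : IsProbabilityMeasure (mu ρ))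
    (hcoord : ∀ i, MemLp (fun x : Euc n => x i) 2 (mu ρ)) {s : ℝ} (hs : 0 < s)
    (hm : ∀ i, ∫ x, x i ^ 2 ∂(mu ρ) ≤ s)
    (f : Euc n → ℝ) (hf : ContDiff ℝ 1 f) (h2 : MemLp f 2 (mu ρ))
    (h3 : Integrable (fun x => ‖fderiv ℝ f x‖ ^ 2) (mu ρ)) :
    ∫ x, f x ^ 2 ∂(mu ρ) - (∫ x, f x ∂(mu ρ)) ^ 2 ≤ Cn * s * ∫ x, ‖fderiv ℝ f x‖ ^ 2 ∂(mu ρ) := by
  have hf2 : Integrable (fun x => f x ^ 2) (mu ρ) := h2.integrable_sq
  have hf1 : Integrable f (mu ρ) := h2.integrable one_le_two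
  have t0 : Tendsto (fun N => ∫ x in Bl n N, (1 : ℝ) ∂(mu ρ)) atTop (𝓝 1) := by
    have := Bl_tendsto (mu ρ) (fun _ => (1 : ℝ)) (integrable_const _)
    simpa using this
  have t1 := Bl_tendsto (mu ρ) f hf1
  have t2 := Bl_tendsto (mu ρ) (fun x => f x ^ 2) hf2
  have t3 := Bl_tendsto (mu ρ) (fun x => ‖fderiv ℝ f x‖ ^ 2) h3
  have tc : ∀ i, Tendsto (fun N => ∫ x in Bl n N, x i ^ 2 ∂(mu ρ)) atTop
      (𝓝 (∫ x, x i ^ 2 ∂(mu ρ))) := fun i =>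
    Bl_tendsto (mu ρ) (fun x => x i ^ 2) (hcoord i).integrable_sq
  have t0i : Tendsto (fun N => (∫ x in Bl n N, (1 : ℝ) ∂(mu ρ))⁻¹) atTop (𝓝 1) := by
    have := t0.inv₀ one_ne_zero
    rwa [inv_one] at this
  have key : ∀ s' : ℝ, s < s' → ∫ x, f x ^ 2 ∂(mu ρ) - (∫ x, f x ∂(mu ρ)) ^ 2 ≤
      Cn * s' * ∫ x, ‖fderiv ℝ f x‖ ^ 2 ∂(mu ρ) := by
    intro s' hs'
    have L1 := (t0i.mul t2).sub ((t0i.mul t1).pow 2)
    have L2 := (t0i.mul t3).const_mul (Cn * s')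
    simp only [one_mul] at L1 L2
    have hev : ∀ᶠ N in atTop, (1 / 2 : ℝ) < ∫ x in Bl n N, (1 : ℝ) ∂(mu ρ) :=
      t0.eventually (lt_mem_nhds (by norm_num))
    have hev2 : ∀ᶠ N in atTop, ∀ i, (∫ x in Bl n N, (1 : ℝ) ∂(mu ρ))⁻¹ *
        (∫ x in Bl n N, x i ^ 2 ∂(mu ρ)) < s' := by
      rw [eventually_all]
      intro i
      have h := t0i.mul (tc i)
      rw [one_mul] at h
      exact h.eventually (gt_mem_nhds ((hm i).trans_lt hs'))
    refine le_of_tendsto_of_tendsto L1 L2 ?_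
    filter_upwards [hev, hev2] with N hN hN2
    set M := ∫ x in Bl n N, (1 : ℝ) ∂(mu ρ) with hM
    have hM0 : 0 < M := by linarith
    have hMm : M = (mu ρ (Bl n N)).toReal := by
      rw [hM]; simp [Measure.real]
    have hne : mu ρ (Bl n N) ≠ 0 := by
      intro h0
      rw [hMm, h0] at hM0
      simp at hM0
    have hL := lc_tr hρ (measure_ne_top _ _) hM0 N hne
    have hu : mu (tr ρ M N) univ = 1 := by
      rw [mu_tr hρ hM0, Measure.smul_apply, Measure.restrict_apply_univ, smul_eq_mul,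
        ENNReal.ofReal_inv_of_pos hM0, hMm, ENNReal.ofReal_toReal (measure_ne_top _ _)]
      exact ENNReal.inv_mul_cancel hne (measure_ne_top _ _)
    have hmN : ∀ i, ∫ x, x i ^ 2 ∂(mu (tr ρ M N)) ≤ s' := fun i => by
      rw [int_tr hρ hM0]
      exact (hN2 i).le
    have := hmain (tr ρ M N) hL (hPt ρ M N hPρ hM0) hu s' (hs.trans hs') hmN f hf
    rw [int_tr hρ hM0, int_tr hρ hM0, int_tr hρ hM0] at this
    exact this
  have hc : Continuous fun s' : ℝ => Cn * s' * ∫ x, ‖fderiv ℝ f x‖ ^ 2 ∂(mu ρ) := by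
    fun_prop
  refine ge_of_tendsto ((hc.tendsto s).mono_left (nhdsWithin_le_nhds (s := Ioi s))) ?_
  filter_upwards [self_mem_nhdsWithin] with s' hs'
  exact key s' hs'

end Pool.Agent.KS6_97.Unc
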