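import Pool.Agent.KS6_97.Unc.MVar
import Pool.Agent.KS6_97.Unc.TRU
import Pool.Agent.KS6_97.Unc.CV
import Pool.Agent.KS6_97.Unc.EV

/-!
# JOB ORT: the Poincare inequality on the orthant, no bound on the support (helper6)
-/

set_option autoImplicit false

namespace Pool.Agent.KS6_97.Unc

open MeasureTheory Set Filter Topology
open scoped ENNReal InnerProductSpace ContDiff
open Pool.Agent.H888R2.KT (LC)
open Pool.Agent.H212R2.KLS (mu Bdd)
open Pool.Agent.Q188.TS (Euc LCF Bl tr lc_tr int_tr mu_tr Bl_tendsto)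
open Pool.Agent.Q86.EM (bs)

variable {n : ℕ}

theorem tr_orth {ρ : Euc n → ℝ} (hn : ∀ x, 0 ≤ ρ x) (ho : Orth ρ) {M : ℝ} (hM : 0 < M) (N : ℕ) :
    Orth (tr ρ M N) := by
  have hM' : 0 < M⁻¹ := inv_pos.2 hM
  refine ⟨fun x hx => ?_, fun x y hx hxy => ?_⟩
  · unfold tr
    have h1 : (Bl n N).indicator ρ x = 0 := by
      by_cases h : x ∈ Bl n N
      · rw [indicator_of_mem h, ho.supp x hx]
      · rw [indicator_of_notMem h]
    rw [h1, mul_zero]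
  · unfold tr
    refine mul_le_mul_of_nonneg_left ?_ hM'.le
    by_cases hy : y ∈ Bl n N
    · have hx' : x ∈ Bl n N := by
        unfold Bl at hy ⊢
        rw [mem_closedBall_zero_iff] at hy ⊢
        refine le_trans ?_ hy
        rw [EuclideanSpace.norm_eq, EuclideanSpace.norm_eq]
        refine Real.sqrt_le_sqrt (Finset.sum_le_sum fun i _ => ?_)
        rw [Real.norm_of_nonneg (hx i), Real.norm_of_nonneg ((hx i).trans (hxy i))]
        exact pow_le_pow_left₀ (hx i) (hxy i) 2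
      rw [indicator_of_mem hy, indicator_of_mem hx']
      exact ho.anti x y hx hxy
    · rw [indicator_of_notMem hy]
      exact indicator_nonneg (fun x _ => hn x) x

/-- (a) all log-concave densities which are nonincreasing on the orthant -/
theorem orf {ρ : Euc n → ℝ} (hρ : LCF ρ) (ho : Orth ρ) (hPr : IsProbabilityMeasure (mu ρ))
    (hcoord : ∀ i, MemLp (fun x : Euc n => x i) 2 (mu ρ)) {s : ℝ} (hs : 0 < s)
    (hm : ∀ i, ∫ x, x i ^ 2 ∂(mu ρ) ≤ s)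
    (f : Euc n → ℝ) (hf : ContDiff ℝ 1 f) (h2 : MemLp f 2 (mu ρ))
    (h3 : Integrable (fun x => ‖fderiv ℝ f x‖ ^ 2) (mu ρ)) :
    ∫ x, f x ^ 2 ∂(mu ρ) - (∫ x, f x ∂(mu ρ)) ^ 2 ≤
      18 * Real.exp 2 * s * ∫ x, ‖fderiv ℝ f x‖ ^ 2 ∂(mu ρ) := by
  refine trunc (Cn := 18 * Real.exp 2) (fun ρ => (∀ x, 0 ≤ ρ x) ∧ Orth ρ) ?_ ?_ hρ ⟨hρ.nonneg, ho⟩ hPr
    hcoord hs hm f hf h2 h3
  · rintro ρ M N ⟨h0, h⟩ hM
    refine ⟨fun x => ?_, tr_orth h0 h hM N⟩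
    unfold tr
    exact mul_nonneg (inv_pos.2 hM).le (indicator_nonneg (fun x _ => h0 x) x)
  · rintro ρ hL ⟨-, h⟩ hu s hs hm f hf
    exact orth cv hL h hu hs hm f hf

/-- second moments are positive -/
theorem mom_pos {ρ : Euc n → ℝ} [IsProbabilityMeasure (mu ρ)]
    (hcoord : ∀ i, MemLp (fun x : Euc n => x i) 2 (mu ρ)) (i : Fin n) :
    0 < ∫ x, x i ^ 2 ∂(mu ρ) := by
  refine lt_of_le_of_ne (integral_nonneg fun x => sq_nonneg _) fun h => ?_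
  have h1 := (integral_eq_zero_iff_of_nonneg (fun x : Euc n => sq_nonneg (x i))
    (hcoord i).integrable_sq).1 h.symm
  have h2 : ∀ᵐ x ∂(mu ρ), ∀ i, x i ≠ 0 :=
    (withDensity_absolutelyContinuous _ _).ae_le (EV.ae_ne (κ := Fin n))
  have h3 : ∀ᵐ x ∂(mu ρ), False := by
    filter_upwards [h1, h2] with x hx1 hx2
    have : x i ^ 2 = 0 := hx1
    exact hx2 i (by simpa using this)
  rw [ae_iff] at h3
  simp only [not_false_eq_true, setOf_true, measure_univ, one_ne_zero] at h3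

/-- (b) anisotropic version -/
theorem orf_an {ρ : Euc n → ℝ} (hρ : LCF ρ) (ho : Orth ρ) (hPr : IsProbabilityMeasure (mu ρ))
    (hcoord : ∀ i, MemLp (fun x : Euc n => x i) 2 (mu ρ))
    (f : Euc n → ℝ) (hf : ContDiff ℝ 1 f) (h2 : MemLp f 2 (mu ρ))
    (h3 : Integrable (fun x => ‖fderiv ℝ f x‖ ^ 2) (mu ρ)) :
    ∫ x, f x ^ 2 ∂(mu ρ) - (∫ x, f x ∂(mu ρ)) ^ 2 ≤
      18 * Real.exp 2 * ∑ i, (∫ x, x i ^ 2 ∂(mu ρ)) * ∫ x, (fderiv ℝ f x (bs (Fin n) i)) ^ 2 ∂(mu ρ) := by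
  set L : Fin n → ℝ := fun i => √(∫ x, x i ^ 2 ∂(mu ρ)) with hLd
  have hL : ∀ i, 0 < L i := fun i => Real.sqrt_pos.2 (mom_pos hcoord i)
  have hL2 : ∀ i, L i ^ 2 = ∫ x, x i ^ 2 ∂(mu ρ) := fun i => Real.sq_sqrt (mom_pos hcoord i).le
  have hpr' : IsProbabilityMeasure (mu (dg ρ L)) := dg_prob hρ.meas hL
  have hcoord' : ∀ i, MemLp (fun y : Euc n => y i) 2 (mu (dg ρ L)) := by
    intro i
    have h4 := dg_memLp hρ.meas hL (F := fun x : Euc n => (L i)⁻¹ * x i) (by fun_prop)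
      ((hcoord i).const_mul _)
    refine h4.ae_eq (Eventually.of_forall fun y => ?_)
    simp only [dl_apply]
    rw [← mul_assoc, inv_mul_cancel₀ (hL i).ne', one_mul]
  have hmom : ∀ i, ∫ y, y i ^ 2 ∂(mu (dg ρ L)) ≤ 1 := by
    intro i
    rw [dg_mom hρ.meas hL, ← hL2, inv_mul_cancel₀ (pow_pos (hL i) 2).ne']
  have key := orf (dg_lcf hρ hL) (dg_orth ho hL) hpr' hcoord' one_pos hmom (fun y => f (dl L y))
    (dl_smooth hf L) (dg_memLp hρ.meas hL hf.continuous h2) (dg_dir_integrable hρ.meas hL hf h3)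
  rw [dg_int' hρ.meas hL (F := fun x => f x ^ 2) (hf.continuous.pow 2),
    dg_int' hρ.meas hL (F := f) hf.continuous, dg_dir hρ.meas hL hf h3, mul_one] at key
  simp_rw [hL2] at key
  exact key

/-- (c) with the variances of the coordinates -/
theorem orf_var {ρ : Euc n → ℝ} (hρ : LCF ρ) (ho : Orth ρ) (hPr : IsProbabilityMeasure (mu ρ))
    (hcoord : ∀ i, MemLp (fun x : Euc n => x i) 2 (mu ρ))
    (f : Euc n → ℝ) (hf : ContDiff ℝ 1 f) (h2 : MemLp f 2 (mu ρ))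
    (h3 : Integrable (fun x => ‖fderiv ℝ f x‖ ^ 2) (mu ρ)) :
    ∫ x, f x ^ 2 ∂(mu ρ) - (∫ x, f x ∂(mu ρ)) ^ 2 ≤
      72 * Real.exp 2 * ∑ i, ((∫ x, x i ^ 2 ∂(mu ρ)) - (∫ x, x i ∂(mu ρ)) ^ 2) *
        ∫ x, (fderiv ℝ f x (bs (Fin n) i)) ^ 2 ∂(mu ρ) := by
  refine (orf_an hρ ho hPr hcoord f hf h2 h3).trans ?_
  have h4 : ∑ i, (∫ x, x i ^ 2 ∂(mu ρ)) * ∫ x, (fderiv ℝ f x (bs (Fin n) i)) ^ 2 ∂(mu ρ) ≤
      4 * ∑ i, ((∫ x, x i ^ 2 ∂(mu ρ)) - (∫ x, x i ∂(mu ρ)) ^ 2) *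
        ∫ x, (fderiv ℝ f x (bs (Fin n) i)) ^ 2 ∂(mu ρ) := by
    rw [Finset.mul_sum]
    refine Finset.sum_le_sum fun i _ => ?_
    rw [← mul_assoc]
    exact mul_le_mul_of_nonneg_right (orth_var hρ.meas hρ.nonneg ho i (hcoord i))
      (integral_nonneg fun x => sq_nonneg _)
  have h5 := mul_le_mul_of_nonneg_left h4 (show 0 ≤ 18 * Real.exp 2 by positivity)
  linarith

end Pool.Agent.KS6_97.Unc
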