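import Pool.Agent.KS6_97.Unc.FU
import Pool.Agent.KS6_97.Unc.ORF

/-!
# Unconditional log-concave densities: moments and the anisotropic Poincare inequality
-/

set_option autoImplicit false

namespace Pool.Agent.KS6_97.Unc

open MeasureTheory Set Filter Topology
open scoped ENNReal InnerProductSpace ContDiff
open Pool.Agent.H212R2.KLS (mu Bdd)
open Pool.Agent.Q188.TS (Euc LCF)
open Pool.Agent.Q86.EM (bs)

variable {n : ℕ}

theorem int_flip {ρ : Euc n → ℝ} (hρ : LCF ρ)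
    (hfl : ∀ (S : Finset (Fin n)) (x : Euc n), ρ (fl S x) = ρ x) (S : Finset (Fin n))
    (F : Euc n → ℝ) : ∫ x, F (fl S x) ∂(mu ρ) = ∫ x, F x ∂(mu ρ) := by
  unfold mu
  rw [integral_withDensity_eq_integral_toReal_smul hρ.meas.ennreal_ofReal
      (Eventually.of_forall fun x => ENNReal.ofReal_lt_top),
    integral_withDensity_eq_integral_toReal_smul hρ.meas.ennreal_ofReal
      (Eventually.of_forall fun x => ENNReal.ofReal_lt_top)]
  have h1 := ((flE S).measurePreserving).integral_comp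
    (flE S).toHomeomorph.measurableEmbedding (fun x => (ENNReal.ofReal (ρ x)).toReal • F x)
  rw [← h1]
  refine integral_congr_ae (Eventually.of_forall fun x => ?_)
  simp only
  rw [flE_apply, hfl]

theorem mean_zero {ρ : Euc n → ℝ} (hρ : LCF ρ)
    (hfl : ∀ (S : Finset (Fin n)) (x : Euc n), ρ (fl S x) = ρ x) (i : Fin n) :
    ∫ x, x i ∂(mu ρ) = 0 := by
  have h := int_flip hρ hfl {i} (fun x => x i)
  simp only [fl_apply, Finset.mem_singleton, if_true] at h
  rw [integral_neg] at h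
  linarith

theorem corr_zero {ρ : Euc n → ℝ} (hρ : LCF ρ)
    (hfl : ∀ (S : Finset (Fin n)) (x : Euc n), ρ (fl S x) = ρ x) {i j : Fin n} (hij : i ≠ j) :
    ∫ x, x i * x j ∂(mu ρ) = 0 := by
  have h := int_flip hρ hfl {i} (fun x => x i * x j)
  simp only [fl_apply, Finset.mem_singleton, if_true, if_neg hij.symm] at h
  have e : ∫ x : Euc n, -x i * x j ∂(mu ρ) = -∫ x, x i * x j ∂(mu ρ) := by
    rw [← integral_neg]
    refine integral_congr_ae (Eventually.of_forall fun x => ?_)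
    simp only
    ring
  rw [e] at h
  linarith

/-- variances of linear functionals -/
theorem var_lin {ρ : Euc n → ℝ} (hρ : LCF ρ)
    (hfl : ∀ (S : Finset (Fin n)) (x : Euc n), ρ (fl S x) = ρ x)
    [IsProbabilityMeasure (mu ρ)]
    (hcoord : ∀ i, MemLp (fun x : Euc n => x i) 2 (mu ρ)) (w : Euc n) :
    ProbabilityTheory.variance (fun x : Euc n => ⟪x, w⟫_ℝ) (mu ρ) =
      ∑ i, w i ^ 2 * ∫ x, x i ^ 2 ∂(mu ρ) := by
  have e : ∀ x : Euc n, ⟪x, w⟫_ℝ = ∑ i, w i * x i := fun x => by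
    rw [PiLp.inner_apply]
    refine Finset.sum_congr rfl fun i _ => ?_
    simp
  have hL : MemLp (fun x : Euc n => ∑ i, w i * x i) 2 (mu ρ) :=
    memLp_finset_sum _ fun i _ => (hcoord i).const_mul (w i)
  simp_rw [e]
  rw [ProbabilityTheory.variance_eq_sub hL]
  have h1 : ∫ x : Euc n, ∑ i, w i * x i ∂(mu ρ) = 0 := by
    rw [integral_finsetSum _ fun i _ => ((hcoord i).integrable one_le_two).const_mul (w i)]
    refine Finset.sum_eq_zero fun i _ => ?_
    rw [integral_const_mul, mean_zero hρ hfl, mul_zero]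
  have h2 : ∀ i j, Integrable (fun x : Euc n => w i * x i * (w j * x j)) (mu ρ) := fun i j =>
    ((hcoord i).const_mul (w i)).integrable_mul ((hcoord j).const_mul (w j))
  have h3 : ∫ x : Euc n, ((fun x : Euc n => ∑ i, w i * x i) ^ 2) x ∂(mu ρ) =
      ∑ i, w i ^ 2 * ∫ x, x i ^ 2 ∂(mu ρ) := by
    have e2 : ∀ x : Euc n, ((fun x : Euc n => ∑ i, w i * x i) ^ 2) x =
        ∑ i, ∑ j, w i * x i * (w j * x j) := fun x => by
      show (∑ i, w i * x i) ^ 2 = _
      rw [pow_two, Finset.sum_mul_sum]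
    simp_rw [e2]
    rw [integral_finsetSum _ fun i _ => integrable_finsetSum _ fun j _ => h2 i j]
    refine Finset.sum_congr rfl fun i _ => ?_
    rw [integral_finsetSum _ fun j _ => h2 i j, Finset.sum_eq_single i]
    · rw [← integral_const_mul]
      refine integral_congr_ae (Eventually.of_forall fun x => ?_)
      simp only
      ring
    · intro j _ hj
      have e3 : ∀ x : Euc n, w i * x i * (w j * x j) = w i * w j * (x i * x j) := fun x => by ring
      simp_rw [e3]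
      rw [integral_const_mul, corr_zero hρ hfl (Ne.symm hj), mul_zero]
    · intro h
      exact absurd (Finset.mem_univ i) h
  rw [h3, h1]
  simp

/-- the anisotropic Poincare inequality -/
theorem fu_an {ρ : Euc n → ℝ} (hρ : LCF ρ)
    (hfl : ∀ (S : Finset (Fin n)) (x : Euc n), ρ (fl S x) = ρ x)
    (hPr : IsProbabilityMeasure (mu ρ))
    (hcoord : ∀ i, MemLp (fun x : Euc n => x i) 2 (mu ρ))
    (f : Euc n → ℝ) (hf : ContDiff ℝ 1 f) (h2 : MemLp f 2 (mu ρ))
    (h3 : Integrable (fun x => ‖fderiv ℝ f x‖ ^ 2) (mu ρ)) :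
    ∫ x, f x ^ 2 ∂(mu ρ) - (∫ x, f x ∂(mu ρ)) ^ 2 ≤
      460 * ∑ i, (∫ x, x i ^ 2 ∂(mu ρ)) * ∫ x, (fderiv ℝ f x (bs (Fin n) i)) ^ 2 ∂(mu ρ) := by
  set L : Fin n → ℝ := fun i => √(∫ x, x i ^ 2 ∂(mu ρ)) with hLd
  have hL : ∀ i, 0 < L i := fun i => Real.sqrt_pos.2 (mom_pos hcoord i)
  have hL2 : ∀ i, L i ^ 2 = ∫ x, x i ^ 2 ∂(mu ρ) := fun i => Real.sq_sqrt (mom_pos hcoord i).le
  have hpr' : IsProbabilityMeasure (mu (dg ρ L)) := dg_prob hρ.meas hL
  have hcoord' : ∀ i, MemLp (fun y : Euc n => y i) 2 (mu (dg ρ L)) := by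
    intro i
    have h4 := dg_memLp hρ.meas hL (F := fun x : Euc n => (L i)⁻¹ * x i) (by fun_prop)
      ((hcoord i).const_mul _)
    refine h4.ae_eq (Eventually.of_forall fun y => ?_)
    simp only [dl_apply]
    rw [← mul_assoc, inv_mul_cancel₀ (hL i).ne', one_mul]
  have hmom : ∀ i, ∫ y, y i ^ 2 ∂(mu (dg ρ L)) ≤ 1 := by
    intro i
    rw [dg_mom hρ.meas hL, ← hL2, inv_mul_cancel₀ (pow_pos (hL i) 2).ne']
  have key := fu (dg_lcf hρ hL) (dg_flip hfl L) hpr' hcoord' one_pos hmom (fun y => f (dl L y))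
    (dl_smooth hf L) (dg_memLp hρ.meas hL hf.continuous h2) (dg_dir_integrable hρ.meas hL hf h3)
  rw [dg_int' hρ.meas hL (F := fun x => f x ^ 2) (hf.continuous.pow 2),
    dg_int' hρ.meas hL (F := f) hf.continuous, dg_dir hρ.meas hL hf h3, mul_one] at key
  simp_rw [hL2] at key
  exact key

/-- the isotropic position: `mu ρ` is the image under a linear map of an unconditional log-concave
measure whose coordinates have second moment one -/
theorem iso_pos {ρ : Euc n → ℝ} (hρ : LCF ρ)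
    (hfl : ∀ (S : Finset (Fin n)) (x : Euc n), ρ (fl S x) = ρ x)
    (hPr : IsProbabilityMeasure (mu ρ))
    (hcoord : ∀ i, MemLp (fun x : Euc n => x i) 2 (mu ρ)) :
    ∃ (ρ' : Euc n → ℝ) (B : Euc n →L[ℝ] Euc n), LCF ρ' ∧
      (∀ (S : Finset (Fin n)) (x : Euc n), ρ' (fl S x) = ρ' x) ∧
      IsProbabilityMeasure (mu ρ') ∧ (∀ i, MemLp (fun x : Euc n => x i) 2 (mu ρ')) ∧
      (∀ i, ∫ x, x i ^ 2 ∂(mu ρ') = 1) ∧ mu ρ = (mu ρ').map B := by
  set L : Fin n → ℝ := fun i => √(∫ x, x i ^ 2 ∂(mu ρ)) with hLd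
  have hL : ∀ i, 0 < L i := fun i => Real.sqrt_pos.2 (mom_pos hcoord i)
  have hL2 : ∀ i, L i ^ 2 = ∫ x, x i ^ 2 ∂(mu ρ) := fun i => Real.sq_sqrt (mom_pos hcoord i).le
  refine ⟨dg ρ L, dlC L, dg_lcf hρ hL, dg_flip hfl L, dg_prob hρ.meas hL, ?_, ?_, ?_⟩
  · intro i
    have h4 := dg_memLp hρ.meas hL (F := fun x : Euc n => (L i)⁻¹ * x i) (by fun_prop)
      ((hcoord i).const_mul _)
    refine h4.ae_eq (Eventually.of_forall fun y => ?_)
    simp only [dl_apply]
    rw [← mul_assoc, inv_mul_cancel₀ (hL i).ne', one_mul]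
  · intro i
    rw [dg_mom hρ.meas hL, ← hL2, inv_mul_cancel₀ (pow_pos (hL i) 2).ne']
  · have e : (dlC L : Euc n → Euc n) = dl L := funext fun x => dlC_apply L x
    rw [e, dg_map hρ.meas hL, Measure.map_map (dl_meas _) (dl_meas _)]
    have e2 : dl L ∘ (dl fun i => (L i)⁻¹) = (id : Euc n → Euc n) := funext fun x => dl_inv hL x
    rw [e2, Measure.map_id]

end Pool.Agent.KS6_97.Unc
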