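import Pool.Agent.KS6_97.Unc.IC2a
import Pool.Agent.KS6_97.Sch.Gen

/-!
# The mean of the inverse curvature bounds the Poincare constant: log-concave densities of bounded
support times `exp (-W)`, `W` with positive definite Hessian (JOB IC, helper12)
-/

set_option autoImplicit false

namespace Pool.Agent.KS6_97.Unc

open MeasureTheory Set Filter Topology Matrix
open scoped ENNReal InnerProductSpace ContDiff
open Pool.Agent.H888R2.KT (LC pst gs zz gc)
open Pool.Agent.H212R2.KLS (mu Bdd)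
open Pool.Agent.Q86.FIB
open Pool.Agent.Q86.EM (SCv bs p_sci)
open Pool.Agent.Q31.EM.COL (fubz int_tendsto)
open Pool.Agent.Q190.EM (norm_fd hess_strong int_gr)
open Pool.Agent.KS6_97.Sch (PI wcs)

variable {κ : Type} [Fintype κ] [DecidableEq κ]

/-- the quadratic form of the inverse Hessian -/
noncomputable def iq (W : Eu κ → ℝ) (θ : κ → ℝ) (x : Eu κ) : ℝ := θ ⬝ᵥ ((hs W x)⁻¹ *ᵥ θ)

/-- compactly supported functions, strongly convex `W`, with a slightly larger constant -/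
theorem ic_core {ρ : Eu κ → ℝ} (hρ : LC ρ) {W : Eu κ → ℝ} (hW : ContDiff ℝ ∞ W) {a M M' : ℝ}
    (ha : 0 < a) (hSC : SCv W a) (hpd : ∀ x, (hs W x).PosDef) (hM0 : 0 ≤ M) (hMM : M < M')
    (hM : ∀ θ : κ → ℝ, ∫ x, iq W θ x * Real.exp (-W x) ∂(mu ρ) ≤
      M * (θ ⬝ᵥ θ) * ∫ x, Real.exp (-W x) ∂(mu ρ))
    (f : Eu κ → ℝ) (hf : ContDiff ℝ 1 f) (hfs : HasCompactSupport f) :
    (∫ x, Real.exp (-W x) ∂(mu ρ)) * (∫ x, f x ^ 2 * Real.exp (-W x) ∂(mu ρ)) -
      (∫ x, f x * Real.exp (-W x) ∂(mu ρ)) ^ 2 ≤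
      M' * (∫ x, Real.exp (-W x) ∂(mu ρ)) *
        ∫ x, ‖fderiv ℝ f x‖ ^ 2 * Real.exp (-W x) ∂(mu ρ) := by
  obtain ⟨w, hw⟩ : ∃ w : Eu κ → ℝ, w = fun x => Real.exp (-W x) := ⟨_, rfl⟩
  have hwx : ∀ x, Real.exp (-W x) = w x := fun x => by rw [hw]
  simp_rw [hwx] at hM ⊢
  have hgc : Continuous w := by rw [hw]; exact (hW.neg.exp).continuous
  have hwp : ∀ x, 0 < w x := fun x => by rw [hw]; exact Real.exp_pos _
  obtain ⟨b, hb⟩ := Pool.Agent.Q247.EM.lower ha hW.continuous hSC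
  obtain ⟨Bw, hBw⟩ : ∃ Bw, Bw = Real.exp b := ⟨_, rfl⟩
  have hBw0 : 0 < Bw := by rw [hBw]; exact Real.exp_pos _
  have hwle : ∀ x, w x ≤ Bw := fun x => by
    rw [hw, hBw]
    refine Real.exp_le_exp.2 ?_
    have := hb x
    have := norm_nonneg x
    linarith
  have hfc := hf.continuous
  have hdc : Continuous fun x => ‖fderiv ℝ f x‖ := (hf.continuous_fderiv (by norm_num)).norm
  obtain ⟨B1, hB1⟩ := hfs.exists_bound_of_continuous hfc
  obtain ⟨B2, hB2⟩ := (hfs.fderiv ℝ).exists_bound_of_continuous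
    (hf.continuous_fderiv (by norm_num))
  obtain ⟨B, hBB⟩ : ∃ B : ℝ, B = max B1 B2 := ⟨_, rfl⟩
  have hB : ∀ x, |f x| ≤ B := fun x => by
    rw [hBB]
    exact (by simpa using hB1 x : |f x| ≤ B1).trans (le_max_left _ _)
  have hB' : ∀ x, ‖fderiv ℝ f x‖ ≤ B := fun x => by
    rw [hBB]
    exact (hB2 x).trans (le_max_right _ _)
  have hB0 : 0 ≤ B := (abs_nonneg _).trans (hB 0)
  have hgab : ∀ x : Eu κ, |w x| ≤ Bw := fun x => by
    rw [abs_of_pos (hwp x)]
    exact hwle x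
  -- bounded functions
  have bF2 : ∀ x, |f x ^ 2 * w x| ≤ B ^ 2 * Bw := fun x => by
    rw [abs_mul, abs_pow]
    exact mul_le_mul (pow_le_pow_left₀ (abs_nonneg _) (hB x) 2) (hgab x) (abs_nonneg _)
      (by positivity)
  have bF1 : ∀ x, |f x * w x| ≤ B * Bw := fun x => by
    rw [abs_mul]
    exact mul_le_mul (hB x) (hgab x) (abs_nonneg _) hB0
  have bFd : ∀ x, |‖fderiv ℝ f x‖ ^ 2 * w x| ≤ B ^ 2 * Bw := fun x => by
    rw [abs_mul, abs_pow, abs_norm]
    exact mul_le_mul (pow_le_pow_left₀ (norm_nonneg _) (hB' x) 2) (hgab x) (abs_nonneg _)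
            (by positivity)
  have hHc : Continuous (hs W) := hs_cont hW
  have hHic : Continuous fun x => (hs W x)⁻¹ := ICx.inv_cont hHc hpd
  have hec : ∀ i j, Continuous fun x => (hs W x)⁻¹ i j := fun i j => hHic.matrix_elem i j
  have hqle : ∀ (x : Eu κ) (θ : κ → ℝ), iq W θ x ≤ a⁻¹ * (θ ⬝ᵥ θ) := fun x θ =>
    ICx.pd_inv_le (hpd x) ha (hs_lower hW hSC x) θ
  have hel : ∀ (x : Eu κ) i j, |(hs W x)⁻¹ i j| ≤ a⁻¹ := fun x i j =>
    ICx.entry_le (hpd x).inv (hqle x) i j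
  have bM : ∀ (i j : κ) (x : Eu κ), |(hs W x)⁻¹ i j * w x| ≤ a⁻¹ * Bw := fun i j x => by
    rw [abs_mul]
    exact mul_le_mul (hel x i j) (hgab x) (abs_nonneg _) (by positivity)
  -- limits
  have t0 := int_tendsto hρ (fun x => w x) hgc Bw hgab
  have t1 := int_tendsto hρ (fun x => f x * w x) (by fun_prop) _ bF1
  have t2 := int_tendsto hρ (fun x => f x ^ 2 * w x) (by fun_prop) _ bF2
  have t3 := int_tendsto hρ (fun x => ‖fderiv ℝ f x‖ ^ 2 * w x) (by fun_prop) _ bFd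
  have tm := fun i j : κ => int_tendsto hρ (fun x => (hs W x)⁻¹ i j * w x)
    ((hec i j).mul hgc) _ (bM i j)
  have hfin := Pool.Agent.H888R2.KT.N7x.fin_mu hρ
  have intb : ∀ (F : Eu κ → ℝ) (M : ℝ), Continuous F → (∀ x, |F x| ≤ M) → Integrable F (mu ρ) :=
    fun F M hF hM => (integrable_const M).mono' hF.aestronglyMeasurable
      (Eventually.of_forall fun x => by rw [Real.norm_eq_abs]; exact hM x)
  set c0 := ∫ x, w x ∂(mu ρ) with hc0
  have hc0p : 0 < c0 := by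
    have hne : mu ρ ≠ 0 := hρ.ne
    rw [hc0, integral_pos_iff_support_of_nonneg (fun x => (hwp x).le)
      (intb _ _ hgc hgab)]
    have : Function.support (fun x : Eu κ => w x) = univ := by
      ext x
      simp [(hwp x).ne']
    rw [this]
    exact Measure.measure_univ_pos.2 hne
  -- the matrices
  obtain ⟨A0, hA0⟩ : ∃ A0 : Matrix κ κ ℝ, ∀ i j, A0 i j = ∫ x, (hs W x)⁻¹ i j * w x ∂(mu ρ) :=
    ⟨Matrix.of fun i j => _, fun i j => rfl⟩
  have hquad0 : ∀ θ : κ → ℝ, θ ⬝ᵥ (A0 *ᵥ θ) ≤ M * c0 * (θ ⬝ᵥ θ) := by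
    intro θ
    have e : ∫ x, iq W θ x * w x ∂(mu ρ) = θ ⬝ᵥ (A0 *ᵥ θ) := by
      rw [ICx.quad_sum]
      have e1 : ∀ x, iq W θ x * w x = ∑ i, ∑ j, (θ i * θ j) * ((hs W x)⁻¹ i j * w x) := fun x => by
        unfold iq
        rw [ICx.quad_sum, Finset.sum_mul]
        refine Finset.sum_congr rfl fun i _ => ?_
        rw [Finset.sum_mul]
        exact Finset.sum_congr rfl fun j _ => by ring
      simp_rw [e1]
      have i1 : ∀ i j, Integrable (fun x => (θ i * θ j) * ((hs W x)⁻¹ i j * w x)) (mu ρ) :=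
        fun i j => (intb _ _ ((hec i j).mul hgc) (bM i j)).const_mul _
      rw [integral_finsetSum _ fun i _ => integrable_finsetSum _ fun j _ => i1 i j]
      refine Finset.sum_congr rfl fun i _ => ?_
      rw [integral_finsetSum _ fun j _ => i1 i j]
      refine Finset.sum_congr rfl fun j _ => ?_
      rw [integral_const_mul, hA0, mul_comm]
    rw [← e]
    refine (hM θ).trans (le_of_eq ?_)
    ring
  obtain ⟨δ, hδ⟩ : ∃ δ, δ = (M' - M) * c0 / (2 * (Fintype.card κ + 1)) := ⟨_, rfl⟩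
  have hMM0 : 0 < M' - M := by linarith
  have hδ0 : 0 < δ := by rw [hδ]; positivity
  have hδn : δ * Fintype.card κ ≤ (M' - M) * c0 / 2 := by
    rw [hδ, div_mul_eq_mul_div, div_le_div_iff₀ (by positivity) (by norm_num)]
    have : 0 ≤ (M' - M) * c0 := by positivity
    nlinarith
  have hev1 : ∀ᶠ h in 𝓝[>] (0 : ℝ), ∀ i j,
      |∫ x, gs h (fun x => (hs W x)⁻¹ i j * w x) x ∂(mu ρ) - A0 i j| < δ := by
    rw [eventually_all]
    intro i
    rw [eventually_all]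
    intro j
    have := (Metric.tendsto_nhds.1 (tm i j)) δ hδ0
    filter_upwards [this] with h hh
    rwa [Real.dist_eq, ← hA0 i j] at hh
  have hev2 : ∀ᶠ h in 𝓝[>] (0 : ℝ), (M + (M' - M) / 2) * c0 <
      M' * ∫ x, gs h (fun x => w x) x ∂(mu ρ) := by
    refine (t0.const_mul M').eventually_const_lt ?_
    exact mul_lt_mul_of_pos_right (by linarith) hc0p
  refine le_of_tendsto_of_tendsto ((t0.mul t2).sub (t1.pow 2))
    (((tendsto_const_nhds (x := M')).mul t0).mul t3) ?_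
  filter_upwards [self_mem_nhdsWithin, hev1, hev2] with h hh hevh1 hevh2
  have hh' : 0 < h := hh
  obtain ⟨z1, z2, z3⟩ := Pool.Agent.Q65.EM.smz κ ρ hρ h hh'
  obtain ⟨V, hV⟩ : ∃ V : Eu κ → ℝ, V = fun x => -Real.log (zz h ρ x) := ⟨_, rfl⟩
  have hVs : ContDiff ℝ ∞ V := by
    rw [hV]
    exact z2
  have hVc : ConvexOn ℝ univ V := by
    rw [hV]
    exact z3
  set U : Eu κ → ℝ := fun x => V x + W x with hU
  have hUs : ContDiff ℝ ∞ U := hVs.add hW
  have hUc : SCv U a := by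
    unfold SCv
    have e : (fun x : Eu κ => U x - a / 2 * ‖x‖ ^ 2) =
        V + fun x => W x - a / 2 * ‖x‖ ^ 2 := by
      funext x
      simp only [hU, Pi.add_apply]
      ring
    rw [e]
    exact hVc.add hSC
  have hexp : ∀ x, Real.exp (-U x) = w x * zz h ρ x := by
    intro x
    simp only [hU, hV, hw]
    rw [← Real.exp_log (z1 x), ← Real.exp_add, Real.exp_log (z1 x)]
    congr 1
    ring
  have hg := (Pool.Agent.H888R2.KT.gc_pos (κ := κ) h hh').1
  set G := gc κ h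
  have eF : ∀ (F : Eu κ → ℝ) (M : ℝ), Continuous F → (∀ x, |F x * w x| ≤ M) →
      ∫ x, F x * Real.exp (-U x) = G * ∫ x, gs h (fun x => F x * w x) x ∂(mu ρ) := by
    intro F M hF hM
    rw [← fubz hρ h hh' (fun x => F x * w x) (by fun_prop) M hM]
    refine integral_congr_ae (Eventually.of_forall fun x => ?_)
    simp only [hexp]
    ring
  have e0 : ∫ x, Real.exp (-U x) = G * ∫ x, gs h (fun x => w x) x ∂(mu ρ) := by
    rw [← fubz hρ h hh' (fun x => w x) hgc Bw hgab]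
    refine integral_congr_ae (Eventually.of_forall fun x => ?_)
    simp only [hexp]
  obtain ⟨hI, -⟩ := p_sci κ U a ha hUs hUc
  have iU : Integrable fun x => Real.exp (-U x) := by
    have := hI 0
    simpa using this
  have hUexpc : Continuous fun x => Real.exp (-U x) := (hUs.neg.exp).continuous
  have iE : ∀ i j, Integrable fun x => (hs W x)⁻¹ i j * Real.exp (-U x) := by
    intro i j
    refine (iU.const_mul a⁻¹).mono' ((hec i j).mul hUexpc).aestronglyMeasurable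
      (Eventually.of_forall fun x => ?_)
    rw [Real.norm_eq_abs, abs_mul, abs_of_pos (Real.exp_pos _)]
    exact mul_le_mul_of_nonneg_right (hel x i j) (Real.exp_nonneg _)
  have eq1 : ∀ (θ : κ → ℝ) (x : Eu κ), iq W θ x * Real.exp (-U x) =
      ∑ i, ∑ j, (θ i * θ j) * ((hs W x)⁻¹ i j * Real.exp (-U x)) := fun θ x => by
    unfold iq
    rw [ICx.quad_sum, Finset.sum_mul]
    refine Finset.sum_congr rfl fun i _ => ?_
    rw [Finset.sum_mul]
    exact Finset.sum_congr rfl fun j _ => by ring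
  have hIq : ∀ θ : κ → ℝ, Integrable fun x => iq W θ x * Real.exp (-U x) := by
    intro θ
    simp_rw [eq1]
    exact integrable_finsetSum _ fun i _ => integrable_finsetSum _ fun j _ =>
      (iE i j).const_mul _
  have hGM : GM U M' := by
    refine gm_gen hVs hVc hW hpd hIq (hM0.trans hMM.le) fun θ => ?_
    change ∫ x, iq W θ x * Real.exp (-U x) ≤ M' * (θ ⬝ᵥ θ) * ∫ x, Real.exp (-U x)
    obtain ⟨Ah, hAh⟩ : ∃ Ah : Matrix κ κ ℝ, ∀ i j, Ah i j =
        ∫ x, gs h (fun x => (hs W x)⁻¹ i j * w x) x ∂(mu ρ) :=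
      ⟨Matrix.of fun i j => _, fun i j => rfl⟩
    have e1 : ∫ x, iq W θ x * Real.exp (-U x) = G * (θ ⬝ᵥ (Ah *ᵥ θ)) := by
      rw [ICx.quad_sum]
      simp_rw [eq1]
      rw [integral_finsetSum _ fun i _ => integrable_finsetSum _ fun j _ =>
        (iE i j).const_mul _, Finset.mul_sum]
      refine Finset.sum_congr rfl fun i _ => ?_
      rw [integral_finsetSum _ fun j _ => (iE i j).const_mul _, Finset.mul_sum]
      refine Finset.sum_congr rfl fun j _ => ?_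
      rw [integral_const_mul, eF (fun x => (hs W x)⁻¹ i j) _ (hec i j) (bM i j), ← hAh i j]
      ring
    rw [e1, e0]
    have h1 : θ ⬝ᵥ (Ah *ᵥ θ) = θ ⬝ᵥ (A0 *ᵥ θ) + θ ⬝ᵥ ((Ah - A0) *ᵥ θ) := by
      rw [Matrix.sub_mulVec, dotProduct_sub]
      ring
    have h2 : |θ ⬝ᵥ ((Ah - A0) *ᵥ θ)| ≤ δ * Fintype.card κ * (θ ⬝ᵥ θ) := by
      refine ICx.quad_small (fun i j => ?_) θ
      rw [Matrix.sub_apply, hAh i j]
      exact (hevh1 i j).le
    have h3 := le_abs_self (θ ⬝ᵥ ((Ah - A0) *ᵥ θ))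
    have h4 : 0 ≤ θ ⬝ᵥ θ := Finset.sum_nonneg fun i _ => mul_self_nonneg _
    have h5 := hquad0 θ
    have h6 : θ ⬝ᵥ (Ah *ᵥ θ) ≤ M' * (∫ x, gs h (fun x => w x) x ∂(mu ρ)) * (θ ⬝ᵥ θ) := by
      have h7 : δ * Fintype.card κ * (θ ⬝ᵥ θ) ≤ (M' - M) * c0 / 2 * (θ ⬝ᵥ θ) :=
        mul_le_mul_of_nonneg_right hδn h4
      have h8 : (M + (M' - M) / 2) * c0 * (θ ⬝ᵥ θ) ≤
          M' * (∫ x, gs h (fun x => w x) x ∂(mu ρ)) * (θ ⬝ᵥ θ) :=
        mul_le_mul_of_nonneg_right hevh2.le h4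
      linarith
    have h9 := mul_le_mul_of_nonneg_left h6 hg.le
    linarith
  have hil := mi ha hUs hUc (hM0.trans hMM.le) hGM f hf hfs
  have e9 : ∀ x, ‖fderiv ℝ f x‖ ^ 2 = ∑ i, (pd (bs κ i) f x) ^ 2 := fun x => norm_fd _
  simp_rw [← e9] at hil
  rw [e0, eF (fun x => f x ^ 2) _ (by fun_prop) bF2, eF f _ hfc bF1,
    eF (fun x => ‖fderiv ℝ f x‖ ^ 2) _ (by fun_prop) bFd] at hil
  set I1 := ∫ x, gs h (fun x => w x) x ∂(mu ρ)
  set I2 := ∫ x, gs h (fun x => f x ^ 2 * w x) x ∂(mu ρ)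
  set I3 := ∫ x, gs h (fun x => f x * w x) x ∂(mu ρ)
  set I4 := ∫ x, gs h (fun x => ‖fderiv ℝ f x‖ ^ 2 * w x) x ∂(mu ρ)
  have q1 : G * I1 * (G * I2) - (G * I3) ^ 2 = G ^ 2 * (I1 * I2 - I3 ^ 2) := by ring
  have q2 : M' * (G * I1) * (G * I4) = G ^ 2 * (M' * I1 * I4) := by ring
  rw [q1, q2] at hil
  exact le_of_mul_le_mul_left hil (by positivity)

/-- all `C¹` functions, strongly convex `W` -/
theorem ic_a {ρ : Eu κ → ℝ} (hρ : LC ρ) {W : Eu κ → ℝ} (hW : ContDiff ℝ ∞ W) {a M : ℝ}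
    (ha : 0 < a) (hSC : SCv W a) (hpd : ∀ x, (hs W x).PosDef) (hM0 : 0 ≤ M)
    (hM : ∀ θ : κ → ℝ, ∫ x, iq W θ x * Real.exp (-W x) ∂(mu ρ) ≤
      M * (θ ⬝ᵥ θ) * ∫ x, Real.exp (-W x) ∂(mu ρ))
    (f : Eu κ → ℝ) (hf : ContDiff ℝ 1 f) :
    (∫ x, Real.exp (-W x) ∂(mu ρ)) * (∫ x, f x ^ 2 * Real.exp (-W x) ∂(mu ρ)) -
      (∫ x, f x * Real.exp (-W x) ∂(mu ρ)) ^ 2 ≤
      M * (∫ x, Real.exp (-W x) ∂(mu ρ)) *
        ∫ x, ‖fderiv ℝ f x‖ ^ 2 * Real.exp (-W x) ∂(mu ρ) := by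
  obtain ⟨R, hR0, hR⟩ := Pool.Agent.H888R2.KT.N3x.ae_bdd hρ
  let χ : ContDiffBump (0 : Eu κ) := ⟨R + 1, R + 2, by linarith, by linarith⟩
  set v : Eu κ → ℝ := fun x => χ x * f x with hv
  have hvd : ContDiff ℝ 1 v := by
    rw [hv]
    exact χ.contDiff.mul hf
  have hvs : HasCompactSupport v := χ.hasCompactSupport.mul_right
  have hone : ∀ x : Eu κ, ‖x‖ ≤ R → v =ᶠ[𝓝 x] f := by
    intro x hx
    have : ∀ᶠ y in 𝓝 x, ‖y‖ < R + 1 :=
      continuous_norm.continuousAt.eventually_lt continuousAt_const (by linarith)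
    filter_upwards [this] with y hy
    have h5 : χ y = 1 := χ.one_of_mem_closedBall (by
      rw [mem_closedBall_zero_iff]
      exact hy.le)
    simp only [hv, h5, one_mul]
  have i1 : ∫ x, v x ^ 2 * Real.exp (-W x) ∂(mu ρ) = ∫ x, f x ^ 2 * Real.exp (-W x) ∂(mu ρ) := by
    refine integral_congr_ae ?_
    filter_upwards [hR] with x hx
    rw [(hone x hx).eq_of_nhds]
  have i3 : ∫ x, v x * Real.exp (-W x) ∂(mu ρ) = ∫ x, f x * Real.exp (-W x) ∂(mu ρ) := by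
    refine integral_congr_ae ?_
    filter_upwards [hR] with x hx
    rw [(hone x hx).eq_of_nhds]
  have i5 : ∫ x, ‖fderiv ℝ v x‖ ^ 2 * Real.exp (-W x) ∂(mu ρ) =
      ∫ x, ‖fderiv ℝ f x‖ ^ 2 * Real.exp (-W x) ∂(mu ρ) := by
    refine integral_congr_ae ?_
    filter_upwards [hR] with x hx
    rw [(hone x hx).fderiv_eq]
  rw [← i1, ← i3, ← i5]
  have hc : Continuous (fun s' : ℝ => s' * (∫ x, Real.exp (-W x) ∂(mu ρ)) *
      ∫ x, ‖fderiv ℝ v x‖ ^ 2 * Real.exp (-W x) ∂(mu ρ)) := by fun_prop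
  have h3 := (hc.tendsto M).mono_left (nhdsWithin_le_nhds (s := Ioi M))
  refine ge_of_tendsto h3 ?_
  filter_upwards [self_mem_nhdsWithin] with s' hs'
  exact ic_core hρ hW ha hSC hpd hM0 hs' hM v hvd hvs

/-- **the mean of the inverse curvature**: log-concave densities of bounded support times
`exp (-W)` -/
theorem ic {ρ : Eu κ → ℝ} (hρ : LC ρ) {W : Eu κ → ℝ} (hW : ContDiff ℝ ∞ W) {M : ℝ}
    (hpd : ∀ x, (hs W x).PosDef) (hM0 : 0 ≤ M)
    (hM : ∀ θ : κ → ℝ, ∫ x, iq W θ x * Real.exp (-W x) ∂(mu ρ) ≤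
      M * (θ ⬝ᵥ θ) * ∫ x, Real.exp (-W x) ∂(mu ρ))
    (f : Eu κ → ℝ) (hf : ContDiff ℝ 1 f) :
    (∫ x, Real.exp (-W x) ∂(mu ρ)) * (∫ x, f x ^ 2 * Real.exp (-W x) ∂(mu ρ)) -
      (∫ x, f x * Real.exp (-W x) ∂(mu ρ)) ^ 2 ≤
      M * (∫ x, Real.exp (-W x) ∂(mu ρ)) *
        ∫ x, ‖fderiv ℝ f x‖ ^ 2 * Real.exp (-W x) ∂(mu ρ) := by
  have hbs := Pool.Agent.KS6_97.Sch.bs_lc hρ
  have hconv : ConvexOn ℝ univ W := convex_of_hs hW fun x v => ICx.pd_nonneg (hpd x) v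
  have hHc : Continuous (hs W) := hs_cont hW
  have hHic : Continuous fun x => (hs W x)⁻¹ := ICx.inv_cont hHc hpd
  have hqc : ∀ θ : κ → ℝ, Continuous (iq W θ) := fun θ =>
    continuous_const.dotProduct (hHic.matrix_mulVec continuous_const)
  have hWc : Continuous fun x => Real.exp (-W x) := (hW.neg.exp).continuous
  -- the weights with `a > 0`
  have hpw : ∀ (a : ℝ) (x : Eu κ), Real.exp (-Wp W a x) =
      Real.exp (-(a / 2 * ‖x‖ ^ 2)) * Real.exp (-W x) := fun a x => by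
    rw [← Real.exp_add]
    congr 1
    unfold Wp
    ring
  have hpa : ∀ (a : ℝ), 0 ≤ a → ∀ x : Eu κ, Real.exp (-Wp W a x) ≤ Real.exp (-W x) := by
    intro a ha x
    rw [hpw]
    refine mul_le_of_le_one_left (Real.exp_nonneg _) ?_
    rw [Real.exp_le_one_iff]
    have : 0 ≤ a / 2 * ‖x‖ ^ 2 := by positivity
    linarith
  have hWpc : ∀ a : ℝ, Continuous fun x => Real.exp (-Wp W a x) := fun a =>
    ((Wp_smooth hW a).neg.exp).continuous
  -- the integrals converge as `a → 0`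
  have key : ∀ F : Eu κ → ℝ, Continuous F →
      Tendsto (fun a : ℝ => ∫ x, F x * Real.exp (-Wp W a x) ∂(mu ρ)) (𝓝[>] 0)
        (𝓝 (∫ x, F x * Real.exp (-W x) ∂(mu ρ))) := by
    intro F hF
    refine tendsto_integral_filter_of_dominated_convergence
      (fun x => |F x| * Real.exp (-W x)) ?_ ?_ ?_ ?_
    · exact Eventually.of_forall fun a => (hF.mul (hWpc a)).aestronglyMeasurable
    · filter_upwards [self_mem_nhdsWithin] with a ha
      have ha' : (0 : ℝ) < a := ha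
      refine Eventually.of_forall fun x => ?_
      rw [norm_mul, Real.norm_eq_abs, Real.norm_eq_abs, abs_of_pos (Real.exp_pos _)]
      exact mul_le_mul_of_nonneg_left (hpa a ha'.le x) (abs_nonneg _)
    · exact hbs.integrable (F := fun x => |F x| * Real.exp (-W x)) (hF.abs.mul hWc)
    · refine Eventually.of_forall fun x => ?_
      have h1 : Continuous fun a : ℝ => F x * Real.exp (-Wp W a x) := by
        unfold Wp
        fun_prop
      have h2 := (h1.tendsto 0).mono_left (nhdsWithin_le_nhds (s := Ioi (0 : ℝ)))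
      simp only [Wp_zero] at h2
      exact h2
  have k0 := key (fun _ => 1) continuous_const
  simp only [one_mul] at k0
  have k1 := key f hf.continuous
  have k2 := key (fun x => f x ^ 2) (hf.continuous.pow 2)
  have k3 := key (fun x => ‖fderiv ℝ f x‖ ^ 2) ((hf.continuous_fderiv (by norm_num)).norm.pow 2)
  have hne : mu ρ ≠ 0 := hρ.ne
  have hW0 : 0 < ∫ x, Real.exp (-W x) ∂(mu ρ) := by
    rw [integral_pos_iff_support_of_nonneg (fun x => (Real.exp_pos _).le)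
      (hbs.integrable (F := fun x => Real.exp (-W x)) hWc)]
    have : Function.support (fun x : Eu κ => Real.exp (-W x)) = univ := by
      ext x
      simp [(Real.exp_pos _).ne']
    rw [this]
    exact Measure.measure_univ_pos.2 hne
  have main : ∀ M' : ℝ, M < M' →
      (∫ x, Real.exp (-W x) ∂(mu ρ)) * (∫ x, f x ^ 2 * Real.exp (-W x) ∂(mu ρ)) -
      (∫ x, f x * Real.exp (-W x) ∂(mu ρ)) ^ 2 ≤
      M' * (∫ x, Real.exp (-W x) ∂(mu ρ)) *
        ∫ x, ‖fderiv ℝ f x‖ ^ 2 * Real.exp (-W x) ∂(mu ρ) := by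
    intro M' hM'
    refine le_of_tendsto_of_tendsto ((k0.mul k2).sub (k1.pow 2))
      (((tendsto_const_nhds (x := M')).mul k0).mul k3) ?_
    have hev : ∀ᶠ a in 𝓝[>] (0 : ℝ), M * ∫ x, Real.exp (-W x) ∂(mu ρ) <
        M' * ∫ x, Real.exp (-Wp W a x) ∂(mu ρ) := by
      refine (k0.const_mul M').eventually_const_lt ?_
      exact mul_lt_mul_of_pos_right hM' hW0
    filter_upwards [self_mem_nhdsWithin, hev] with a ha hev
    have ha' : (0 : ℝ) < a := ha
    have hpd' : ∀ x, (hs (Wp W a) x).PosDef := fun x => by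
      rw [hs_Wp hW]
      exact pd_add_smul (hpd x) ha'.le
    refine ic_a hρ (Wp_smooth hW a) ha' (SCv_Wp hconv a) hpd' (hM0.trans hM'.le) (fun θ => ?_) f hf
    have h4 : 0 ≤ θ ⬝ᵥ θ := Finset.sum_nonneg fun i _ => mul_self_nonneg _
    have hHc' : Continuous fun x => (hs (Wp W a) x)⁻¹ :=
      ICx.inv_cont (hs_cont (Wp_smooth hW a)) hpd'
    calc ∫ x, iq (Wp W a) θ x * Real.exp (-Wp W a x) ∂(mu ρ) ≤
        ∫ x, iq W θ x * Real.exp (-W x) ∂(mu ρ) := by
          refine integral_mono (hbs.integrable (F := fun x => iq (Wp W a) θ x *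
            Real.exp (-Wp W a x)) ((continuous_const.dotProduct
              (hHc'.matrix_mulVec continuous_const)).mul (hWpc a)))
            (hbs.integrable (F := fun x => iq W θ x * Real.exp (-W x)) ((hqc θ).mul hWc))
            fun x => ?_
          refine mul_le_mul ?_ (hpa a ha'.le x) (Real.exp_nonneg _)
            (ICx.inv_nonneg' (hpd x) θ)
          refine ICx.pd_inv_mono (hpd x) (hpd' x) (fun v => ?_) θ
          rw [hs_Wp hW, quad_add]
          have : 0 ≤ v ⬝ᵥ v := Finset.sum_nonneg fun i _ => mul_self_nonneg _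
          have := mul_nonneg ha'.le this
          linarith
      _ ≤ M * (θ ⬝ᵥ θ) * ∫ x, Real.exp (-W x) ∂(mu ρ) := hM θ
      _ = (M * ∫ x, Real.exp (-W x) ∂(mu ρ)) * (θ ⬝ᵥ θ) := by ring
      _ ≤ (M' * ∫ x, Real.exp (-Wp W a x) ∂(mu ρ)) * (θ ⬝ᵥ θ) :=
          mul_le_mul_of_nonneg_right hev.le h4
      _ = _ := by ring
  have hc : Continuous (fun s' : ℝ => s' * (∫ x, Real.exp (-W x) ∂(mu ρ)) *
      ∫ x, ‖fderiv ℝ f x‖ ^ 2 * Real.exp (-W x) ∂(mu ρ)) := by fun_prop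
  have h3 := (hc.tendsto M).mono_left (nhdsWithin_le_nhds (s := Ioi M))
  refine ge_of_tendsto h3 ?_
  filter_upwards [self_mem_nhdsWithin] with s' hs'
  exact main s' hs'

end Pool.Agent.KS6_97.Unc
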