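import Mathlib

/-!
# Inverses of positive definite matrices (JOB IC, helper12)
-/

set_option autoImplicit false

namespace Pool.Agent.KS6_97.Unc.ICx

open Matrix

variable {κ : Type} [Fintype κ] [DecidableEq κ]

omit [DecidableEq κ] in
theorem pd_symm {H : Matrix κ κ ℝ} (hH : H.IsHermitian) (u v : κ → ℝ) :
    u ⬝ᵥ (H *ᵥ v) = v ⬝ᵥ (H *ᵥ u) := by
  have hT : Hᵀ = H := by
    have := hH.eq
    rwa [conjTranspose_eq_transpose_of_trivial] at this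
  rw [dotProduct_mulVec, ← mulVec_transpose, hT, dotProduct_comm]

omit [DecidableEq κ] in
theorem pd_nonneg {H : Matrix κ κ ℝ} (hH : H.PosDef) (v : κ → ℝ) : 0 ≤ v ⬝ᵥ (H *ᵥ v) := by
  rcases eq_or_ne v 0 with rfl | hv
  · simp
  · have := hH.dotProduct_mulVec_pos hv
    rw [star_trivial] at this
    exact this.le

omit [DecidableEq κ] in
theorem pd_pos {H : Matrix κ κ ℝ} (hH : H.PosDef) {v : κ → ℝ} (hv : v ≠ 0) :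
    0 < v ⬝ᵥ (H *ᵥ v) := by
  have := hH.dotProduct_mulVec_pos hv
  rwa [star_trivial] at this

theorem mul_inv_vec {H : Matrix κ κ ℝ} (hH : H.PosDef) (θ : κ → ℝ) :
    H *ᵥ (H⁻¹ *ᵥ θ) = θ := by
  rw [mulVec_mulVec, mul_nonsing_inv _ ((isUnit_iff_isUnit_det _).1 hH.isUnit), one_mulVec]

/-- Cauchy-Schwarz -/
theorem pd_cs {H : Matrix κ κ ℝ} (hH : H.PosDef) (θ v : κ → ℝ) :
    (θ ⬝ᵥ v) ^ 2 ≤ (θ ⬝ᵥ (H⁻¹ *ᵥ θ)) * (v ⬝ᵥ (H *ᵥ v)) := by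
  rcases eq_or_ne v 0 with rfl | hv
  · simp
  obtain ⟨u, hu⟩ : ∃ u, u = H⁻¹ *ᵥ θ := ⟨_, rfl⟩
  have hHu : H *ᵥ u = θ := by rw [hu]; exact mul_inv_vec hH θ
  rw [← hu]
  obtain ⟨A, hA⟩ : ∃ A, A = v ⬝ᵥ (H *ᵥ v) := ⟨_, rfl⟩
  have hA0 : 0 < A := by rw [hA]; exact pd_pos hH hv
  obtain ⟨t, ht⟩ : ∃ t, t = (θ ⬝ᵥ v) / A := ⟨_, rfl⟩
  have h1 := pd_nonneg hH (u - t • v)
  have h2 : (u - t • v) ⬝ᵥ (H *ᵥ (u - t • v)) = θ ⬝ᵥ u - 2 * t * (θ ⬝ᵥ v) + t ^ 2 * A := by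
    rw [mulVec_sub, mulVec_smul, hHu, sub_dotProduct, dotProduct_sub, dotProduct_sub,
      smul_dotProduct, smul_dotProduct, dotProduct_smul, dotProduct_smul,
      pd_symm hH.isHermitian u v, hHu, ← hA, dotProduct_comm u θ, dotProduct_comm v θ]
    simp only [smul_eq_mul]
    ring
  rw [h2] at h1
  rw [← hA]
  have h3 : t * A = θ ⬝ᵥ v := by rw [ht]; field_simp
  have h4 : θ ⬝ᵥ u - 2 * t * (θ ⬝ᵥ v) + t ^ 2 * A = θ ⬝ᵥ u - t * (θ ⬝ᵥ v) := by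
    rw [← h3]; ring
  rw [h4] at h1
  have h5 : t * (θ ⬝ᵥ v) * A = (θ ⬝ᵥ v) ^ 2 := by rw [← h3]; ring
  nlinarith

theorem inv_nonneg' {H : Matrix κ κ ℝ} (hH : H.PosDef) (θ : κ → ℝ) :
    0 ≤ θ ⬝ᵥ (H⁻¹ *ᵥ θ) := pd_nonneg hH.inv θ

theorem pd_inv_mono {H H' : Matrix κ κ ℝ} (hH : H.PosDef) (hH' : H'.PosDef)
    (hle : ∀ v : κ → ℝ, v ⬝ᵥ (H *ᵥ v) ≤ v ⬝ᵥ (H' *ᵥ v)) (θ : κ → ℝ) :
    θ ⬝ᵥ (H'⁻¹ *ᵥ θ) ≤ θ ⬝ᵥ (H⁻¹ *ᵥ θ) := by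
  obtain ⟨v, hv⟩ : ∃ v, v = H'⁻¹ *ᵥ θ := ⟨_, rfl⟩
  have hHv : H' *ᵥ v = θ := by rw [hv]; exact mul_inv_vec hH' θ
  rw [← hv]
  have h1 := pd_cs hH θ v
  have h2 : v ⬝ᵥ (H' *ᵥ v) = θ ⬝ᵥ v := by rw [hHv, dotProduct_comm]
  have h3 := hle v
  rw [h2] at h3
  have h4 := inv_nonneg' hH θ
  rcases le_or_gt (θ ⬝ᵥ v) 0 with h5 | h5
  · linarith
  · have h6 : (θ ⬝ᵥ v) ^ 2 ≤ (θ ⬝ᵥ (H⁻¹ *ᵥ θ)) * (θ ⬝ᵥ v) :=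
      h1.trans (mul_le_mul_of_nonneg_left h3 h4)
    rw [pow_two] at h6
    exact le_of_mul_le_mul_right h6 h5

theorem pd_inv_le {H : Matrix κ κ ℝ} (hH : H.PosDef) {a : ℝ} (ha : 0 < a)
    (hHa : ∀ v : κ → ℝ, a * (v ⬝ᵥ v) ≤ v ⬝ᵥ (H *ᵥ v)) (θ : κ → ℝ) :
    θ ⬝ᵥ (H⁻¹ *ᵥ θ) ≤ a⁻¹ * (θ ⬝ᵥ θ) := by
  obtain ⟨v, hv⟩ : ∃ v, v = H⁻¹ *ᵥ θ := ⟨_, rfl⟩
  have hHv : H *ᵥ v = θ := by rw [hv]; exact mul_inv_vec hH θ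
  rw [← hv]
  have h2 : v ⬝ᵥ (H *ᵥ v) = θ ⬝ᵥ v := by rw [hHv, dotProduct_comm]
  have h3 := hHa v
  rw [h2] at h3
  have h4 : (θ ⬝ᵥ v) ^ 2 ≤ (θ ⬝ᵥ θ) * (v ⬝ᵥ v) := by
    have := Finset.sum_mul_sq_le_sq_mul_sq Finset.univ θ v
    simpa [dotProduct, pow_two] using this
  have h5 : 0 ≤ θ ⬝ᵥ θ := Finset.sum_nonneg fun i _ => mul_self_nonneg _
  have h6 : 0 ≤ v ⬝ᵥ v := Finset.sum_nonneg fun i _ => mul_self_nonneg _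
  rcases le_or_gt (θ ⬝ᵥ v) 0 with h7 | h7
  · have : 0 ≤ a⁻¹ * (θ ⬝ᵥ θ) := by positivity
    linarith
  · rw [inv_mul_eq_div, le_div_iff₀ ha]
    have h8 : a * (θ ⬝ᵥ v) ^ 2 ≤ (θ ⬝ᵥ θ) * (θ ⬝ᵥ v) := by
      calc a * (θ ⬝ᵥ v) ^ 2 ≤ a * ((θ ⬝ᵥ θ) * (v ⬝ᵥ v)) := mul_le_mul_of_nonneg_left h4 ha.le
        _ = (θ ⬝ᵥ θ) * (a * (v ⬝ᵥ v)) := by ring
        _ ≤ _ := mul_le_mul_of_nonneg_left h3 h5
    have h9 : ((θ ⬝ᵥ v) * a) * (θ ⬝ᵥ v) ≤ (θ ⬝ᵥ θ) * (θ ⬝ᵥ v) := by linarith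
    exact le_of_mul_le_mul_right h9 h7

theorem dot_single (i : κ) : (Pi.single i (1:ℝ) : κ → ℝ) ⬝ᵥ (Pi.single i 1 : κ → ℝ) = 1 := by
  simp


omit [DecidableEq κ] in
theorem quad_sum (S : Matrix κ κ ℝ) (θ : κ → ℝ) :
    θ ⬝ᵥ (S *ᵥ θ) = ∑ i, ∑ j, S i j * (θ i * θ j) := by
  simp only [dotProduct, mulVec, Finset.mul_sum]
  refine Finset.sum_congr rfl fun i _ => Finset.sum_congr rfl fun j _ => by ring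

/-- the entries of a nonnegative matrix with bounded diagonal -/
theorem entry_le {S : Matrix κ κ ℝ} (hS : S.PosDef) {c : ℝ}
    (hc : ∀ θ : κ → ℝ, θ ⬝ᵥ (S *ᵥ θ) ≤ c * (θ ⬝ᵥ θ)) (i j : κ) : |S i j| ≤ c := by
  have e : ∀ u v : κ → ℝ, (u + v) ⬝ᵥ (S *ᵥ (u + v)) =
      u ⬝ᵥ (S *ᵥ u) + v ⬝ᵥ (S *ᵥ v) + 2 * (u ⬝ᵥ (S *ᵥ v)) := by
    intro u v
    rw [mulVec_add, add_dotProduct, dotProduct_add, dotProduct_add, pd_symm hS.isHermitian v u]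
    ring
  have hij : (Pi.single i (1:ℝ) : κ → ℝ) ⬝ᵥ (S *ᵥ (Pi.single j 1 : κ → ℝ)) = S i j := by
    simp
  have h1 := pd_nonneg hS ((Pi.single i (1:ℝ) : κ → ℝ) + (Pi.single j 1 : κ → ℝ))
  have h2 := pd_nonneg hS ((Pi.single i (1:ℝ) : κ → ℝ) + (-(Pi.single j 1 : κ → ℝ)))
  rw [e] at h1 h2
  rw [hij] at h1
  have hij2 : (Pi.single i (1:ℝ) : κ → ℝ) ⬝ᵥ (S *ᵥ (-(Pi.single j 1 : κ → ℝ))) = -S i j := by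
    rw [mulVec_neg, dotProduct_neg, hij]
  have hjj : (-(Pi.single j (1:ℝ) : κ → ℝ)) ⬝ᵥ (S *ᵥ (-(Pi.single j 1 : κ → ℝ))) =
      (Pi.single j (1:ℝ) : κ → ℝ) ⬝ᵥ (S *ᵥ ((Pi.single j 1 : κ → ℝ))) := by
    rw [mulVec_neg, dotProduct_neg, neg_dotProduct, neg_neg]
  rw [hij2, hjj] at h2
  have h3 := hc (Pi.single i (1:ℝ) : κ → ℝ)
  have h4 := hc (Pi.single j (1:ℝ) : κ → ℝ)
  rw [dot_single, mul_one] at h3 h4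
  rw [abs_le]
  constructor <;> linarith

/-- continuity of the inverse -/
theorem inv_cont {X : Type*} [TopologicalSpace X] {A : X → Matrix κ κ ℝ} (hA : Continuous A)
    (h : ∀ x, (A x).PosDef) : Continuous fun x => (A x)⁻¹ := by
  have h1 : (fun x => (A x)⁻¹) = fun x => ((A x).det)⁻¹ • (A x).adjugate := by
    funext x
    rw [Matrix.inv_def, Ring.inverse_eq_inv']
  rw [h1]
  exact (hA.matrix_det.inv₀ fun x => (h x).det_pos.ne').smul hA.matrix_adjugate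

/-- a quadratic form with small entries -/
theorem quad_small {S : Matrix κ κ ℝ} {δ : ℝ} (hδ : ∀ i j, |S i j| ≤ δ) (θ : κ → ℝ) :
    |θ ⬝ᵥ (S *ᵥ θ)| ≤ δ * Fintype.card κ * (θ ⬝ᵥ θ) := by
  rw [quad_sum]
  have h1 : |∑ i, ∑ j, S i j * (θ i * θ j)| ≤ ∑ i, ∑ j, δ * (|θ i| * |θ j|) := by
    refine (Finset.abs_sum_le_sum_abs _ _).trans (Finset.sum_le_sum fun i _ => ?_)
    refine (Finset.abs_sum_le_sum_abs _ _).trans (Finset.sum_le_sum fun j _ => ?_)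
    rw [abs_mul, abs_mul]
    exact mul_le_mul_of_nonneg_right (hδ i j) (by positivity)
  refine h1.trans ?_
  have h2 : ∑ i, ∑ j, δ * (|θ i| * |θ j|) = δ * (∑ i, |θ i|) ^ 2 := by
    rw [pow_two, Finset.sum_mul_sum, Finset.mul_sum]
    simp_rw [Finset.mul_sum]
  rw [h2]
  rcases isEmpty_or_nonempty κ with hκ | ⟨⟨i0⟩⟩
  · simp
  have hδ0 : 0 ≤ δ := (abs_nonneg _).trans (hδ i0 i0)
  have h3 : (∑ i, |θ i|) ^ 2 ≤ Fintype.card κ * (θ ⬝ᵥ θ) := by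
    have h4 := Finset.sum_mul_sq_le_sq_mul_sq Finset.univ (fun _ : κ => (1:ℝ)) (fun i => |θ i|)
    simp only [one_mul, one_pow, Finset.sum_const, Finset.card_univ, nsmul_eq_mul, mul_one,
      sq_abs] at h4
    simpa [dotProduct, pow_two] using h4
  calc δ * (∑ i, |θ i|) ^ 2 ≤ δ * (Fintype.card κ * (θ ⬝ᵥ θ)) :=
        mul_le_mul_of_nonneg_left h3 hδ0
    _ = _ := by ring

end Pool.Agent.KS6_97.Unc.ICx
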