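import Pool.Agent.KS6_97.Unc.MI
import Pool.Agent.KS6_97.Unc.IC0
import Pool.Agent.KS6_97.Unc.Defs

/-!
# The mean of the inverse curvature, general potentials: the hypothesis `GM` (JOB IC, helper12)
-/

set_option autoImplicit false

namespace Pool.Agent.KS6_97.Unc

open MeasureTheory Set Filter Topology Matrix
open scoped ENNReal InnerProductSpace ContDiff
open Pool.Agent.Q86.FIB
open Pool.Agent.Q86.EM (SCv bs p_sci)
open Pool.Agent.Q190.EM (norm_fd hess_strong int_gr)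
open Pool.Agent.KS6_97.Sch (PI wcs)

variable {κ : Type} [Fintype κ] [DecidableEq κ]

/-- the Hessian matrix -/
noncomputable def hs (W : Eu κ → ℝ) (x : Eu κ) : Matrix κ κ ℝ :=
  Matrix.of fun i j => pd (bs κ i) (pd (bs κ j) W) x

theorem hs_cont {W : Eu κ → ℝ} (hW : ContDiff ℝ ∞ W) : Continuous (hs W) := by
  refine continuous_matrix fun i j => ?_
  exact (pd_smooth (pd_smooth hW _) _).continuous

/-- the gradient as a vector -/
noncomputable def gr (Φ : Eu κ → ℝ) (x : Eu κ) : κ → ℝ := fun i => pd (bs κ i) Φ x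

theorem hs_quad (W : Eu κ → ℝ) (x : Eu κ) (v : κ → ℝ) :
    v ⬝ᵥ (hs W x *ᵥ v) = ∑ i, ∑ j, pd (bs κ i) (pd (bs κ j) W) x * v j * v i := by
  rw [ICx.quad_sum]
  refine Finset.sum_congr rfl fun i _ => Finset.sum_congr rfl fun j _ => ?_
  simp only [hs, Matrix.of_apply]
  ring

/-- the potential `V + W` satisfies the hypothesis of the mean curvature inequality -/
theorem gm_gen {V W : Eu κ → ℝ} {M : ℝ} (hV : ContDiff ℝ ∞ V) (hc : ConvexOn ℝ univ V)
    (hW : ContDiff ℝ ∞ W) (hpd : ∀ x, (hs W x).PosDef)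
    (hI : ∀ θ : κ → ℝ, Integrable fun x => (θ ⬝ᵥ ((hs W x)⁻¹ *ᵥ θ)) * Real.exp (-(V x + W x)))
    (hM0 : 0 ≤ M)
    (hM : ∀ θ : κ → ℝ, ∫ x, (θ ⬝ᵥ ((hs W x)⁻¹ *ᵥ θ)) * Real.exp (-(V x + W x)) ≤
      M * (θ ⬝ᵥ θ) * ∫ x, Real.exp (-(V x + W x))) :
    GM (fun x => V x + W x) M := by
  intro Φ hΦ hs'
  set U : Eu κ → ℝ := fun x => V x + W x with hU
  have hUs : ContDiff ℝ ∞ U := hV.add hW
  have hw : Continuous (fun x => Real.exp (-U x)) := (hUs.neg.exp).continuous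
  set Z := ∫ x, Real.exp (-U x) with hZ
  have hZ0 : 0 ≤ Z := integral_nonneg fun x => Real.exp_nonneg _
  obtain ⟨θ, hθ⟩ : ∃ θ : κ → ℝ, ∀ i, θ i = ∫ x, pd (bs κ i) Φ x * Real.exp (-U x) :=
    ⟨_, fun i => rfl⟩
  simp_rw [← hθ]
  have hpdc : ∀ i, Continuous (pd (bs κ i) Φ) := fun i => (pd_smooth hΦ _).continuous
  have hgrc : Continuous (gr Φ) := continuous_pi hpdc
  have hHc : Continuous (hs W) := hs_cont hW
  have hHic : Continuous fun x => (hs W x)⁻¹ := ICx.inv_cont hHc hpd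
  -- the two functions
  obtain ⟨f, hf⟩ : ∃ f : Eu κ → ℝ, f = fun x => √(θ ⬝ᵥ ((hs W x)⁻¹ *ᵥ θ)) := ⟨_, rfl⟩
  obtain ⟨g, hg⟩ : ∃ g : Eu κ → ℝ, g = fun x => √(gr Φ x ⬝ᵥ (hs W x *ᵥ gr Φ x)) := ⟨_, rfl⟩
  have hf2 : ∀ x, f x ^ 2 = θ ⬝ᵥ ((hs W x)⁻¹ *ᵥ θ) := fun x => by
    rw [hf]
    exact Real.sq_sqrt (ICx.inv_nonneg' (hpd x) θ)
  have hg2 : ∀ x, g x ^ 2 = gr Φ x ⬝ᵥ (hs W x *ᵥ gr Φ x) := fun x => by
    rw [hg]
    exact Real.sq_sqrt (ICx.pd_nonneg (hpd x) _)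
  have hf0 : ∀ x, 0 ≤ f x := fun x => by rw [hf]; exact Real.sqrt_nonneg _
  have hg0 : ∀ x, 0 ≤ g x := fun x => by rw [hg]; exact Real.sqrt_nonneg _
  have hfc : Continuous f := by
    rw [hf]
    exact (continuous_const.dotProduct (hHic.matrix_mulVec continuous_const)).sqrt
  have hgqc : Continuous fun x => gr Φ x ⬝ᵥ (hs W x *ᵥ gr Φ x) :=
    hgrc.dotProduct (hHc.matrix_mulVec hgrc)
  have hgc : Continuous g := by
    rw [hg]
    exact hgqc.sqrt
  have hgqs : HasCompactSupport fun x => gr Φ x ⬝ᵥ (hs W x *ᵥ gr Φ x) := by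
    have e : (fun x => gr Φ x ⬝ᵥ (hs W x *ᵥ gr Φ x)) =
        fun x => ∑ i, pd (bs κ i) Φ x * ((hs W x *ᵥ gr Φ x) i) := rfl
    rw [e]
    exact cs_sum _ fun i _ => (pd_supp hs' _).mul_right
  have hgs : HasCompactSupport g := by
    rw [hg]
    exact hgqs.comp_left (g := Real.sqrt) Real.sqrt_zero
  have hpt : ∀ x, θ ⬝ᵥ gr Φ x ≤ f x * g x := by
    intro x
    refine (le_abs_self _).trans (abs_le_of_sq_le_sq ?_ (mul_nonneg (hf0 x) (hg0 x)))
    rw [mul_pow, hf2, hg2]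
    exact ICx.pd_cs (hpd x) θ (gr Φ x)
  have iff' : Integrable fun x => f x ^ 2 * Real.exp (-U x) := by
    simp_rw [hf2]
    exact hI θ
  have igg : Integrable fun x => g x ^ 2 * Real.exp (-U x) := by
    simp_rw [hg2]
    exact cc_int volume (hgqc.mul hw) hgqs.mul_right
  have ifg : Integrable fun x => f x * g x * Real.exp (-U x) :=
    cc_int volume ((hfc.mul hgc).mul hw) hgs.mul_left.mul_right
  have hcs := wcs (U := U) iff' igg ifg
  have ipd : ∀ i, Integrable fun x => pd (bs κ i) Φ x * Real.exp (-U x) := fun i =>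
    cc_int volume ((hpdc i).mul hw) (pd_supp hs' _).mul_right
  have hN : ∑ i, θ i ^ 2 = ∫ x, (θ ⬝ᵥ gr Φ x) * Real.exp (-U x) := by
    have e : ∀ x, (θ ⬝ᵥ gr Φ x) * Real.exp (-U x) =
        ∑ i, θ i * (pd (bs κ i) Φ x * Real.exp (-U x)) := fun x => by
      simp only [dotProduct, gr, Finset.sum_mul]
      exact Finset.sum_congr rfl fun i _ => by ring
    simp_rw [e]
    rw [integral_finsetSum _ fun i _ => (ipd i).const_mul _]
    refine Finset.sum_congr rfl fun i _ => ?_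
    rw [integral_const_mul, ← hθ i, pow_two]
  have iN : Integrable fun x => (θ ⬝ᵥ gr Φ x) * Real.exp (-U x) := by
    have e : (fun x => (θ ⬝ᵥ gr Φ x) * Real.exp (-U x)) =
        fun x => ∑ i, θ i * (pd (bs κ i) Φ x * Real.exp (-U x)) := by
      funext x
      simp only [dotProduct, gr, Finset.sum_mul]
      exact Finset.sum_congr rfl fun i _ => by ring
    rw [e]
    exact integrable_finsetSum _ fun i _ => (ipd i).const_mul _
  have hN2 : ∑ i, θ i ^ 2 ≤ ∫ x, f x * g x * Real.exp (-U x) := by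
    rw [hN]
    exact integral_mono iN ifg fun x => mul_le_mul_of_nonneg_right (hpt x) (Real.exp_nonneg _)
  have hN0 : 0 ≤ ∑ i, θ i ^ 2 := Finset.sum_nonneg fun i _ => sq_nonneg _
  -- the Hessian
  set K := ∫ x, (∑ i, ∑ j, pd (bs κ i) (pd (bs κ j) U) x * pd (bs κ i) Φ x * pd (bs κ j) Φ x) *
        Real.exp (-U x) with hK
  have iR : Integrable fun x => (∑ i, ∑ j, pd (bs κ i) (pd (bs κ j) U) x * pd (bs κ i) Φ x *
      pd (bs κ j) Φ x) * Real.exp (-U x) := by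
    refine cc_int volume ((continuous_finsetSum _ fun i _ => continuous_finsetSum _ fun j _ =>
      ((pd_smooth (pd_smooth hUs _) _).continuous.mul (pd_smooth hΦ _).continuous).mul
        (pd_smooth hΦ _).continuous).mul hw) ?_
    exact HasCompactSupport.mul_right (cs_sum _ fun i _ => cs_sum _ fun j _ =>
      (pd_supp hs' _).mul_left)
  have hess : ∀ x, g x ^ 2 * Real.exp (-U x) ≤
      (∑ i, ∑ j, pd (bs κ i) (pd (bs κ j) U) x * pd (bs κ i) Φ x * pd (bs κ j) Φ x) *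
        Real.exp (-U x) := by
    intro x
    refine mul_le_mul_of_nonneg_right ?_ (Real.exp_nonneg _)
    have hS : SCv V 0 := by
      unfold SCv
      simpa using hc
    have h1 := hess_strong hV hS (fun i => pd (bs κ i) Φ x) x
    rw [zero_mul] at h1
    rw [hg2, hs_quad]
    have e1 : ∀ i j, pd (bs κ i) (pd (bs κ j) U) x = pd (bs κ i) (pd (bs κ j) V) x +
        pd (bs κ i) (pd (bs κ j) W) x := by
      intro i j
      have e2 : pd (bs κ j) U = fun x => pd (bs κ j) V x + pd (bs κ j) W x := by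
        funext y
        exact pd_add (sm1 hV) (sm1 hW) _ _
      rw [e2, pd_add (sm1 (pd_smooth hV _)) (sm1 (pd_smooth hW _))]
    have e3 : ∑ i, ∑ j, pd (bs κ i) (pd (bs κ j) U) x * pd (bs κ i) Φ x * pd (bs κ j) Φ x =
        (∑ i, ∑ j, pd (bs κ i) (pd (bs κ j) V) x * pd (bs κ j) Φ x * pd (bs κ i) Φ x) +
        ∑ i, ∑ j, pd (bs κ i) (pd (bs κ j) W) x * gr Φ x j * gr Φ x i := by
      rw [← Finset.sum_add_distrib]
      refine Finset.sum_congr rfl fun i _ => ?_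
      rw [← Finset.sum_add_distrib]
      refine Finset.sum_congr rfl fun j _ => ?_
      rw [e1]
      simp only [gr]
      ring
    rw [e3]
    linarith
  have hgK : ∫ x, g x ^ 2 * Real.exp (-U x) ≤ K := integral_mono igg iR hess
  have hG0 : 0 ≤ ∫ x, g x ^ 2 * Real.exp (-U x) :=
    integral_nonneg fun x => mul_nonneg (sq_nonneg _) (Real.exp_nonneg _)
  have hK0 : 0 ≤ K := hG0.trans hgK
  have hfM : ∫ x, f x ^ 2 * Real.exp (-U x) ≤ M * (∑ i, θ i ^ 2) * Z := by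
    simp_rw [hf2]
    refine (hM θ).trans (le_of_eq ?_)
    congr 2
    simp [dotProduct, pow_two]
  have h1 : (∑ i, θ i ^ 2) ^ 2 ≤ (M * (∑ i, θ i ^ 2) * Z) * K := by
    calc (∑ i, θ i ^ 2) ^ 2 ≤ (∫ x, f x * g x * Real.exp (-U x)) ^ 2 :=
          pow_le_pow_left₀ hN0 hN2 2
      _ ≤ _ := hcs
      _ ≤ _ := mul_le_mul hfM hgK hG0 (by positivity)
  rcases eq_or_lt_of_le hN0 with h2 | h2
  · rw [← h2]
    positivity
  · have h3 : (∑ i, θ i ^ 2) * (∑ i, θ i ^ 2) ≤ (M * Z * K) * (∑ i, θ i ^ 2) := by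
      rw [← pow_two]
      linarith
    exact le_of_mul_le_mul_right h3 h2

end Pool.Agent.KS6_97.Unc
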