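import Pool.Agent.KS6_97.Unc.IC
import Pool.Graph.R_pool_sql_team_seeded_3997aac3.Q188.TS.Iso

/-!
# The mean of the inverse curvature: unbounded supports (JOB IC2, helper12)
-/

set_option autoImplicit false

namespace Pool.Agent.KS6_97.Unc

open MeasureTheory Set Filter Topology Matrix
open scoped ENNReal InnerProductSpace ContDiff
open Pool.Agent.H888R2.KT (LC)
open Pool.Agent.H212R2.KLS (mu Bdd)
open Pool.Agent.Q188.TS (Euc LCF Bl Bl_meas Bl_mono Bl_union Bl_tendsto)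

variable {n : ℕ}

/-- the truncation of a log-concave function -/
theorem lc_ind {g : Euc n → ℝ} (hg : LCF g) (N : ℕ) (hfin : mu g (Bl n N) ≠ ⊤)
    (hne : mu g (Bl n N) ≠ 0) : LC ((Bl n N).indicator g) := by
  have hUc : Convex ℝ (Bl n N) := convex_closedBall _ _
  have hnn : ∀ x, 0 ≤ (Bl n N).indicator g x := fun x =>
    Set.indicator_nonneg (fun x _ => hg.nonneg x) x
  refine ⟨hnn, hg.meas.indicator (Bl_meas N), ?_, ?_, ?_, ?_⟩
  · intro x y t ht0 ht1
    by_cases hx : x ∈ Bl n N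
    · by_cases hy : y ∈ Bl n N
      · have hz : (1 - t) • x + t • y ∈ Bl n N := hUc hx hy (by linarith) ht0.le (by ring)
        rw [Set.indicator_of_mem hx, Set.indicator_of_mem hy, Set.indicator_of_mem hz]
        exact hg.logc x y t ht0 ht1
      · rw [Set.indicator_of_notMem hy, Real.zero_rpow ht0.ne', mul_zero]
        exact hnn _
    · rw [Set.indicator_of_notMem hx, Real.zero_rpow (by linarith), zero_mul]
      exact hnn _
  · refine ⟨N, fun x hx => ?_⟩
    rw [Set.indicator_of_notMem]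
    rw [Bl, mem_closedBall_zero_iff, not_le]
    exact hx
  · rw [Pool.Agent.H888R2.KT.V2x.mu_indicator g _ (Bl_meas N), Measure.restrict_apply_univ]
    exact hfin
  · intro h0
    have h1 : mu ((Bl n N).indicator g) univ = 0 := by rw [h0]; rfl
    rw [Pool.Agent.H888R2.KT.V2x.mu_indicator g _ (Bl_meas N), Measure.restrict_apply_univ] at h1
    exact hne h1

theorem wd_eq {g : Euc n → ℝ} (hg : LCF g) {W : Euc n → ℝ} (hW : ContDiff ℝ ∞ W)
    {μ : Measure (Euc n)}
    (hμ : μ = volume.withDensity fun x => ENNReal.ofReal (Real.exp (-W x) * g x)) :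
    μ = (mu g).withDensity fun x => ENNReal.ofReal (Real.exp (-W x)) := by
  have h1 : (fun x => ENNReal.ofReal (Real.exp (-W x) * g x)) =
      (fun x => ENNReal.ofReal (g x)) * fun x => ENNReal.ofReal (Real.exp (-W x)) := by
    funext x
    rw [Pi.mul_apply, mul_comm (Real.exp _), ENNReal.ofReal_mul (hg.nonneg x)]
  rw [hμ, h1]
  exact withDensity_mul _ (ENNReal.measurable_ofReal.comp hg.meas)
    (ENNReal.measurable_ofReal.comp hW.continuous.neg.rexp.measurable)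

theorem int_ind {g : Euc n → ℝ} (hg : LCF g) {W : Euc n → ℝ} (hW : ContDiff ℝ ∞ W)
    {μ : Measure (Euc n)}
    (hμ : μ = volume.withDensity fun x => ENNReal.ofReal (Real.exp (-W x) * g x)) (N : ℕ)
    (φ : Euc n → ℝ) :
    ∫ x, φ x * Real.exp (-W x) ∂(mu ((Bl n N).indicator g)) = ∫ x in Bl n N, φ x ∂μ := by
  have hm : Measurable fun x => ENNReal.ofReal (Real.exp (-W x)) :=
    ENNReal.measurable_ofReal.comp hW.continuous.neg.rexp.measurable
  rw [Pool.Agent.H888R2.KT.V2x.mu_indicator g _ (Bl_meas N), wd_eq hg hW hμ,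
    setIntegral_withDensity_eq_setIntegral_toReal_smul hm
      (Eventually.of_forall fun x => ENNReal.ofReal_lt_top) _ (Bl_meas N)]
  refine integral_congr_ae (Eventually.of_forall fun x => ?_)
  simp only
  rw [ENNReal.toReal_ofReal (Real.exp_nonneg _), smul_eq_mul, mul_comm]

/-- the mass of a ball for `g` -/
theorem mass_ind {g : Euc n → ℝ} (hg : LCF g) {W : Euc n → ℝ} (hW : ContDiff ℝ ∞ W)
    {μ : Measure (Euc n)}
    (hμ : μ = volume.withDensity fun x => ENNReal.ofReal (Real.exp (-W x) * g x))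
    [IsProbabilityMeasure μ] (N : ℕ) (h0 : μ (Bl n N) ≠ 0) :
    mu g (Bl n N) ≠ ⊤ ∧ mu g (Bl n N) ≠ 0 := by
  have hm : Measurable fun x => ENNReal.ofReal (Real.exp (-W x)) :=
    ENNReal.measurable_ofReal.comp hW.continuous.neg.rexp.measurable
  have hwd := wd_eq hg hW hμ
  constructor
  · -- lower bound of `exp (-W)` on the ball
    obtain ⟨c, hc⟩ := (isCompact_closedBall (0 : Euc n) (N : ℝ)).bddAbove_image
      hW.continuous.continuousOn
    have hlow : ∀ x ∈ Bl n N, Real.exp (-c) ≤ Real.exp (-W x) := fun x hx =>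
      Real.exp_le_exp.2 (neg_le_neg (hc ⟨x, hx, rfl⟩))
    have h1 : ENNReal.ofReal (Real.exp (-c)) * mu g (Bl n N) ≤ μ (Bl n N) := by
      rw [hwd, withDensity_apply _ (Bl_meas N), ← setLIntegral_const]
      exact setLIntegral_mono hm fun x hx => ENNReal.ofReal_le_ofReal (hlow x hx)
    intro htop
    rw [htop, ENNReal.mul_top (ENNReal.ofReal_pos.2 (Real.exp_pos _)).ne'] at h1
    exact (measure_ne_top μ (Bl n N)) (top_le_iff.1 h1)
  · intro hz
    apply h0
    rw [hwd]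
    exact withDensity_absolutelyContinuous _ _ hz

theorem iq_cont {W : Euc n → ℝ} (hW : ContDiff ℝ ∞ W) (hpd : ∀ x, (hs W x).PosDef)
    (θ : Fin n → ℝ) : Continuous fun x => iq W θ x :=
  continuous_const.dotProduct ((ICx.inv_cont (hs_cont hW) hpd).matrix_mulVec continuous_const)

/-- **The mean of the inverse curvature bounds the Poincare constant.** -/
theorem ic2 {g : Euc n → ℝ} (hg : LCF g) {W : Euc n → ℝ} (hW : ContDiff ℝ ∞ W)
    (hpd : ∀ x, (hs W x).PosDef) {μ : Measure (Euc n)}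
    (hμ : μ = volume.withDensity fun x => ENNReal.ofReal (Real.exp (-W x) * g x))
    [IsProbabilityMeasure μ] {M : ℝ} (hM0 : 0 ≤ M)
    (hM : ∀ θ : Fin n → ℝ, ∫⁻ x, ENNReal.ofReal (iq W θ x) ∂μ ≤ ENNReal.ofReal (M * (θ ⬝ᵥ θ)))
    {f : Euc n → ℝ} (hf : ContDiff ℝ 1 f) (h2 : MemLp f 2 μ)
    (h3 : Integrable (fun x => ‖fderiv ℝ f x‖ ^ 2) μ) :
    ∫ x, f x ^ 2 ∂μ - (∫ x, f x ∂μ) ^ 2 ≤ M * ∫ x, ‖fderiv ℝ f x‖ ^ 2 ∂μ := by
  have hf2 : Integrable (fun x => f x ^ 2) μ := h2.integrable_sq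
  have hf1 : Integrable f μ := h2.integrable one_le_two
  have t0 : Tendsto (fun N => ∫ x in Bl n N, (1 : ℝ) ∂μ) atTop (𝓝 1) := by
    have := Bl_tendsto μ (fun _ => (1 : ℝ)) (integrable_const _)
    simpa using this
  have t1 := Bl_tendsto μ f hf1
  have t2 := Bl_tendsto μ (fun x => f x ^ 2) hf2
  have t3 := Bl_tendsto μ (fun x => ‖fderiv ℝ f x‖ ^ 2) h3
  have hθ0 : ∀ θ : Fin n → ℝ, 0 ≤ θ ⬝ᵥ θ := fun θ =>
    Finset.sum_nonneg fun i _ => mul_self_nonneg _
  -- the hypothesis for set integrals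
  have hS : ∀ (θ : Fin n → ℝ) (N : ℕ), ∫ x in Bl n N, iq W θ x ∂μ ≤ M * (θ ⬝ᵥ θ) := by
    intro θ N
    have hnn : ∀ x, 0 ≤ iq W θ x := fun x => ICx.inv_nonneg' (hpd x) θ
    rw [integral_eq_lintegral_of_nonneg_ae (Eventually.of_forall hnn)
      (iq_cont hW hpd θ).aestronglyMeasurable]
    refine ENNReal.toReal_le_of_le_ofReal (mul_nonneg hM0 (hθ0 θ)) ?_
    exact (setLIntegral_le_lintegral _ _).trans (hM θ)
  have key : ∀ M' : ℝ, M < M' → ∫ x, f x ^ 2 ∂μ - (∫ x, f x ∂μ) ^ 2 ≤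
      M' * ∫ x, ‖fderiv ℝ f x‖ ^ 2 ∂μ := by
    intro M' hM'
    have hM'0 : 0 < M' := lt_of_le_of_lt hM0 hM'
    have L1 := (t0.mul t2).sub (t1.pow 2)
    have L2 := (t0.const_mul M').mul t3
    simp only [one_mul, mul_one] at L1 L2
    have hev : ∀ᶠ N in atTop, M / M' < ∫ x in Bl n N, (1 : ℝ) ∂μ :=
      t0.eventually (lt_mem_nhds (by rw [div_lt_one hM'0]; exact hM'))
    refine le_of_tendsto_of_tendsto L1 L2 ?_
    filter_upwards [hev] with N hN
    have hN0 : 0 < ∫ x in Bl n N, (1 : ℝ) ∂μ := lt_of_le_of_lt (div_nonneg hM0 hM'0.le) hN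
    have hne : μ (Bl n N) ≠ 0 := by
      intro h0
      rw [Measure.restrict_eq_zero.2 h0] at hN0
      simp at hN0
    obtain ⟨hfin, hne'⟩ := mass_ind hg hW hμ N hne
    have hL := lc_ind hg N hfin hne'
    have e0 : ∫ x, Real.exp (-W x) ∂(mu ((Bl n N).indicator g)) = ∫ x in Bl n N, (1 : ℝ) ∂μ := by
      have := int_ind hg hW hμ N fun _ => (1 : ℝ)
      simpa only [one_mul] using this
    have := ic hL hW hpd hM'0.le (fun θ => by
      rw [e0, int_ind hg hW hμ N fun x => iq W θ x]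
      refine (hS θ N).trans ?_
      rw [div_lt_iff₀ hM'0] at hN
      calc M * (θ ⬝ᵥ θ) ≤ ((∫ x in Bl n N, (1 : ℝ) ∂μ) * M') * (θ ⬝ᵥ θ) :=
            mul_le_mul_of_nonneg_right hN.le (hθ0 θ)
        _ = M' * (θ ⬝ᵥ θ) * ∫ x in Bl n N, (1 : ℝ) ∂μ := by ring) f hf
    rw [e0, int_ind hg hW hμ N fun x => f x ^ 2, int_ind hg hW hμ N f,
      int_ind hg hW hμ N fun x => ‖fderiv ℝ f x‖ ^ 2] at this
    exact this
  have hc : Continuous fun M' : ℝ => M' * ∫ x, ‖fderiv ℝ f x‖ ^ 2 ∂μ := by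
    fun_prop
  refine ge_of_tendsto ((hc.tendsto M).mono_left (nhdsWithin_le_nhds (s := Ioi M))) ?_
  filter_upwards [self_mem_nhdsWithin] with M' hM'
  exact key M' hM'

end Pool.Agent.KS6_97.Unc
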