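import Pool.Agent.KS6_97.Unc.IC1

/-!
# Convexity from the Hessian and the quadratic perturbation (JOB IC, helper12)
-/

set_option autoImplicit false

namespace Pool.Agent.KS6_97.Unc

open MeasureTheory Set Filter Topology Matrix
open scoped ENNReal InnerProductSpace ContDiff
open Pool.Agent.Q86.FIB
open Pool.Agent.Q86.EM (SCv bs p_sci)
open Pool.Agent.Q190.EM (norm_fd hess_strong int_gr pd_sqn smooth_sqn pd_inner inner_bs)

variable {κ : Type} [Fintype κ] [DecidableEq κ]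

theorem eq_sum_bs (d : Eu κ) : d = ∑ i, d i • bs κ i := by
  ext j
  rw [WithLp.ofLp_sum, Finset.sum_apply]
  have e : ∀ i, (d i • bs κ i).ofLp j = if j = i then d i else 0 := by
    intro i
    unfold bs
    rw [WithLp.ofLp_smul, Pi.smul_apply, PiLp.ofLp_single, Pi.single_apply, smul_eq_mul]
    split_ifs <;> simp
  simp_rw [e]
  simp

theorem pd_lin (f : Eu κ → ℝ) (x d : Eu κ) : pd d f x = ∑ i, d i * pd (bs κ i) f x := by
  unfold pd
  conv_lhs => rw [eq_sum_bs d]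
  rw [map_sum]
  refine Finset.sum_congr rfl fun i _ => ?_
  rw [map_smul, smul_eq_mul]

/-- the second derivative in terms of the Hessian matrix -/
theorem pd_pd_hs {W : Eu κ → ℝ} (hW : ContDiff ℝ ∞ W) (x d : Eu κ) :
    pd d (pd d W) x = d.ofLp ⬝ᵥ (hs W x *ᵥ d.ofLp) := by
  have e1 : pd d W = fun y => ∑ j, d j * pd (bs κ j) W y := funext fun y => pd_lin W y d
  have e2 : ∀ i, pd (bs κ i) (pd d W) x = ∑ j, d j * pd (bs κ i) (pd (bs κ j) W) x := by
    intro i
    rw [e1, pd_sum Finset.univ (f := fun j (y : Eu κ) => d j * pd (bs κ j) W y)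
      (fun j _ => contDiff_const.mul (sm1 (pd_smooth hW _)))]
    refine Finset.sum_congr rfl fun j _ => ?_
    rw [pd_const_mul (sm1 (pd_smooth hW _))]
  rw [pd_lin (pd d W) x d, hs_quad]
  refine Finset.sum_congr rfl fun i _ => ?_
  rw [e2, Finset.mul_sum]
  exact Finset.sum_congr rfl fun j _ => by ring

/-- a function with nonnegative Hessian is convex -/
theorem convex_of_hs {W : Eu κ → ℝ} (hW : ContDiff ℝ ∞ W)
    (h : ∀ x, ∀ v : κ → ℝ, 0 ≤ v ⬝ᵥ (hs W x *ᵥ v)) : ConvexOn ℝ univ W := by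
  refine ⟨convex_univ, fun x _ y _ s t hs' ht hst => ?_⟩
  obtain ⟨d, hd⟩ : ∃ d : Eu κ, d = y - x := ⟨_, rfl⟩
  have hline : ∀ (f : Eu κ → ℝ), ContDiff ℝ ∞ f → ∀ r : ℝ,
      HasDerivAt (fun r : ℝ => f (x + r • d)) (pd d f (x + r • d)) r := by
    intro f hf r
    have h1 : HasFDerivAt f (fderiv ℝ f (x + r • d)) (x + r • d) :=
      (hf.differentiable (by simp) _).hasFDerivAt
    have h2 : HasDerivAt (fun r : ℝ => x + r • d) d r := by
      have := ((hasDerivAt_id r).smul_const d).const_add x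
      simpa using this
    exact h1.comp_hasDerivAt r h2
  have hd1 : deriv (fun r : ℝ => W (x + r • d)) = fun r => pd d W (x + r • d) :=
    funext fun r => (hline W hW r).deriv
  have hconv : ConvexOn ℝ univ fun r : ℝ => W (x + r • d) := by
    refine convexOn_univ_of_deriv2_nonneg (fun r => (hline W hW r).differentiableAt) ?_ fun r => ?_
    · rw [hd1]
      exact fun r => (hline _ (pd_smooth hW d) r).differentiableAt
    · rw [Function.iterate_succ, Function.iterate_one, Function.comp_apply, hd1,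
        (hline _ (pd_smooth hW d) r).deriv, pd_pd_hs hW]
      exact h _ _
  have h3 := hconv.2 (mem_univ 0) (mem_univ 1) hs' ht hst
  simp only [smul_eq_mul, mul_zero, mul_one, zero_add, zero_smul, add_zero, one_smul] at h3
  have e1 : x + t • d = s • x + t • y := by
    have : s = 1 - t := by linarith
    rw [hd, this, smul_sub, sub_smul, one_smul]
    abel
  have e2 : x + d = y := by rw [hd]; abel
  rw [e1, e2] at h3
  simpa using h3

/-- the perturbation -/
noncomputable def Wp (W : Eu κ → ℝ) (a : ℝ) (x : Eu κ) : ℝ := W x + a / 2 * ‖x‖ ^ 2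

theorem Wp_smooth {W : Eu κ → ℝ} (hW : ContDiff ℝ ∞ W) (a : ℝ) : ContDiff ℝ ∞ (Wp W a) :=
  hW.add (contDiff_const.mul smooth_sqn)

omit [DecidableEq κ] in
theorem Wp_zero (W : Eu κ → ℝ) (x : Eu κ) : Wp W 0 x = W x := by simp [Wp]

theorem hs_Wp {W : Eu κ → ℝ} (hW : ContDiff ℝ ∞ W) (a : ℝ) (x : Eu κ) :
    hs (Wp W a) x = hs W x + a • (1 : Matrix κ κ ℝ) := by
  have hin : ∀ j, ContDiff ℝ ∞ fun x : Eu κ => ⟪bs κ j, x⟫_ℝ := fun j =>
    contDiff_const.inner ℝ contDiff_id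
  have e1 : ∀ j, pd (bs κ j) (Wp W a) = fun x => pd (bs κ j) W x + a * ⟪bs κ j, x⟫_ℝ := by
    intro j
    funext y
    unfold Wp
    rw [pd_add (sm1 hW) (sm1 (contDiff_const.mul smooth_sqn)), pd_const_mul (sm1 smooth_sqn),
      pd_sqn]
    ring
  ext i j
  simp only [hs, Matrix.of_apply, Matrix.add_apply, Matrix.smul_apply, Matrix.one_apply,
    smul_eq_mul]
  rw [e1, pd_add (sm1 (pd_smooth hW _)) (sm1 (contDiff_const.mul (hin j))),
    pd_const_mul (sm1 (hin j)), pd_inner, inner_bs]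
  simp [eq_comm]

theorem quad_add (H : Matrix κ κ ℝ) (a : ℝ) (v : κ → ℝ) :
    v ⬝ᵥ ((H + a • (1 : Matrix κ κ ℝ)) *ᵥ v) = v ⬝ᵥ (H *ᵥ v) + a * (v ⬝ᵥ v) := by
  rw [Matrix.add_mulVec, dotProduct_add, Matrix.smul_mulVec, Matrix.one_mulVec, dotProduct_smul,
    smul_eq_mul]

theorem pd_add_smul {H : Matrix κ κ ℝ} (hH : H.PosDef) {a : ℝ} (ha : 0 ≤ a) :
    (H + a • (1 : Matrix κ κ ℝ)).PosDef := by
  rw [Matrix.posDef_iff_dotProduct_mulVec]
  refine ⟨?_, fun v hv => ?_⟩
  · refine hH.isHermitian.add ?_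
    rw [Matrix.IsHermitian, Matrix.conjTranspose_smul, Matrix.conjTranspose_one]
    simp
  · rw [star_trivial, quad_add]
    have h1 := ICx.pd_pos hH hv
    have h2 : 0 ≤ v ⬝ᵥ v := Finset.sum_nonneg fun i _ => mul_self_nonneg _
    have := mul_nonneg ha h2
    linarith

theorem SCv_Wp {W : Eu κ → ℝ} (hW : ConvexOn ℝ univ W) (a : ℝ) : SCv (Wp W a) a := by
  unfold SCv Wp
  have e : (fun x : Eu κ => W x + a / 2 * ‖x‖ ^ 2 - a / 2 * ‖x‖ ^ 2) = W := by
    funext x; ring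
  rw [e]
  exact hW

/-- lower bound of the Hessian of a strongly convex function -/
theorem hs_lower {W : Eu κ → ℝ} (hW : ContDiff ℝ ∞ W) {a : ℝ} (hS : SCv W a) (x : Eu κ)
    (v : κ → ℝ) : a * (v ⬝ᵥ v) ≤ v ⬝ᵥ (hs W x *ᵥ v) := by
  rw [hs_quad]
  refine le_trans (le_of_eq ?_) (hess_strong hW hS v x)
  simp [dotProduct, pow_two]

end Pool.Agent.KS6_97.Unc
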