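import Mathlib

/-!
# Poincare and Cheeger inequalities for affine images
-/

set_option autoImplicit false

namespace Pool.Agent.KS6_97.Unc.LI

open MeasureTheory Set Filter Topology
open scoped ENNReal InnerProductSpace ContDiff

/-- Euclidean space of dimension `n` -/
abbrev Euc (n : ℕ) : Type := EuclideanSpace ℝ (Fin n)

/-- the lower Minkowski content -/
noncomputable def bd {n : ℕ} (μ : Measure (Euc n)) (S : Set (Euc n)) : ℝ≥0∞ :=
  Filter.liminf (fun ε : ℝ => (μ (Metric.thickening ε S) - μ S) / ENNReal.ofReal ε)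
    (nhdsWithin 0 (Set.Ioi 0))

variable {N n : ℕ}

theorem norm_T {ν : Measure (Euc N)} [IsProbabilityMeasure ν]
    (hvar : ∀ w : Euc N, ProbabilityTheory.variance (fun z => ⟪z, w⟫_ℝ) ν = ‖w‖ ^ 2)
    (T : Euc N →L[ℝ] Euc n) (b : Euc n) {s : ℝ}
    (hcov : ∀ θ : Euc n, ‖θ‖ = 1 →
      ProbabilityTheory.variance (fun x => ⟪x, θ⟫_ℝ) (ν.map fun z => T z + b) ≤ s) :
    ‖T‖ ≤ Real.sqrt s := by
  have hφ : Continuous fun z : Euc N => T z + b := by fun_prop
  have h1 : ∀ θ : Euc n, ‖θ‖ = 1 → ‖ContinuousLinearMap.adjoint T θ‖ ≤ Real.sqrt s := by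
    intro θ hθ
    have h2 := hcov θ hθ
    rw [ProbabilityTheory.variance_map (by fun_prop) hφ.aemeasurable] at h2
    have e1 : (fun x : Euc n => ⟪x, θ⟫_ℝ) ∘ (fun z : Euc N => T z + b) =
        fun z => ⟪z, ContinuousLinearMap.adjoint T θ⟫_ℝ + ⟪b, θ⟫_ℝ := by
      funext z
      simp only [Function.comp_apply]
      rw [inner_add_left, ContinuousLinearMap.adjoint_inner_right]
    rw [e1, ProbabilityTheory.variance_add_const (by fun_prop), hvar] at h2
    exact Real.le_sqrt_of_sq_le h2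
  rw [← LinearIsometryEquiv.norm_map ContinuousLinearMap.adjoint T]
  refine ContinuousLinearMap.opNorm_le_bound _ (Real.sqrt_nonneg _) fun θ => ?_
  by_cases h0 : θ = 0
  · rw [h0, map_zero, norm_zero, norm_zero, mul_zero]
  · have hn : 0 < ‖θ‖ := norm_pos_iff.2 h0
    have h3 := h1 (‖θ‖⁻¹ • θ) (by
      rw [norm_smul, norm_inv, norm_norm, inv_mul_cancel₀ hn.ne'])
    rw [map_smul, norm_smul, norm_inv, norm_norm, inv_mul_le_iff₀ hn] at h3
    rw [mul_comm]
    exact h3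

theorem poin {ν : Measure (Euc N)} [IsProbabilityMeasure ν] {D : ℝ} (hD : 0 ≤ D)
    (hP : ∀ F : Euc N → ℝ, ContDiff ℝ 1 F → MemLp F 2 ν → MemLp (fun x => ‖fderiv ℝ F x‖) 2 ν →
      ProbabilityTheory.variance F ν ≤ D * ∫ x, ‖fderiv ℝ F x‖ ^ 2 ∂ν)
    (T : Euc N →L[ℝ] Euc n) (b : Euc n) {s : ℝ} (hs : 0 < s) (hT : ‖T‖ ≤ Real.sqrt s)
    (f : Euc n → ℝ) (hf : ContDiff ℝ 1 f) (h2 : MemLp f 2 (ν.map fun z => T z + b))
    (h3 : MemLp (fun x => ‖fderiv ℝ f x‖) 2 (ν.map fun z => T z + b)) :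
    ProbabilityTheory.variance f (ν.map fun z => T z + b) ≤
      D * s * ∫ x, ‖fderiv ℝ f x‖ ^ 2 ∂(ν.map fun z => T z + b) := by
  have hφ : Continuous fun z : Euc N => T z + b := by fun_prop
  have hφd : ContDiff ℝ 1 fun z : Euc N => T z + b := by fun_prop
  have hfd : Continuous fun x => ‖fderiv ℝ f x‖ := (hf.continuous_fderiv one_ne_zero).norm
  have hF : ContDiff ℝ 1 (f ∘ fun z => T z + b) := hf.comp hφd
  have e1 : ∀ z, fderiv ℝ (f ∘ fun z => T z + b) z = (fderiv ℝ f (T z + b)).comp T := by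
    intro z
    have h4 : HasFDerivAt (fun z : Euc N => T z + b) T z := T.hasFDerivAt.add_const b
    exact ((hf.differentiable one_ne_zero (T z + b)).hasFDerivAt.comp z h4).fderiv
  have e2 : ∀ z, ‖fderiv ℝ (f ∘ fun z => T z + b) z‖ ≤ Real.sqrt s * ‖fderiv ℝ f (T z + b)‖ := by
    intro z
    rw [e1, mul_comm]
    exact (ContinuousLinearMap.opNorm_comp_le _ _).trans
      (mul_le_mul_of_nonneg_left hT (norm_nonneg _))
  have m2 : MemLp (f ∘ fun z => T z + b) 2 ν := h2.comp_of_map hφ.aemeasurable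
  have m3 : MemLp (fun z => ‖fderiv ℝ f (T z + b)‖) 2 ν := h3.comp_of_map hφ.aemeasurable
  have m4 : MemLp (fun z => ‖fderiv ℝ (f ∘ fun z => T z + b) z‖) 2 ν := by
    refine (m3.const_mul (Real.sqrt s)).mono
      (hF.continuous_fderiv one_ne_zero).norm.aestronglyMeasurable (Eventually.of_forall fun z => ?_)
    rw [norm_norm, norm_mul, norm_norm, Real.norm_eq_abs, abs_of_nonneg (Real.sqrt_nonneg _)]
    exact e2 z
  have h5 := hP _ hF m2 m4
  have hfd2 : Continuous fun x => ‖fderiv ℝ f x‖ ^ 2 := hfd.pow 2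
  rw [ProbabilityTheory.variance_map hf.continuous.aemeasurable hφ.aemeasurable,
    integral_map hφ.aemeasurable hfd2.aestronglyMeasurable]
  refine h5.trans ?_
  rw [mul_assoc]
  refine mul_le_mul_of_nonneg_left ?_ hD
  rw [← integral_const_mul]
  refine integral_mono m4.integrable_sq (m3.integrable_sq.const_mul s) fun z => ?_
  show ‖fderiv ℝ (f ∘ fun z => T z + b) z‖ ^ 2 ≤ s * ‖fderiv ℝ f (T z + b)‖ ^ 2
  calc _ ≤ (Real.sqrt s * ‖fderiv ℝ f (T z + b)‖) ^ 2 :=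
        pow_le_pow_left₀ (norm_nonneg _) (e2 z) 2
    _ = _ := by rw [mul_pow, Real.sq_sqrt hs.le]

theorem chee {ν : Measure (Euc N)} {c : ℝ}
    (hC : ∀ A : Set (Euc N), MeasurableSet A → ENNReal.ofReal c * min (ν A) (ν Aᶜ) ≤ bd ν A)
    (T : Euc N →L[ℝ] Euc n) (b : Euc n) {s : ℝ} (hs : 0 < s) (hT : ‖T‖ ≤ Real.sqrt s)
    {S : Set (Euc n)} (hS : MeasurableSet S) :
    ENNReal.ofReal (c / Real.sqrt s) * min ((ν.map fun z => T z + b) S)
      ((ν.map fun z => T z + b) Sᶜ) ≤ bd (ν.map fun z => T z + b) S := by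
  have hφ : Continuous fun z : Euc N => T z + b := by fun_prop
  have hφm : Measurable fun z : Euc N => T z + b := hφ.measurable
  set μ := ν.map fun z => T z + b with hμ
  have hr : 0 < Real.sqrt s := Real.sqrt_pos.2 hs
  set r := Real.sqrt s with hrd
  set A : Set (Euc N) := (fun z => T z + b) ⁻¹' S with hA
  have hAm : MeasurableSet A := hφm hS
  have eA : μ S = ν A := Measure.map_apply hφm hS
  have eAc : μ Sᶜ = ν Aᶜ := Measure.map_apply hφm hS.compl
  have h1 := hC A hAm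
  have hmap : (𝓝[>] (0 : ℝ)) = Filter.map (fun ε : ℝ => r * ε) (𝓝[>] 0) := by
    have h2 : Filter.map (fun ε : ℝ => r * ε) (𝓝[>] 0) = 𝓝[>] (0 : ℝ) := by
      have h3 := (Homeomorph.mulLeft₀ r hr.ne').isOpenEmbedding.map_nhdsWithin_eq (Ioi (0 : ℝ)) 0
      have e4 : (fun ε : ℝ => r * ε) '' Ioi 0 = Ioi 0 := by
        rw [Set.image_mul_left_Ioi hr, mul_zero]
      simp only [Homeomorph.coe_mulLeft₀, mul_zero] at h3
      rw [e4] at h3
      exact h3
    exact h2.symm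
  have hth : ∀ ε : ℝ, Metric.thickening ε A ⊆ (fun z => T z + b) ⁻¹' Metric.thickening (r * ε) S := by
    intro ε z hz
    rw [Metric.mem_thickening_iff] at hz
    obtain ⟨y, hy, hzy⟩ := hz
    rw [mem_preimage, Metric.mem_thickening_iff]
    refine ⟨T y + b, hy, ?_⟩
    rw [dist_eq_norm, add_sub_add_right_eq_sub, ← map_sub]
    rw [dist_eq_norm] at hzy
    calc ‖T (z - y)‖ ≤ ‖T‖ * ‖z - y‖ := T.le_opNorm _
      _ ≤ r * ‖z - y‖ := mul_le_mul_of_nonneg_right hT (norm_nonneg _)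
      _ < r * ε := mul_lt_mul_of_pos_left hzy hr
  have hth2 : ∀ ε : ℝ, ν (Metric.thickening ε A) ≤ μ (Metric.thickening (r * ε) S) := by
    intro ε
    rw [hμ, Measure.map_apply hφm Metric.isOpen_thickening.measurableSet]
    exact measure_mono (hth ε)
  unfold bd
  rw [hmap]
  show _ ≤ Filter.liminf ((fun ε : ℝ => (μ (Metric.thickening ε S) - μ S) / ENNReal.ofReal ε) ∘
    fun ε : ℝ => r * ε) (𝓝[>] 0)
  rw [le_liminf_iff]
  intro y hy
  have hr0 : ENNReal.ofReal r ≠ 0 := (ENNReal.ofReal_pos.2 hr).ne'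
  have hy2 : ENNReal.ofReal r * y < bd ν A := by
    refine lt_of_lt_of_le ?_ h1
    rw [eA, eAc, ENNReal.ofReal_div_of_pos hr] at hy
    have h3 := ENNReal.mul_lt_mul_right hr0 ENNReal.ofReal_ne_top hy
    refine h3.trans_le (le_of_eq ?_)
    rw [← mul_assoc, ENNReal.mul_div_cancel hr0 ENNReal.ofReal_ne_top]
  have h4 := eventually_lt_of_lt_liminf hy2
  filter_upwards [h4, self_mem_nhdsWithin] with ε h5 h6
  have hε : (0 : ℝ) < ε := h6
  have hε0 : ENNReal.ofReal ε ≠ 0 := (ENNReal.ofReal_pos.2 hε).ne'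
  have h7 : ENNReal.ofReal r * y < (μ (Metric.thickening (r * ε) S) - μ S) / ENNReal.ofReal ε := by
    refine h5.trans_le (ENNReal.div_le_div_right ?_ _)
    rw [eA]
    exact tsub_le_tsub_right (hth2 ε) _
  simp only [Function.comp_apply]
  rw [ENNReal.ofReal_mul hr.le]
  rw [ENNReal.lt_div_iff_mul_lt (Or.inl hε0) (Or.inl ENNReal.ofReal_ne_top)] at h7
  rw [ENNReal.lt_div_iff_mul_lt (Or.inl (mul_ne_zero hr0 hε0))
    (Or.inl (ENNReal.mul_ne_top ENNReal.ofReal_ne_top ENNReal.ofReal_ne_top))]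
  calc y * (ENNReal.ofReal r * ENNReal.ofReal ε) = ENNReal.ofReal r * y * ENNReal.ofReal ε := by
        ring
    _ < _ := h7

end Pool.Agent.KS6_97.Unc.LI
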