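import Pool.Agent.KS6_97.Sch.ILp

/-!
# The mean curvature inequality for log-concave measures, smooth potentials

If `|∫ ∇Φ e^{-U}|² ≤ M Z ∫ ⟨U'' ∇Φ, ∇Φ⟩ e^{-U}` for all test functions (for example if the mean of
`(U'')⁻¹` is at most `M`) then the Poincare constant is at most `M`.
-/

set_option autoImplicit false

namespace Pool.Agent.KS6_97.Unc

open MeasureTheory Set Filter Topology
open scoped ENNReal InnerProductSpace ContDiff
open Pool.Agent.Q86.FIB
open Pool.Agent.Q86.EM
open Pool.Agent.Q190.EM (norm_fd hess_strong int_gr pd_inner inner_bs)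
open Pool.Agent.KS6_97.Sch (PI wcs)

section

variable {κ : Type} [Fintype κ] [DecidableEq κ]

/-- the hypothesis on the mean of the inverse curvature -/
def GM (U : Eu κ → ℝ) (M : ℝ) : Prop :=
  ∀ Φ : Eu κ → ℝ, ContDiff ℝ ∞ Φ → HasCompactSupport Φ →
    ∑ i, (∫ x, pd (bs κ i) Φ x * Real.exp (-U x)) ^ 2 ≤ M * (∫ x, Real.exp (-U x)) *
      ∫ x, (∑ i, ∑ j, pd (bs κ i) (pd (bs κ j) U) x * pd (bs κ i) Φ x * pd (bs κ j) Φ x) *
        Real.exp (-U x)

/-- the energy estimate -/
theorem energyM {U : Eu κ → ℝ} {a M C : ℝ} (hU : ContDiff ℝ ∞ U) (hS : SCv U a)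
    (hI : ∀ m : ℕ, Integrable fun x => (1 + ‖x‖) ^ m * Real.exp (-U x))
    (hGM : GM U M) (hC : 0 ≤ C) (hMC : M ≤ C) (hP : PI U C) (Φ : Eu κ → ℝ) (hΦ : ContDiff ℝ ∞ Φ)
    (hs : HasCompactSupport Φ) :
    (1 + (C - M) * a) * (∫ x, (∑ i, (pd (bs κ i) Φ x) ^ 2) * Real.exp (-U x)) ≤
      C * ∫ x, Lop (bs κ) U Φ x ^ 2 * Real.exp (-U x) := by
  have hw : Continuous (fun x => Real.exp (-U x)) := (hU.neg.exp).continuous
  have iZ : Integrable fun x => Real.exp (-U x) := by
    have := hI 0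
    simpa using this
  set Z := ∫ x, Real.exp (-U x) with hZd
  have hZ : 0 < Z := integral_exp_pos iZ
  have hLs := Lop_smooth (bs κ) hU hΦ
  have hLc := hLs.continuous
  have hLsup : HasCompactSupport (Lop (bs κ) U Φ) := Lop_supp (bs κ) hs
  set L := ∫ x, Lop (bs κ) U Φ x ^ 2 * Real.exp (-U x) with hL
  set G := ∫ x, (∑ i, (pd (bs κ i) Φ x) ^ 2) * Real.exp (-U x) with hG
  have hL0 : 0 ≤ L := integral_nonneg fun x => mul_nonneg (sq_nonneg _) (Real.exp_nonneg _)
  have iL2 : Integrable fun x => Lop (bs κ) U Φ x ^ 2 * Real.exp (-U x) := by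
    simp_rw [pow_two]
    exact cc_int volume ((hLc.mul hLc).mul hw) hLsup.mul_right.mul_right
  -- Bochner
  have hB := bochner volume (bs κ) hU hΦ hs
  set H := ∫ x, (∑ i, ∑ j, (pd (bs κ j) (pd (bs κ i) Φ) x) ^ 2) * Real.exp (-U x) with hH
  set K := ∫ x, (∑ i, ∑ j, pd (bs κ i) (pd (bs κ j) U) x * pd (bs κ i) Φ x * pd (bs κ j) Φ x) *
        Real.exp (-U x) with hK
  rw [← hL] at hB
  have ipd : ∀ i, Integrable fun x => (pd (bs κ i) Φ x) ^ 2 * Real.exp (-U x) := fun i => by
    simp_rw [pow_two]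
    exact cc_int volume (((pd_smooth hΦ _).continuous.mul (pd_smooth hΦ _).continuous).mul hw)
      (pd_supp hs _).mul_right.mul_right
  have iG : Integrable fun x => (∑ i, (pd (bs κ i) Φ x) ^ 2) * Real.exp (-U x) := by
    simp_rw [Finset.sum_mul]
    exact integrable_finsetSum _ fun i _ => ipd i
  have iK : Integrable fun x => (∑ i, ∑ j, pd (bs κ i) (pd (bs κ j) U) x * pd (bs κ i) Φ x *
      pd (bs κ j) Φ x) * Real.exp (-U x) := by
    refine cc_int volume ((continuous_finsetSum _ fun i _ => continuous_finsetSum _ fun j _ =>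
      ((pd_smooth (pd_smooth hU _) _).continuous.mul (pd_smooth hΦ _).continuous).mul
        (pd_smooth hΦ _).continuous).mul hw) ?_
    exact HasCompactSupport.mul_right (cs_sum _ fun i _ => cs_sum _ fun j _ =>
      (pd_supp hs _).mul_left)
  have hKG : a * G ≤ K := by
    rw [hG, ← integral_const_mul]
    refine integral_mono (iG.const_mul a) iK fun x => ?_
    have h1 := hess_strong hU hS (fun i => pd (bs κ i) Φ x) x
    have h2 : (∑ i, ∑ j, pd (bs κ i) (pd (bs κ j) U) x * pd (bs κ j) Φ x * pd (bs κ i) Φ x) =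
        ∑ i, ∑ j, pd (bs κ i) (pd (bs κ j) U) x * pd (bs κ i) Φ x * pd (bs κ j) Φ x :=
      Finset.sum_congr rfl fun i _ => Finset.sum_congr rfl fun j _ => by ring
    rw [h2] at h1
    have h3 := mul_le_mul_of_nonneg_right h1 (Real.exp_nonneg (-U x))
    simp only
    linarith
  obtain ⟨v, hv⟩ : ∃ v : κ → ℝ, ∀ i, v i = ∫ x, pd (bs κ i) Φ x * Real.exp (-U x) :=
    ⟨_, fun i => rfl⟩
  have hw2 := hGM Φ hΦ hs
  simp_rw [← hv] at hw2
  rw [← hZd, ← hK] at hw2
  -- Poincare for the derivatives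
  have hsumP : Z * G - ∑ i, v i ^ 2 ≤ C * Z * H := by
    have h1 : ∀ i, Z * (∫ x, (pd (bs κ i) Φ x) ^ 2 * Real.exp (-U x)) - v i ^ 2 ≤
        C * Z * ∫ x, (∑ j, (pd (bs κ j) (pd (bs κ i) Φ) x) ^ 2) * Real.exp (-U x) := fun i => by
      have := hP (pd (bs κ i) Φ) (sm1 (pd_smooth hΦ _)) (pd_supp hs _)
      rw [← hv] at this
      exact this
    have h2 := Finset.sum_le_sum fun (i : κ) (_ : i ∈ Finset.univ) => h1 i
    rw [Finset.sum_sub_distrib, ← Finset.mul_sum, ← Finset.mul_sum] at h2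
    have h3 : G = ∑ i, ∫ x, (pd (bs κ i) Φ x) ^ 2 * Real.exp (-U x) := by
      rw [hG]
      simp_rw [Finset.sum_mul]
      rw [integral_finsetSum _ fun i _ => ipd i]
    have h4 : H = ∑ i, ∫ x, (∑ j, (pd (bs κ j) (pd (bs κ i) Φ) x) ^ 2) * Real.exp (-U x) := by
      rw [hH]
      have e1 : ∀ x, (∑ i, ∑ j, (pd (bs κ j) (pd (bs κ i) Φ) x) ^ 2) * Real.exp (-U x) =
          ∑ i, (∑ j, (pd (bs κ j) (pd (bs κ i) Φ) x) ^ 2) * Real.exp (-U x) := fun x => by
        rw [Finset.sum_mul]
      simp_rw [e1]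
      refine integral_finsetSum _ fun i _ => ?_
      simp_rw [pow_two]
      exact cc_int volume ((continuous_finsetSum _ fun j _ =>
        (pd_smooth (pd_smooth hΦ _) _).continuous.mul
          (pd_smooth (pd_smooth hΦ _) _).continuous).mul hw)
        (HasCompactSupport.mul_right (cs_sum _ fun j _ => (pd_supp (pd_supp hs _) _).mul_left))
    rw [h3, h4]
    exact h2
  have h1 : Z * G ≤ Z * (C * H + M * K) := by nlinarith
  have h2 : G ≤ C * H + M * K := le_of_mul_le_mul_left h1 hZ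
  have h3 : (C - M) * (a * G) ≤ (C - M) * K := mul_le_mul_of_nonneg_left hKG (by linarith)
  nlinarith

/-- duality: an energy estimate for `L Φ` gives the Poincare inequality -/
theorem dual_step {U : Eu κ → ℝ} {a C' : ℝ} (ha : 0 < a) (hU : ContDiff ℝ ∞ U) (hS : SCv U a)
    (hC'0 : 0 ≤ C')
    (hE : ∀ Φ : Eu κ → ℝ, ContDiff ℝ ∞ Φ → HasCompactSupport Φ →
      (∫ x, (∑ i, (pd (bs κ i) Φ x) ^ 2) * Real.exp (-U x)) ≤
        C' * ∫ x, Lop (bs κ) U Φ x ^ 2 * Real.exp (-U x)) : PI U C' := by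
  obtain ⟨hI, hPo⟩ := p_sci κ U a ha hU hS
  have hw : Continuous (fun x => Real.exp (-U x)) := (hU.neg.exp).continuous
  have iZ : Integrable fun x => Real.exp (-U x) := by
    have := hI 0
    simpa using this
  intro f hf hfs
  have hfc := hf.continuous
  set Z := ∫ x, Real.exp (-U x) with hZd
  have hZ : 0 < Z := integral_exp_pos iZ
  set D := ∫ x, (∑ i, (pd (bs κ i) f x) ^ 2) * Real.exp (-U x) with hD
  have hD0 : 0 ≤ D := integral_nonneg fun x =>
    mul_nonneg (Finset.sum_nonneg fun i _ => sq_nonneg _) (Real.exp_nonneg _)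
  have if1 : Integrable fun x => f x * Real.exp (-U x) := cc_int volume (hfc.mul hw) hfs.mul_right
  have if2 : Integrable fun x => f x ^ 2 * Real.exp (-U x) := by
    simp_rw [pow_two]
    exact cc_int volume ((hfc.mul hfc).mul hw) hfs.mul_right.mul_right
  obtain ⟨m, hm⟩ : ∃ m : ℝ, m = (∫ x, f x * Real.exp (-U x)) / Z := ⟨_, rfl⟩
  have hmZ : ∫ x, f x * Real.exp (-U x) = m * Z := by rw [hm, div_mul_cancel₀ _ hZ.ne']
  obtain ⟨R, hR⟩ : ∃ R : Eu κ → ℝ, R = fun x => f x - m := ⟨_, rfl⟩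
  have hRx : ∀ x, R x = f x - m := fun x => by rw [hR]
  have hRc : Continuous R := by
    rw [hR]
    exact hfc.sub continuous_const
  have iR : Integrable fun x => R x * Real.exp (-U x) := by
    have e1 : ∀ x, R x * Real.exp (-U x) = f x * Real.exp (-U x) - m * Real.exp (-U x) := fun x => by
      rw [hRx]
      ring
    simp_rw [e1]
    exact if1.sub (iZ.const_mul m)
  have hR0 : ∫ x, R x * Real.exp (-U x) = 0 := by
    have e1 : ∀ x, R x * Real.exp (-U x) = f x * Real.exp (-U x) - m * Real.exp (-U x) := fun x => by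
      rw [hRx]
      ring
    simp_rw [e1]
    rw [integral_sub if1 (iZ.const_mul m), integral_const_mul, hmZ, ← hZd, sub_self]
  have e3 : ∀ x, R x ^ 2 * Real.exp (-U x) = (f x ^ 2 * Real.exp (-U x) -
      (2 * m) * (f x * Real.exp (-U x))) + m ^ 2 * Real.exp (-U x) := fun x => by
    rw [hRx]
    ring
  have i2a : Integrable fun x => f x ^ 2 * Real.exp (-U x) - (2 * m) * (f x * Real.exp (-U x)) :=
    if2.sub (if1.const_mul _)
  have iR2 : Integrable fun x => R x ^ 2 * Real.exp (-U x) := by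
    simp_rw [e3]
    exact i2a.add (iZ.const_mul _)
  set V := ∫ x, R x ^ 2 * Real.exp (-U x) with hV
  have hV0 : 0 ≤ V := integral_nonneg fun x => mul_nonneg (sq_nonneg _) (Real.exp_nonneg _)
  have hVm : Z * V = Z * (∫ x, f x ^ 2 * Real.exp (-U x)) - (∫ x, f x * Real.exp (-U x)) ^ 2 := by
    rw [hV]
    simp_rw [e3]
    rw [integral_add i2a (iZ.const_mul _), integral_sub if2 (if1.const_mul _), integral_const_mul,
      integral_const_mul, ← hZd, hmZ]
    ring
  rw [← hVm]
  -- the hypothesis of the density lemma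
  have hyp : ∀ φ : Eu κ → ℝ, ContDiff ℝ ∞ φ → HasCompactSupport φ →
      (∫ x, φ x * R x * Real.exp (-U x)) ^ 2 ≤
        (a⁻¹ * V) * ∫ x, (∑ i, (pd (bs κ i) φ x) ^ 2) * Real.exp (-U x) := by
    intro φ hφ hφs
    have hφc := hφ.continuous
    have iφ : Integrable fun x => φ x * Real.exp (-U x) := cc_int volume (hφc.mul hw) hφs.mul_right
    have iφ2 : Integrable fun x => φ x ^ 2 * Real.exp (-U x) := by
      simp_rw [pow_two]
      exact cc_int volume ((hφc.mul hφc).mul hw) hφs.mul_right.mul_right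
    have iφR : Integrable fun x => φ x * R x * Real.exp (-U x) :=
      cc_int volume ((hφc.mul hRc).mul hw) hφs.mul_right.mul_right
    obtain ⟨t, ht⟩ : ∃ t : ℝ, t = (∫ x, φ x * Real.exp (-U x)) / Z := ⟨_, rfl⟩
    have htZ : ∫ x, φ x * Real.exp (-U x) = t * Z := by rw [ht, div_mul_cancel₀ _ hZ.ne']
    have e1 : ∀ x, (φ x - t) * R x * Real.exp (-U x) = φ x * R x * Real.exp (-U x) -
        t * (R x * Real.exp (-U x)) := fun x => by ring
    have i1 : Integrable fun x => (φ x - t) * R x * Real.exp (-U x) := by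
      simp_rw [e1]
      exact iφR.sub (iR.const_mul t)
    have e2 : ∫ x, (φ x - t) * R x * Real.exp (-U x) = ∫ x, φ x * R x * Real.exp (-U x) := by
      simp_rw [e1]
      rw [integral_sub iφR (iR.const_mul t), integral_const_mul, hR0, mul_zero, sub_zero]
    have e3 : ∀ x, (φ x - t) ^ 2 * Real.exp (-U x) = (φ x ^ 2 * Real.exp (-U x) -
        (2 * t) * (φ x * Real.exp (-U x))) + t ^ 2 * Real.exp (-U x) := fun x => by ring
    have i2a : Integrable fun x => φ x ^ 2 * Real.exp (-U x) - (2 * t) * (φ x * Real.exp (-U x)) :=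
      iφ2.sub (iφ.const_mul _)
    have i2 : Integrable fun x => (φ x - t) ^ 2 * Real.exp (-U x) := by
      simp_rw [e3]
      exact i2a.add (iZ.const_mul _)
    have e4 : Z * ∫ x, (φ x - t) ^ 2 * Real.exp (-U x) =
        Z * (∫ x, φ x ^ 2 * Real.exp (-U x)) - (∫ x, φ x * Real.exp (-U x)) ^ 2 := by
      simp_rw [e3]
      rw [integral_add i2a (iZ.const_mul _), integral_sub iφ2 (iφ.const_mul _), integral_const_mul,
        integral_const_mul, ← hZd, htZ]
      ring
    have e5 := hPo φ (sm1 hφ) hφs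
    rw [← e4] at e5
    have e6 : ∫ x, (φ x - t) ^ 2 * Real.exp (-U x) ≤
        a⁻¹ * ∫ x, ‖fderiv ℝ φ x‖ ^ 2 * Real.exp (-U x) := by
      refine le_of_mul_le_mul_left ?_ hZ
      linarith
    have e7 := wcs i2 iR2 i1
    rw [e2] at e7
    have e9 : ∀ x, ‖fderiv ℝ φ x‖ ^ 2 = ∑ i, (pd (bs κ i) φ x) ^ 2 := fun x => norm_fd _
    simp_rw [e9] at e6
    calc (∫ x, φ x * R x * Real.exp (-U x)) ^ 2 ≤ (∫ x, (φ x - t) ^ 2 * Real.exp (-U x)) * V := e7
      _ ≤ (a⁻¹ * ∫ x, (∑ i, (pd (bs κ i) φ x) ^ 2) * Real.exp (-U x)) * V :=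
          mul_le_mul_of_nonneg_right e6 hV0
      _ = _ := by ring
  set F := ∫ x, f x ^ 2 * Real.exp (-U x) with hF
  have hF0 : 0 ≤ F := integral_nonneg fun x => mul_nonneg (sq_nonneg _) (Real.exp_nonneg _)
  -- the inequality up to ε
  have hmain : ∀ ε : ℝ, 0 < ε → V ≤ Real.sqrt F * ε + Real.sqrt (D * C') * (Real.sqrt V + ε) := by
    intro ε hε
    obtain ⟨Φ, hΦ, hs, hΦε⟩ := density volume (bs κ) hU hRc iR2 (mul_nonneg (inv_nonneg.2 ha.le) hV0)
      hyp (show 0 < ε ^ 2 by positivity)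
    have hLs := Lop_smooth (bs κ) hU hΦ
    have hLc := hLs.continuous
    have hLsup : HasCompactSupport (Lop (bs κ) U Φ) := Lop_supp (bs κ) hs
    have iL2 : Integrable fun x => Lop (bs κ) U Φ x ^ 2 * Real.exp (-U x) := by
      simp_rw [pow_two]
      exact cc_int volume ((hLc.mul hLc).mul hw) hLsup.mul_right.mul_right
    have iRL : Integrable fun x => R x * Lop (bs κ) U Φ x * Real.exp (-U x) :=
      cc_int volume ((hRc.mul hLc).mul hw) hLsup.mul_left.mul_right
    have e1 : ∀ x, (R x + Lop (bs κ) U Φ x) ^ 2 * Real.exp (-U x) = (R x ^ 2 * Real.exp (-U x) +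
        2 * (R x * Lop (bs κ) U Φ x * Real.exp (-U x))) + Lop (bs κ) U Φ x ^ 2 * Real.exp (-U x) :=
      fun x => by ring
    have ir2 : Integrable fun x => (R x + Lop (bs κ) U Φ x) ^ 2 * Real.exp (-U x) := by
      simp_rw [e1]
      exact (iR2.add (iRL.const_mul 2)).add iL2
    set L := ∫ x, Lop (bs κ) U Φ x ^ 2 * Real.exp (-U x) with hL
    have hL0 : 0 ≤ L := integral_nonneg fun x => mul_nonneg (sq_nonneg _) (Real.exp_nonneg _)
    set r := ∫ x, (R x + Lop (bs κ) U Φ x) ^ 2 * Real.exp (-U x) with hr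
    have hr0 : 0 ≤ r := integral_nonneg fun x => mul_nonneg (sq_nonneg _) (Real.exp_nonneg _)
    have hrs : Real.sqrt r ≤ ε := by
      rw [← Real.sqrt_sq hε.le]
      exact Real.sqrt_le_sqrt hΦε.le
    have hLV' : Real.sqrt L ≤ Real.sqrt V + ε := by
      have h1 := wcs iR2 iL2 iRL
      rw [← hL, ← hV] at h1
      have h2 : r = V + 2 * (∫ x, R x * Lop (bs κ) U Φ x * Real.exp (-U x)) + L := by
        rw [hr]
        simp_rw [e1]
        have i12 : Integrable fun x => R x ^ 2 * Real.exp (-U x) +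
            2 * (R x * Lop (bs κ) U Φ x * Real.exp (-U x)) := iR2.add (iRL.const_mul 2)
        rw [integral_add i12 iL2, integral_add iR2 (iRL.const_mul 2), integral_const_mul]
      have h3 : (Real.sqrt L - Real.sqrt V) ^ 2 ≤ ε ^ 2 := by
        have h4 : |∫ x, R x * Lop (bs κ) U Φ x * Real.exp (-U x)| ≤ Real.sqrt V * Real.sqrt L := by
          refine abs_le_of_sq_le_sq ?_ (by positivity)
          rw [mul_pow, Real.sq_sqrt hV0, Real.sq_sqrt hL0]
          exact h1
        have h5 := neg_abs_le (∫ x, R x * Lop (bs κ) U Φ x * Real.exp (-U x))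
        have h6 := Real.sq_sqrt hV0
        have h7 := Real.sq_sqrt hL0
        nlinarith
      have h4 := abs_le_of_sq_le_sq h3 hε.le
      have h5 := le_abs_self (Real.sqrt L - Real.sqrt V)
      linarith
    -- the energy of Φ
    have hGL := hE Φ hΦ hs
    set G := ∫ x, (∑ i, (pd (bs κ i) Φ x) ^ 2) * Real.exp (-U x) with hGd
    rw [← hL] at hGL
    have hG0 : 0 ≤ G := integral_nonneg fun x =>
      mul_nonneg (Finset.sum_nonneg fun i _ => sq_nonneg _) (Real.exp_nonneg _)
    -- integration by parts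
    have hibp := ibpL volume (bs κ) (sm1 hU) (sm2 hΦ) hf (Or.inl hs)
    have ifL : Integrable fun x => f x * Lop (bs κ) U Φ x * Real.exp (-U x) :=
      cc_int volume ((hfc.mul hLc).mul hw) hLsup.mul_left.mul_right
    have ifR : Integrable fun x => f x * R x * Real.exp (-U x) :=
      cc_int volume ((hfc.mul hRc).mul hw) hfs.mul_right.mul_right
    have e2 : ∀ x, f x * (R x + Lop (bs κ) U Φ x) * Real.exp (-U x) = f x * R x * Real.exp (-U x) +
        f x * Lop (bs κ) U Φ x * Real.exp (-U x) := fun x => by ring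
    have ifr : Integrable fun x => f x * (R x + Lop (bs κ) U Φ x) * Real.exp (-U x) := by
      simp_rw [e2]
      exact ifR.add ifL
    have hVf : V = ∫ x, f x * R x * Real.exp (-U x) := by
      rw [hV]
      have e4 : ∀ x, R x ^ 2 * Real.exp (-U x) = f x * R x * Real.exp (-U x) -
          m * (R x * Real.exp (-U x)) := fun x => by
        have := hRx x
        have h2 : f x = R x + m := by linarith
        rw [h2]
        ring
      simp_rw [e4]
      rw [integral_sub ifR (iR.const_mul m), integral_const_mul, hR0, mul_zero, sub_zero]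
    have e4 : ∫ x, f x * R x * Real.exp (-U x) =
        (∫ x, f x * (R x + Lop (bs κ) U Φ x) * Real.exp (-U x)) +
        ∫ x, (∑ i, pd (bs κ i) f x * pd (bs κ i) Φ x) * Real.exp (-U x) := by
      simp_rw [e2]
      rw [integral_add ifR ifL, hibp]
      ring
    have k1 : ∫ x, f x * (R x + Lop (bs κ) U Φ x) * Real.exp (-U x) ≤ Real.sqrt F * ε := by
      have h1 := wcs if2 ir2 ifr
      rw [← hF, ← hr] at h1
      refine (le_abs_self _).trans ((abs_le_of_sq_le_sq (b := Real.sqrt F * Real.sqrt r) ?_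
        (by positivity)).trans (mul_le_mul_of_nonneg_left hrs (Real.sqrt_nonneg _)))
      rw [mul_pow, Real.sq_sqrt hF0, Real.sq_sqrt hr0]
      exact h1
    have k2 : ∫ x, (∑ i, pd (bs κ i) f x * pd (bs κ i) Φ x) * Real.exp (-U x) ≤
        Real.sqrt D * Real.sqrt G := by
      have ipf : Integrable fun x => (∑ i, (pd (bs κ i) f x) ^ 2) * Real.exp (-U x) := by
        simp_rw [pow_two]
        exact cc_int volume ((continuous_finsetSum _ fun i _ =>
          (pd_cont hf _).mul (pd_cont hf _)).mul hw)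
          (HasCompactSupport.mul_right (cs_sum _ fun i _ => (pd_supp hfs _).mul_left))
      have ipΦ : Integrable fun x => (∑ i, (pd (bs κ i) Φ x) ^ 2) * Real.exp (-U x) := by
        simp_rw [pow_two]
        exact cc_int volume ((continuous_finsetSum _ fun i _ =>
          (pd_smooth hΦ _).continuous.mul (pd_smooth hΦ _).continuous).mul hw)
          (HasCompactSupport.mul_right (cs_sum _ fun i _ => (pd_supp hs _).mul_left))
      obtain ⟨A, hA⟩ : ∃ A : Eu κ → ℝ, A = fun x => Real.sqrt (∑ i, (pd (bs κ i) f x) ^ 2) :=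
        ⟨_, rfl⟩
      obtain ⟨B, hB⟩ : ∃ B : Eu κ → ℝ, B = fun x => Real.sqrt (∑ i, (pd (bs κ i) Φ x) ^ 2) :=
        ⟨_, rfl⟩
      have hA2 : ∀ x, A x ^ 2 = ∑ i, (pd (bs κ i) f x) ^ 2 := fun x => by
        rw [hA]
        exact Real.sq_sqrt (Finset.sum_nonneg fun i _ => sq_nonneg _)
      have hB2 : ∀ x, B x ^ 2 = ∑ i, (pd (bs κ i) Φ x) ^ 2 := fun x => by
        rw [hB]
        exact Real.sq_sqrt (Finset.sum_nonneg fun i _ => sq_nonneg _)
      have hA0 : ∀ x, 0 ≤ A x := fun x => by rw [hA]; exact Real.sqrt_nonneg _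
      have hB0 : ∀ x, 0 ≤ B x := fun x => by rw [hB]; exact Real.sqrt_nonneg _
      have hAc : Continuous A := by
        rw [hA]
        exact (continuous_finsetSum _ fun i _ => (pd_cont hf _).pow 2).sqrt
      have hBc : Continuous B := by
        rw [hB]
        exact (continuous_finsetSum _ fun i _ => (pd_smooth hΦ _).continuous.pow 2).sqrt
      have hBs : HasCompactSupport B := by
        have h1 : HasCompactSupport fun x => ∑ i, (pd (bs κ i) Φ x) ^ 2 := by
          simp_rw [pow_two]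
          exact cs_sum _ fun i _ => (pd_supp hs _).mul_left
        rw [hB]
        exact h1.comp_left (g := Real.sqrt) Real.sqrt_zero
      have iAB : Integrable fun x => A x * B x * Real.exp (-U x) :=
        cc_int volume ((hAc.mul hBc).mul hw) hBs.mul_left.mul_right
      have h2 := wcs (U := U) (f := A) (g := B) (by simp_rw [hA2]; exact ipf)
        (by simp_rw [hB2]; exact ipΦ) iAB
      simp_rw [hA2, hB2] at h2
      rw [← hD, ← hGd] at h2
      have i3 : Integrable fun x => (∑ i, pd (bs κ i) f x * pd (bs κ i) Φ x) * Real.exp (-U x) :=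
        cc_int volume ((continuous_finsetSum _ fun i _ => (pd_cont hf _).mul
          (pd_smooth hΦ _).continuous).mul hw)
          (HasCompactSupport.mul_right (cs_sum _ fun i _ => (pd_supp hs _).mul_left))
      have h3 : ∫ x, (∑ i, pd (bs κ i) f x * pd (bs κ i) Φ x) * Real.exp (-U x) ≤
          ∫ x, A x * B x * Real.exp (-U x) := by
        refine integral_mono i3 iAB fun x => ?_
        refine mul_le_mul_of_nonneg_right ?_ (Real.exp_nonneg _)
        refine (le_abs_self _).trans (abs_le_of_sq_le_sq ?_ (mul_nonneg (hA0 x) (hB0 x)))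
        rw [mul_pow, hA2, hB2]
        exact Finset.sum_mul_sq_le_sq_mul_sq _ _ _
      refine h3.trans ((le_abs_self _).trans (abs_le_of_sq_le_sq ?_ (by positivity)))
      rw [mul_pow, Real.sq_sqrt hD0, Real.sq_sqrt hG0]
      exact h2
    have k3 : Real.sqrt D * Real.sqrt G ≤ Real.sqrt (D * C') * (Real.sqrt V + ε) := by
      calc Real.sqrt D * Real.sqrt G ≤ Real.sqrt D * Real.sqrt (C' * L) :=
            mul_le_mul_of_nonneg_left (Real.sqrt_le_sqrt hGL) (Real.sqrt_nonneg _)
        _ = Real.sqrt (D * C') * Real.sqrt L := by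
            rw [Real.sqrt_mul hC'0, Real.sqrt_mul hD0]
            ring
        _ ≤ _ := mul_le_mul_of_nonneg_left hLV' (Real.sqrt_nonneg _)
    linarith
  -- let ε → 0
  have hlim : V ≤ Real.sqrt (D * C') * Real.sqrt V := by
    have hc : Continuous (fun ε : ℝ => Real.sqrt F * ε + Real.sqrt (D * C') * (Real.sqrt V + ε)) := by
      fun_prop
    have h3 := (hc.tendsto 0).mono_left (nhdsWithin_le_nhds (s := Ioi (0 : ℝ)))
    simp only [mul_zero, add_zero, zero_add] at h3
    refine ge_of_tendsto h3 ?_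
    filter_upwards [self_mem_nhdsWithin] with ε h4
    exact hmain ε h4
  have hfin : V ≤ D * C' := by
    rcases eq_or_lt_of_le hV0 with h | h
    · rw [← h]
      positivity
    · have h1 : Real.sqrt V ≤ Real.sqrt (D * C') := by
        have h2 : Real.sqrt V * Real.sqrt V ≤ Real.sqrt (D * C') * Real.sqrt V := by
          rw [Real.mul_self_sqrt hV0]
          exact hlim
        exact le_of_mul_le_mul_right h2 (Real.sqrt_pos.2 h)
      exact (Real.sqrt_le_sqrt_iff (by positivity)).1 h1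
  calc Z * V ≤ Z * (D * C') := mul_le_mul_of_nonneg_left hfin hZ.le
    _ = C' * Z * D := by ring

/-- **the mean curvature inequality**, smooth potentials -/
theorem mi {U : Eu κ → ℝ} {a M : ℝ} (ha : 0 < a) (hU : ContDiff ℝ ∞ U) (hS : SCv U a)
    (hM0 : 0 ≤ M) (hGM : GM U M) : PI U M := by
  obtain ⟨hI, hPo⟩ := p_sci κ U a ha hU hS
  have iZ : Integrable fun x => Real.exp (-U x) := by
    have := hI 0
    simpa using this
  set Z := ∫ x, Real.exp (-U x) with hZd
  have hZ : 0 < Z := integral_exp_pos iZ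
  obtain ⟨T, hT⟩ : ∃ T : Set ℝ, T = {C : ℝ | 0 ≤ C ∧ PI U C} := ⟨_, rfl⟩
  have hne : T.Nonempty := by
    refine ⟨a⁻¹, ?_⟩
    rw [hT]
    refine ⟨inv_nonneg.2 ha.le, fun φ hφ hφs => ?_⟩
    have h1 := hPo φ hφ hφs
    have e9 : ∀ x, ‖fderiv ℝ φ x‖ ^ 2 = ∑ i, (pd (bs κ i) φ x) ^ 2 := fun x => norm_fd _
    simp_rw [e9] at h1
    exact h1
  have hbd : BddBelow T := ⟨0, fun C hC => by
    rw [hT] at hC
    exact hC.1⟩
  set C := sInf T with hC
  have hC0 : 0 ≤ C := le_csInf hne fun b hb => by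
    rw [hT] at hb
    exact hb.1
  have hPC : PI U C := by
    intro φ hφ hφs
    obtain ⟨A, hA⟩ : ∃ A : ℝ, A = (∫ x, Real.exp (-U x)) * (∫ x, φ x ^ 2 * Real.exp (-U x)) -
      (∫ x, φ x * Real.exp (-U x)) ^ 2 := ⟨_, rfl⟩
    obtain ⟨G, hG⟩ : ∃ G : ℝ, G = ∫ x, (∑ i, (pd (bs κ i) φ x) ^ 2) * Real.exp (-U x) := ⟨_, rfl⟩
    have hG0 : 0 ≤ G := by
      rw [hG]
      exact integral_nonneg fun x =>
        mul_nonneg (Finset.sum_nonneg fun i _ => sq_nonneg _) (Real.exp_nonneg _)
    have h1 : ∀ b ∈ T, A ≤ b * Z * G := fun b hb => by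
      rw [hT] at hb
      rw [hA, hG]
      exact hb.2 φ hφ hφs
    have h2 : A ≤ C * Z * G := by
      have h3 : ∀ δ : ℝ, 0 < δ → A ≤ (C + δ) * Z * G := fun δ hδ => by
        obtain ⟨b, hb, hb2⟩ := Real.lt_sInf_add_pos hne hδ
        refine (h1 b hb).trans ?_
        exact mul_le_mul_of_nonneg_right (mul_le_mul_of_nonneg_right hb2.le hZ.le) hG0
      have hc : Continuous (fun δ : ℝ => (C + δ) * Z * G) := by fun_prop
      have h4 := (hc.tendsto 0).mono_left (nhdsWithin_le_nhds (s := Ioi (0 : ℝ)))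
      simp only [add_zero] at h4
      refine ge_of_tendsto h4 ?_
      filter_upwards [self_mem_nhdsWithin] with δ h5
      exact h3 δ h5
    rw [← hA, ← hG]
    exact h2
  have h3 : C ≤ M := by
    by_contra hcon
    push Not at hcon
    have hCa : 0 < 1 + (C - M) * a := by nlinarith
    have hC1 : 0 < C := by linarith
    have hst : PI U (C / (1 + (C - M) * a)) := by
      refine dual_step ha hU hS (by positivity) fun Φ hΦ hs => ?_
      have h1 := energyM hU hS hI hGM hC0 hcon.le hPC Φ hΦ hs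
      rw [div_mul_eq_mul_div, le_div_iff₀ hCa]
      linarith
    have hle : C ≤ C / (1 + (C - M) * a) := csInf_le hbd (by
      rw [hT]
      exact ⟨by positivity, hst⟩)
    rw [le_div_iff₀ hCa] at hle
    nlinarith [mul_pos hC1 (mul_pos (sub_pos.2 hcon) ha)]
  intro φ hφ hφs
  refine (hPC φ hφ hφs).trans ?_
  have hG0 : 0 ≤ ∫ x, (∑ i, (pd (bs κ i) φ x) ^ 2) * Real.exp (-U x) := integral_nonneg fun x =>
        mul_nonneg (Finset.sum_nonneg fun i _ => sq_nonneg _) (Real.exp_nonneg _)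
  exact mul_le_mul_of_nonneg_right (mul_le_mul_of_nonneg_right h3 hZ.le) hG0

end

end Pool.Agent.KS6_97.Unc
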