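import Pool.Agent.KS6_97.Unc.MW
import Pool.Agent.KS6_97.Sch.Gen

/-!
# The mean curvature inequality for log-concave densities of bounded support times
`exp (-∑ √(1 + x_i²))`
-/

set_option autoImplicit false

namespace Pool.Agent.KS6_97.Unc

open MeasureTheory Set Filter Topology
open scoped ENNReal InnerProductSpace ContDiff
open Pool.Agent.H888R2.KT (LC pst gs zz gc)
open Pool.Agent.H212R2.KLS (mu Bdd)
open Pool.Agent.Q86.FIB
open Pool.Agent.Q86.EM (SCv bs p_sci)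
open Pool.Agent.Q31.EM.COL (fubz int_tendsto)
open Pool.Agent.Q190.EM (norm_fd hess_strong int_gr)
open Pool.Agent.KS6_97.Sch (PI wcs)

variable {κ : Type} [Fintype κ]

/-- compactly supported functions, `a > 0`, with a slightly larger constant -/
theorem ml_core {ρ : Eu κ → ℝ} (hρ : LC ρ) {a M M' : ℝ} (ha : 0 < a) (hM0 : 0 ≤ M)
    (hMM : M < M')
    (hM : ∀ i, ∫ x, kk (x i) ^ 3 * wa a x ∂(mu ρ) ≤ M * ∫ x, wa a x ∂(mu ρ))
    (f : Eu κ → ℝ) (hf : ContDiff ℝ 1 f) (hfs : HasCompactSupport f) :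
    (∫ x, wa a x ∂(mu ρ)) * (∫ x, f x ^ 2 * wa a x ∂(mu ρ)) -
      (∫ x, f x * wa a x ∂(mu ρ)) ^ 2 ≤
      M' * (∫ x, wa a x ∂(mu ρ)) * ∫ x, ‖fderiv ℝ f x‖ ^ 2 * wa a x ∂(mu ρ) := by
  classical
  have hgc := wa_cont (κ := κ) a
  have hfc := hf.continuous
  have hdc : Continuous fun x => ‖fderiv ℝ f x‖ := (hf.continuous_fderiv (by norm_num)).norm
  obtain ⟨B1, hB1⟩ := hfs.exists_bound_of_continuous hfc
  obtain ⟨B2, hB2⟩ := (hfs.fderiv ℝ).exists_bound_of_continuous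
    (hf.continuous_fderiv (by norm_num))
  obtain ⟨B, hBB⟩ : ∃ B : ℝ, B = max B1 B2 := ⟨_, rfl⟩
  have hB : ∀ x, |f x| ≤ B := fun x => by
    rw [hBB]
    exact (by simpa using hB1 x : |f x| ≤ B1).trans (le_max_left _ _)
  have hB' : ∀ x, ‖fderiv ℝ f x‖ ≤ B := fun x => by
    rw [hBB]
    exact (hB2 x).trans (le_max_right _ _)
  have hB0 : 0 ≤ B := (abs_nonneg _).trans (hB 0)
  have hgab : ∀ x : Eu κ, |wa a x| ≤ 1 := fun x => by
    rw [abs_of_pos (wa_pos a x)]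
    exact wa_le ha.le x
  -- bounded functions
  have bF2 : ∀ x, |f x ^ 2 * wa a x| ≤ B ^ 2 := fun x => by
    rw [abs_mul, abs_pow]
    calc |f x| ^ 2 * |wa a x| ≤ B ^ 2 * 1 :=
          mul_le_mul (pow_le_pow_left₀ (abs_nonneg _) (hB x) 2) (hgab x) (abs_nonneg _) (by positivity)
      _ = B ^ 2 := mul_one _
  have bF1 : ∀ x, |f x * wa a x| ≤ B := fun x => by
    rw [abs_mul]
    calc |f x| * |wa a x| ≤ B * 1 := mul_le_mul (hB x) (hgab x) (abs_nonneg _) hB0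
      _ = B := mul_one _
  have bFd : ∀ x, |‖fderiv ℝ f x‖ ^ 2 * wa a x| ≤ B ^ 2 := fun x => by
    rw [abs_mul, abs_pow, abs_norm]
    calc ‖fderiv ℝ f x‖ ^ 2 * |wa a x| ≤ B ^ 2 * 1 :=
          mul_le_mul (pow_le_pow_left₀ (norm_nonneg _) (hB' x) 2) (hgab x) (abs_nonneg _)
            (by positivity)
      _ = B ^ 2 := mul_one _
  have bM : ∀ (i : κ) (x : Eu κ), |kk (x i) ^ 3 * wa a x| ≤ 6 := fun i x => by
    rw [abs_of_pos (mul_pos (pow_pos (kk_pos _) 3) (wa_pos a x))]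
    exact wa_cube ha.le i x
  have hkc : ∀ i : κ, Continuous fun x : Eu κ => kk (x i) ^ 3 := fun i =>
    (kk_cont.comp (by fun_prop)).pow 3
  -- limits
  have t0 := int_tendsto hρ (fun x => wa a x) hgc 1 hgab
  have t1 := int_tendsto hρ (fun x => f x * wa a x) (by fun_prop) B bF1
  have t2 := int_tendsto hρ (fun x => f x ^ 2 * wa a x) (by fun_prop) (B ^ 2) bF2
  have t3 := int_tendsto hρ (fun x => ‖fderiv ℝ f x‖ ^ 2 * wa a x) (by fun_prop) (B ^ 2) bFd
  have tm := fun i : κ => int_tendsto hρ (fun x => kk (x i) ^ 3 * wa a x)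
    ((hkc i).mul hgc) 6 (bM i)
  have hfin := Pool.Agent.H888R2.KT.N7x.fin_mu hρ
  have intb : ∀ (F : Eu κ → ℝ) (M : ℝ), Continuous F → (∀ x, |F x| ≤ M) → Integrable F (mu ρ) :=
    fun F M hF hM => (integrable_const M).mono' hF.aestronglyMeasurable
      (Eventually.of_forall fun x => by rw [Real.norm_eq_abs]; exact hM x)
  set c0 := ∫ x, wa a x ∂(mu ρ) with hc0
  have hc0p : 0 < c0 := by
    have hne : mu ρ ≠ 0 := hρ.ne
    rw [hc0, integral_pos_iff_support_of_nonneg (fun x => (wa_pos a x).le)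
      (intb _ _ hgc hgab)]
    have : Function.support (fun x : Eu κ => wa a x) = univ := by
      ext x
      simp [(wa_pos a x).ne']
    rw [this]
    exact Measure.measure_univ_pos.2 hne
  have hev : ∀ᶠ h in 𝓝[>] (0 : ℝ), ∀ i, ∫ x, gs h (fun x => kk (x i) ^ 3 * wa a x) x ∂(mu ρ) <
      M' * ∫ x, gs h (fun x => wa a x) x ∂(mu ρ) := by
    rw [eventually_all]
    intro i
    refine (tm i).eventually_lt (t0.const_mul M') ?_
    exact lt_of_le_of_lt (hM i) (mul_lt_mul_of_pos_right hMM hc0p)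
  refine le_of_tendsto_of_tendsto ((t0.mul t2).sub (t1.pow 2))
    (((tendsto_const_nhds (x := M')).mul t0).mul t3) ?_
  filter_upwards [self_mem_nhdsWithin, hev] with h hh hevh
  have hh' : 0 < h := hh
  obtain ⟨z1, z2, z3⟩ := Pool.Agent.Q65.EM.smz κ ρ hρ h hh'
  obtain ⟨V, hV⟩ : ∃ V : Eu κ → ℝ, V = fun x => -Real.log (zz h ρ x) + a / 2 * ‖x‖ ^ 2 :=
    ⟨_, rfl⟩
  have hVs : ContDiff ℝ ∞ V := by
    rw [hV]
    exact z2.add ((contDiff_const.mul (contDiff_id.norm_sq ℝ)))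
  have hVSC : SCv V a := by
    unfold SCv
    have e : (fun x : Eu κ => V x - a / 2 * ‖x‖ ^ 2) = fun x => -Real.log (zz h ρ x) := by
      funext x
      rw [hV]
      ring
    rw [e]
    exact z3
  have hsq : ConvexOn ℝ univ fun x : Eu κ => a / 2 * ‖x‖ ^ 2 :=
    (convexOn_univ_norm.pow (fun _ _ => norm_nonneg _) 2).smul (by positivity)
  have hVc : ConvexOn ℝ univ V := by
    have h1 := hVSC.add hsq
    have e : ((fun x => V x - a / 2 * ‖x‖ ^ 2) + fun x : Eu κ => a / 2 * ‖x‖ ^ 2) = V := by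
      funext x
      simp
    rwa [e] at h1
  have hkconv : ConvexOn ℝ univ fun x : Eu κ => ∑ i, kk (x i) := by
    have h1 : ConvexOn ℝ univ kk := by
      refine convexOn_univ_of_deriv2_nonneg (kk_smooth.differentiable (by simp)) ?_ fun s => ?_
      · rw [show deriv kk = fun s => s / kk s from funext fun s => (kk_deriv s).deriv]
        exact fun s => (kk_deriv2 s).differentiableAt
      · rw [Function.iterate_succ, Function.iterate_one, Function.comp_apply,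
          show deriv kk = fun s => s / kk s from funext fun s => (kk_deriv s).deriv,
          (kk_deriv2 s).deriv]
        have := kk_pos s
        positivity
    refine ⟨convex_univ, fun x _ y _ s t hs ht hst => ?_⟩
    simp only [smul_eq_mul]
    rw [Finset.mul_sum, Finset.mul_sum, ← Finset.sum_add_distrib]
    refine Finset.sum_le_sum fun i _ => ?_
    exact h1.2 (mem_univ (x i)) (mem_univ (y i)) hs ht hst
  set U : Eu κ → ℝ := fun x => V x + ∑ i, kk (x i) with hU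
  have hUs : ContDiff ℝ ∞ U := hVs.add sum_kk_smooth
  have hUc : SCv U a := by
    unfold SCv
    have e : (fun x : Eu κ => U x - a / 2 * ‖x‖ ^ 2) =
        (fun x => V x - a / 2 * ‖x‖ ^ 2) + fun x => ∑ i, kk (x i) := by
      funext x
      simp only [hU, Pi.add_apply]
      ring
    rw [e]
    exact hVSC.add hkconv
  have hexp : ∀ x, Real.exp (-U x) = wa a x * zz h ρ x := by
    intro x
    simp only [hU, hV, wa]
    rw [← Real.exp_log (z1 x), ← Real.exp_add, Real.exp_log (z1 x)]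
    congr 1
    ring
  have hg := (Pool.Agent.H888R2.KT.gc_pos (κ := κ) h hh').1
  set G := gc κ h
  have eF : ∀ (F : Eu κ → ℝ) (M : ℝ), Continuous F → (∀ x, |F x * wa a x| ≤ M) →
      ∫ x, F x * Real.exp (-U x) = G * ∫ x, gs h (fun x => F x * wa a x) x ∂(mu ρ) := by
    intro F M hF hM
    rw [← fubz hρ h hh' (fun x => F x * wa a x) (by fun_prop) M hM]
    refine integral_congr_ae (Eventually.of_forall fun x => ?_)
    simp only [hexp]
    ring
  have e0 : ∫ x, Real.exp (-U x) = G * ∫ x, gs h (fun x => wa a x) x ∂(mu ρ) := by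
    rw [← fubz hρ h hh' (fun x => wa a x) hgc 1 hgab]
    refine integral_congr_ae (Eventually.of_forall fun x => ?_)
    simp only [hexp]
  obtain ⟨hI, -⟩ := p_sci κ U a ha hUs hUc
  have hGM : GM U M' := by
    refine gm_of hVs hVc hI (hM0.trans hMM.le) fun i => ?_
    have e1 := eF (fun x => kk (x i) ^ 3) 6 (hkc i) (bM i)
    have h1 := mul_le_mul_of_nonneg_left (hevh i).le hg.le
    show ∫ x, kk (x i) ^ 3 * Real.exp (-U x) ≤ M' * ∫ x, Real.exp (-U x)
    rw [e1, e0]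
    linarith
  have hil := mi ha hUs hUc (hM0.trans hMM.le) hGM f hf hfs
  have e9 : ∀ x, ‖fderiv ℝ f x‖ ^ 2 = ∑ i, (pd (bs κ i) f x) ^ 2 := fun x => norm_fd _
  simp_rw [← e9] at hil
  rw [e0, eF (fun x => f x ^ 2) _ (by fun_prop) bF2, eF f _ hfc bF1,
    eF (fun x => ‖fderiv ℝ f x‖ ^ 2) _ (by fun_prop) bFd] at hil
  set I1 := ∫ x, gs h (fun x => wa a x) x ∂(mu ρ)
  set I2 := ∫ x, gs h (fun x => f x ^ 2 * wa a x) x ∂(mu ρ)
  set I3 := ∫ x, gs h (fun x => f x * wa a x) x ∂(mu ρ)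
  set I4 := ∫ x, gs h (fun x => ‖fderiv ℝ f x‖ ^ 2 * wa a x) x ∂(mu ρ)
  have q1 : G * I1 * (G * I2) - (G * I3) ^ 2 = G ^ 2 * (I1 * I2 - I3 ^ 2) := by ring
  have q2 : M' * (G * I1) * (G * I4) = G ^ 2 * (M' * I1 * I4) := by ring
  rw [q1, q2] at hil
  exact le_of_mul_le_mul_left hil (by positivity)

/-- all `C¹` functions, `a > 0` -/
theorem ml_a {ρ : Eu κ → ℝ} (hρ : LC ρ) {a M : ℝ} (ha : 0 < a) (hM0 : 0 ≤ M)
    (hM : ∀ i, ∫ x, kk (x i) ^ 3 * wa a x ∂(mu ρ) ≤ M * ∫ x, wa a x ∂(mu ρ))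
    (f : Eu κ → ℝ) (hf : ContDiff ℝ 1 f) :
    (∫ x, wa a x ∂(mu ρ)) * (∫ x, f x ^ 2 * wa a x ∂(mu ρ)) -
      (∫ x, f x * wa a x ∂(mu ρ)) ^ 2 ≤
      M * (∫ x, wa a x ∂(mu ρ)) * ∫ x, ‖fderiv ℝ f x‖ ^ 2 * wa a x ∂(mu ρ) := by
  obtain ⟨R, hR0, hR⟩ := Pool.Agent.H888R2.KT.N3x.ae_bdd hρ
  let χ : ContDiffBump (0 : Eu κ) := ⟨R + 1, R + 2, by linarith, by linarith⟩
  set v : Eu κ → ℝ := fun x => χ x * f x with hv
  have hvd : ContDiff ℝ 1 v := by
    rw [hv]
    exact χ.contDiff.mul hf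
  have hvs : HasCompactSupport v := χ.hasCompactSupport.mul_right
  have hone : ∀ x : Eu κ, ‖x‖ ≤ R → v =ᶠ[𝓝 x] f := by
    intro x hx
    have : ∀ᶠ y in 𝓝 x, ‖y‖ < R + 1 :=
      continuous_norm.continuousAt.eventually_lt continuousAt_const (by linarith)
    filter_upwards [this] with y hy
    have h5 : χ y = 1 := χ.one_of_mem_closedBall (by
      rw [mem_closedBall_zero_iff]
      exact hy.le)
    simp only [hv, h5, one_mul]
  have i1 : ∫ x, v x ^ 2 * wa a x ∂(mu ρ) = ∫ x, f x ^ 2 * wa a x ∂(mu ρ) := by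
    refine integral_congr_ae ?_
    filter_upwards [hR] with x hx
    rw [(hone x hx).eq_of_nhds]
  have i3 : ∫ x, v x * wa a x ∂(mu ρ) = ∫ x, f x * wa a x ∂(mu ρ) := by
    refine integral_congr_ae ?_
    filter_upwards [hR] with x hx
    rw [(hone x hx).eq_of_nhds]
  have i5 : ∫ x, ‖fderiv ℝ v x‖ ^ 2 * wa a x ∂(mu ρ) =
      ∫ x, ‖fderiv ℝ f x‖ ^ 2 * wa a x ∂(mu ρ) := by
    refine integral_congr_ae ?_
    filter_upwards [hR] with x hx
    rw [(hone x hx).fderiv_eq]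
  rw [← i1, ← i3, ← i5]
  have hc : Continuous (fun s' : ℝ => s' * (∫ x, wa a x ∂(mu ρ)) *
      ∫ x, ‖fderiv ℝ v x‖ ^ 2 * wa a x ∂(mu ρ)) := by fun_prop
  have h3 := (hc.tendsto M).mono_left (nhdsWithin_le_nhds (s := Ioi M))
  refine ge_of_tendsto h3 ?_
  filter_upwards [self_mem_nhdsWithin] with s' hs'
  exact ml_core hρ ha hM0 hs' hM v hvd hvs

theorem Wt_pos (x : Eu κ) : 0 < Wt x := Real.exp_pos _

/-- **the mean curvature inequality** for log-concave densities of bounded support times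
`exp (-∑ √(1 + x_i²))` -/
theorem ml {ρ : Eu κ → ℝ} (hρ : LC ρ) {M : ℝ} (hM0 : 0 ≤ M)
    (hM : ∀ i, ∫ x, kk (x i) ^ 3 * Wt x ∂(mu ρ) ≤ M * ∫ x, Wt x ∂(mu ρ))
    (f : Eu κ → ℝ) (hf : ContDiff ℝ 1 f) :
    (∫ x, Wt x ∂(mu ρ)) * (∫ x, f x ^ 2 * Wt x ∂(mu ρ)) -
      (∫ x, f x * Wt x ∂(mu ρ)) ^ 2 ≤
      M * (∫ x, Wt x ∂(mu ρ)) * ∫ x, ‖fderiv ℝ f x‖ ^ 2 * Wt x ∂(mu ρ) := by
  obtain ⟨R, hR0, hR⟩ := Pool.Agent.H888R2.KT.N3x.ae_bdd hρ
  have hfin := Pool.Agent.H888R2.KT.N7x.fin_mu hρ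
  have hbs := Pool.Agent.KS6_97.Sch.bs_lc hρ
  have hWc : Continuous (Wt (κ := κ)) := by
    have := wa_cont (κ := κ) 0
    have e : wa (κ := κ) 0 = Wt := funext wa_zero
    rwa [e] at this
  -- the integrals converge as `a → 0`
  have key : ∀ F : Eu κ → ℝ, Continuous F →
      Tendsto (fun a : ℝ => ∫ x, F x * wa a x ∂(mu ρ)) (𝓝[>] 0) (𝓝 (∫ x, F x * Wt x ∂(mu ρ))) := by
    intro F hF
    refine tendsto_integral_filter_of_dominated_convergence (fun x => |F x|) ?_ ?_ ?_ ?_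
    · exact Eventually.of_forall fun a => (hF.mul (wa_cont a)).aestronglyMeasurable
    · filter_upwards [self_mem_nhdsWithin] with a ha
      have ha' : (0 : ℝ) < a := ha
      refine Eventually.of_forall fun x => ?_
      rw [norm_mul, Real.norm_eq_abs, Real.norm_eq_abs, abs_of_pos (wa_pos a x)]
      exact mul_le_of_le_one_right (abs_nonneg _) (wa_le ha'.le x)
    · exact (hbs.integrable hF).abs
    · refine Eventually.of_forall fun x => ?_
      have h1 : Continuous fun a : ℝ => F x * wa a x := by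
        unfold wa
        fun_prop
      have h2 := (h1.tendsto 0).mono_left (nhdsWithin_le_nhds (s := Ioi (0 : ℝ)))
      rwa [wa_zero] at h2
  have k0 := key (fun _ => 1) continuous_const
  simp only [one_mul] at k0
  have k1 := key f hf.continuous
  have k2 := key (fun x => f x ^ 2) (hf.continuous.pow 2)
  have k3 := key (fun x => ‖fderiv ℝ f x‖ ^ 2) ((hf.continuous_fderiv (by norm_num)).norm.pow 2)
  have km : ∀ i : κ, _ := fun i : κ => key (fun x => kk (x i) ^ 3) ((kk_cont.comp (by fun_prop)).pow 3)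
  have hne : mu ρ ≠ 0 := hρ.ne
  have hW0 : 0 < ∫ x, Wt x ∂(mu ρ) := by
    rw [integral_pos_iff_support_of_nonneg (fun x => (Wt_pos x).le) (hbs.integrable hWc)]
    have : Function.support (Wt (κ := κ)) = univ := by
      ext x
      simp [(Wt_pos x).ne']
    rw [this]
    exact Measure.measure_univ_pos.2 hne
  have main : ∀ M' : ℝ, M < M' → (∫ x, Wt x ∂(mu ρ)) * (∫ x, f x ^ 2 * Wt x ∂(mu ρ)) -
      (∫ x, f x * Wt x ∂(mu ρ)) ^ 2 ≤
      M' * (∫ x, Wt x ∂(mu ρ)) * ∫ x, ‖fderiv ℝ f x‖ ^ 2 * Wt x ∂(mu ρ) := by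
    intro M' hM'
    refine le_of_tendsto_of_tendsto ((k0.mul k2).sub (k1.pow 2))
      (((tendsto_const_nhds (x := M')).mul k0).mul k3) ?_
    have hev : ∀ᶠ a in 𝓝[>] (0 : ℝ), ∀ i, ∫ x, kk (x i) ^ 3 * wa a x ∂(mu ρ) <
        M' * ∫ x, wa a x ∂(mu ρ) := by
      rw [eventually_all]
      intro i
      refine (km i).eventually_lt (k0.const_mul M') ?_
      exact lt_of_le_of_lt (hM i) (mul_lt_mul_of_pos_right hM' hW0)
    filter_upwards [self_mem_nhdsWithin, hev] with a ha hev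
    exact ml_a hρ ha (hM0.trans hM'.le) (fun i => (hev i).le) f hf
  have hc : Continuous (fun s' : ℝ => s' * (∫ x, Wt x ∂(mu ρ)) *
      ∫ x, ‖fderiv ℝ f x‖ ^ 2 * Wt x ∂(mu ρ)) := by fun_prop
  have h3 := (hc.tendsto M).mono_left (nhdsWithin_le_nhds (s := Ioi M))
  refine ge_of_tendsto h3 ?_
  filter_upwards [self_mem_nhdsWithin] with s' hs'
  exact main s' hs'

end Pool.Agent.KS6_97.Unc
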