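import Pool.Agent.KS6_97.Unc.DG

/-!
# JOB ORT, part (c): `E x_i² ≤ 4 Var x_i` for nonincreasing densities on the orthant (helper6)
-/

set_option autoImplicit false

namespace Pool.Agent.KS6_97.Unc

open MeasureTheory Set Filter Topology
open scoped ENNReal InnerProductSpace ContDiff
open Pool.Agent.H212R2.KLS (mu Bdd)

variable {κ : Type} [Fintype κ] [DecidableEq κ]

/-- `L_i = t`, `L_j = 1` for `j ≠ i` -/
noncomputable def l1 (i : κ) (t : ℝ) (j : κ) : ℝ := if j = i then t else 1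

theorem l1_pos (i : κ) {t : ℝ} (ht : 0 < t) (j : κ) : 0 < l1 i t j := by
  unfold l1; split_ifs
  · exact ht
  · exact one_pos

theorem l1_prod (i : κ) (t : ℝ) : ∏ j, l1 i t j = t := by
  unfold l1
  rw [Finset.prod_ite_eq' Finset.univ i (fun _ => t)]
  simp

/-- contraction of one coordinate -/
theorem l1_le {ρ : Eu κ → ℝ} (hn : ∀ x, 0 ≤ ρ x) (ho : Orth ρ) (i : κ) {t : ℝ} (ht0 : 0 < t)
    (ht1 : t ≤ 1) (x : Eu κ) : ρ x ≤ ρ (dl (l1 i t) x) := by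
  by_cases hx : ∃ j, x j < 0
  · rw [ho.supp x hx]
    exact hn _
  · push Not at hx
    refine ho.anti _ _ (fun j => ?_) fun j => ?_
    · rw [dl_apply]
      exact mul_nonneg (l1_pos i ht0 j).le (hx j)
    · rw [dl_apply]
      have h1 : l1 i t j ≤ 1 := by
        unfold l1; split_ifs
        · exact ht1
        · exact le_rfl
      exact mul_le_of_le_one_left (hx j) h1

theorem l1_meas_le {ρ : Eu κ → ℝ} (hn : ∀ x, 0 ≤ ρ x) (ho : Orth ρ) (i : κ)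
    {t : ℝ} (ht0 : 0 < t) (ht1 : t ≤ 1) (hm : Measurable ρ) :
    ENNReal.ofReal t • mu ρ ≤ mu (dg ρ (l1 i t)) := by
  unfold mu
  rw [← withDensity_smul _ hm.ennreal_ofReal]
  refine withDensity_mono (Eventually.of_forall fun x => ?_)
  show ENNReal.ofReal t * ENNReal.ofReal (ρ x) ≤ ENNReal.ofReal (dg ρ (l1 i t) x)
  rw [← ENNReal.ofReal_mul ht0.le]
  refine ENNReal.ofReal_le_ofReal ?_
  unfold dg
  rw [l1_prod]
  exact mul_le_mul_of_nonneg_left (l1_le hn ho i ht0 ht1 x) ht0.le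

theorem orth_step {ρ : Eu κ → ℝ} (hm : Measurable ρ) (hn : ∀ x, 0 ≤ ρ x) (ho : Orth ρ)
    [IsProbabilityMeasure (mu ρ)] (i : κ) (hi : MemLp (fun x : Eu κ => x i) 2 (mu ρ))
    {t : ℝ} (ht0 : 0 < t) (ht1 : t ≤ 1) (a : ℝ) :
    t * ((∫ x, x i ^ 2 ∂(mu ρ)) - 2 * a * (∫ x, x i ∂(mu ρ)) + a ^ 2) ≤
      (t⁻¹) ^ 2 * (∫ x, x i ^ 2 ∂(mu ρ)) - 2 * a * t⁻¹ * (∫ x, x i ∂(mu ρ)) + a ^ 2 := by
  have i1 : Integrable (fun x : Eu κ => x i) (mu ρ) := hi.integrable one_le_two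
  have i2 : Integrable (fun x : Eu κ => x i ^ 2) (mu ρ) := hi.integrable_sq
  have hexp : ∀ b : ℝ, ∫ x : Eu κ, (b * x i - a) ^ 2 ∂(mu ρ) =
      b ^ 2 * (∫ x, x i ^ 2 ∂(mu ρ)) - 2 * a * b * (∫ x, x i ∂(mu ρ)) + a ^ 2 := by
    intro b
    have e : ∀ x : Eu κ, (b * x i - a) ^ 2 = (b ^ 2 * x i ^ 2 - (2 * a * b) * x i) + a ^ 2 :=
      fun x => by ring
    simp_rw [e]
    have i3 : Integrable (fun x : Eu κ => b ^ 2 * x i ^ 2 - (2 * a * b) * x i) (mu ρ) :=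
      (i2.const_mul _).sub (i1.const_mul _)
    rw [integral_add i3 (integrable_const _), integral_sub (i2.const_mul _) (i1.const_mul _),
      integral_const_mul, integral_const_mul, integral_const]
    simp
  have hintb : ∀ b : ℝ, Integrable (fun x : Eu κ => (b * x i - a) ^ 2) (mu ρ) := by
    intro b
    have e : (fun x : Eu κ => (b * x i - a) ^ 2) =
        fun x : Eu κ => (b ^ 2 * x i ^ 2 - (2 * a * b) * x i) + a ^ 2 := by
      funext x; ring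
    rw [e]
    exact ((i2.const_mul _).sub (i1.const_mul _)).add (integrable_const _)
  have hL := l1_pos i ht0
  have hli : l1 i t i = t := by unfold l1; simp
  have h1 : ∫ y, (y i - a) ^ 2 ∂(mu (dg ρ (l1 i t))) = ∫ x : Eu κ, (t⁻¹ * x i - a) ^ 2 ∂(mu ρ) := by
    rw [dg_int hm hL (F := fun y : Eu κ => (y i - a) ^ 2) (by fun_prop)]
    refine integral_congr_ae (Eventually.of_forall fun x => ?_)
    simp only [dl_apply, hli]
  have h2 : Integrable (fun y : Eu κ => (y i - a) ^ 2) (mu (dg ρ (l1 i t))) := by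
    have := dg_integrable hm hL (F := fun x : Eu κ => (t⁻¹ * x i - a) ^ 2) (by fun_prop) (hintb _)
    refine this.congr (Eventually.of_forall fun y => ?_)
    simp only [dl_apply, hli]
    rw [← mul_assoc, inv_mul_cancel₀ ht0.ne', one_mul]
  have h3 := integral_mono_measure (l1_meas_le hn ho i ht0 ht1 hm)
    (Eventually.of_forall fun x => sq_nonneg (x i - a)) h2
  rw [integral_smul_measure, ENNReal.toReal_ofReal ht0.le, smul_eq_mul, h1, hexp] at h3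
  have h4 := hexp 1
  simp only [one_mul, one_pow, mul_one] at h4
  rw [h4] at h3
  exact h3

/-- `(E x_i)² ≤ (3/4) E x_i²` for densities which are nonincreasing on the orthant -/
theorem orth_mean {ρ : Eu κ → ℝ} (hm : Measurable ρ) (hn : ∀ x, 0 ≤ ρ x) (ho : Orth ρ)
    [IsProbabilityMeasure (mu ρ)] (i : κ) (hi : MemLp (fun x : Eu κ => x i) 2 (mu ρ)) :
    4 * (∫ x, x i ∂(mu ρ)) ^ 2 ≤ 3 * ∫ x, x i ^ 2 ∂(mu ρ) := by
  set m1 := ∫ x, x i ∂(mu ρ) with hm1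
  set m2 := ∫ x, x i ^ 2 ∂(mu ρ) with hm2
  have key : ∀ t : ℝ, 0 < t → t < 1 → 4 * m1 ^ 2 * t ≤ m2 * (1 + t + t ^ 2) := by
    intro t ht0 ht1
    have h1 := orth_step hm hn ho i hi ht0 ht1.le (2 * m1)
    rw [← hm1, ← hm2] at h1
    have h2 := mul_le_mul_of_nonneg_left h1 (sq_nonneg t)
    have e1 : t ^ 2 * ((t⁻¹) ^ 2 * m2 - 2 * (2 * m1) * t⁻¹ * m1 + (2 * m1) ^ 2) =
        m2 - 4 * m1 ^ 2 * t + 4 * m1 ^ 2 * t ^ 2 := by
      field_simp; ring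
    have e2 : t ^ 2 * (t * (m2 - 2 * (2 * m1) * m1 + (2 * m1) ^ 2)) = t ^ 3 * m2 := by ring
    rw [e1, e2] at h2
    have h3 : (1 - t) * (4 * m1 ^ 2 * t) ≤ (1 - t) * (m2 * (1 + t + t ^ 2)) := by
      have e3 : (1 - t) * (m2 * (1 + t + t ^ 2)) = m2 - t ^ 3 * m2 := by ring
      rw [e3]
      linarith [h2, show (1 - t) * (4 * m1 ^ 2 * t) = 4 * m1 ^ 2 * t - 4 * m1 ^ 2 * t ^ 2 by ring]
    exact le_of_mul_le_mul_left h3 (by linarith)
  have hc1 : Continuous fun t : ℝ => 4 * m1 ^ 2 * t := by fun_prop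
  have hc2 : Continuous fun t : ℝ => m2 * (1 + t + t ^ 2) := by fun_prop
  have h1 : Tendsto (fun t : ℝ => 4 * m1 ^ 2 * t) (𝓝[<] 1) (𝓝 (4 * m1 ^ 2 * 1)) :=
    (hc1.tendsto 1).mono_left nhdsWithin_le_nhds
  have h2 : Tendsto (fun t : ℝ => m2 * (1 + t + t ^ 2)) (𝓝[<] 1) (𝓝 (m2 * (1 + 1 + 1 ^ 2))) :=
    (hc2.tendsto 1).mono_left nhdsWithin_le_nhds
  have h3 := le_of_tendsto_of_tendsto h1 h2 (by
    have h4 : ∀ᶠ t : ℝ in 𝓝[<] 1, 0 < t :=
      (eventually_gt_nhds (by norm_num : (0 : ℝ) < 1)).filter_mono nhdsWithin_le_nhds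
    filter_upwards [self_mem_nhdsWithin, h4] with t ht ht0
    exact key t ht0 ht)
  linarith

/-- **`E x_i² ≤ 4 Var x_i`** -/
theorem orth_var {ρ : Eu κ → ℝ} (hm : Measurable ρ) (hn : ∀ x, 0 ≤ ρ x) (ho : Orth ρ)
    [IsProbabilityMeasure (mu ρ)] (i : κ) (hi : MemLp (fun x : Eu κ => x i) 2 (mu ρ)) :
    ∫ x, x i ^ 2 ∂(mu ρ) ≤ 4 * ((∫ x, x i ^ 2 ∂(mu ρ)) - (∫ x, x i ∂(mu ρ)) ^ 2) := by
  have := orth_mean hm hn ho i hi
  linarith

end Pool.Agent.KS6_97.Unc
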