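import Pool.Agent.KS6_97.Unc.MI
import Pool.Agent.KS6_97.Unc.Defs

/-!
# The mean curvature inequality for log-concave densities times `exp (-∑ √(1 + x_i²))`
-/

set_option autoImplicit false

namespace Pool.Agent.KS6_97.Unc

open MeasureTheory Set Filter Topology
open scoped ENNReal InnerProductSpace ContDiff
open Pool.Agent.H888R2.KT (LC pst gs zz gc)
open Pool.Agent.H212R2.KLS (mu Bdd)
open Pool.Agent.Q86.FIB
open Pool.Agent.Q86.EM (SCv bs p_sci)
open Pool.Agent.Q31.EM.COL (fubz int_tendsto)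
open Pool.Agent.Q190.EM (norm_fd hess_strong int_gr)
open Pool.Agent.KS6_97.Sch (PI wcs)

/-- `√(1 + s²)` -/
noncomputable def kk (s : ℝ) : ℝ := √(1 + s ^ 2)

theorem kk_pos (s : ℝ) : 0 < kk s := Real.sqrt_pos.2 (by positivity)

theorem kk_sq (s : ℝ) : kk s ^ 2 = 1 + s ^ 2 := Real.sq_sqrt (by positivity)

theorem kk_one (s : ℝ) : 1 ≤ kk s := by
  rw [← Real.sqrt_one]
  exact Real.sqrt_le_sqrt (by nlinarith [sq_nonneg s])

theorem kk_le (s : ℝ) : kk s ≤ 1 + |s| := by
  unfold kk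
  rw [Real.sqrt_le_left (by positivity)]
  nlinarith [abs_nonneg s, sq_abs s]

theorem kk_smooth : ContDiff ℝ ∞ kk := by
  unfold kk
  exact (contDiff_const.add (contDiff_id.pow 2)).sqrt fun x => (by positivity)

theorem kk_cont : Continuous kk := kk_smooth.continuous

theorem kk_deriv (s : ℝ) : HasDerivAt kk (s / kk s) s := by
  have h1 : HasDerivAt (fun s : ℝ => 1 + s ^ 2) (2 * s) s := by
    simpa using (hasDerivAt_pow 2 s).const_add 1
  have h2 := h1.sqrt (by positivity)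
  have e : 2 * s / (2 * √(1 + s ^ 2)) = s / kk s := by
    unfold kk
    rw [mul_div_mul_left _ _ two_ne_zero]
  rw [e] at h2
  exact h2

theorem kk_deriv2 (s : ℝ) : HasDerivAt (fun s => s / kk s) (1 / kk s ^ 3) s := by
  have h := (hasDerivAt_id s).div (kk_deriv s) (kk_pos s).ne'
  have h1 := kk_sq s
  have h2 := kk_pos s
  have e : (1 * kk s - id s * (s / kk s)) / kk s ^ 2 = 1 / kk s ^ 3 := by
    have h3 : 1 * kk s - id s * (s / kk s) = 1 / kk s := by
      show 1 * kk s - s * (s / kk s) = 1 / kk s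
      field_simp
      linarith
    rw [h3]
    field_simp
  rw [e] at h
  exact h

theorem kk_cube_exp (s : ℝ) : kk s ^ 3 * Real.exp (-kk s) ≤ 6 := by
  have h1 := Real.pow_div_factorial_le_exp (kk s) (kk_pos s).le 3
  have h2 : ((3 : ℕ).factorial : ℝ) = 6 := by norm_num [Nat.factorial]
  rw [h2, div_le_iff₀ (by norm_num)] at h1
  rw [Real.exp_neg, ← div_eq_mul_inv, div_le_iff₀ (Real.exp_pos _)]
  linarith

section

variable {κ : Type} [Fintype κ]

/-- the weight `exp (-∑ √(1 + x_i²) - a ‖x‖² / 2)` -/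
noncomputable def wa (a : ℝ) (x : Eu κ) : ℝ := Real.exp (-(∑ i, kk (x i)) - a / 2 * ‖x‖ ^ 2)

theorem wa_pos (a : ℝ) (x : Eu κ) : 0 < wa a x := Real.exp_pos _

theorem sum_kk_smooth : ContDiff ℝ ∞ fun x : Eu κ => ∑ i, kk (x i) := by
  refine ContDiff.sum fun i _ => kk_smooth.comp ?_
  fun_prop

theorem wa_smooth (a : ℝ) : ContDiff ℝ ∞ (wa (κ := κ) a) := by
  unfold wa
  exact (sum_kk_smooth.neg.sub (contDiff_const.mul (contDiff_id.norm_sq ℝ))).exp

theorem wa_cont (a : ℝ) : Continuous (wa (κ := κ) a) := (wa_smooth a).continuous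

theorem wa_le {a : ℝ} (ha : 0 ≤ a) (x : Eu κ) : wa a x ≤ 1 := by
  unfold wa
  rw [Real.exp_le_one_iff]
  have h1 : 0 ≤ ∑ i, kk (x i) := Finset.sum_nonneg fun i _ => (kk_pos _).le
  have h2 : 0 ≤ a / 2 * ‖x‖ ^ 2 := by positivity
  linarith

theorem wa_cube {a : ℝ} (ha : 0 ≤ a) (i : κ) (x : Eu κ) : kk (x i) ^ 3 * wa a x ≤ 6 := by
  have h1 : wa a x ≤ Real.exp (-kk (x i)) := by
    unfold wa
    refine Real.exp_le_exp.2 ?_
    have h1 : kk (x i) ≤ ∑ i, kk (x i) :=
      Finset.single_le_sum (f := fun i => kk (x i)) (fun i _ => (kk_pos _).le) (Finset.mem_univ i)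
    have h2 : 0 ≤ a / 2 * ‖x‖ ^ 2 := by positivity
    linarith
  exact (mul_le_mul_of_nonneg_left h1 (by have := kk_pos (x i); positivity)).trans
    (kk_cube_exp (x i))

theorem wa_zero (x : Eu κ) : wa 0 x = Wt x := by
  unfold wa Wt kk
  simp

variable [DecidableEq κ]

omit [DecidableEq κ] in
theorem coord_smooth (i : κ) : ContDiff ℝ ∞ fun x : Eu κ => x i := by fun_prop

theorem pd_coord (i j : κ) (x : Eu κ) : pd (bs κ i) (fun x : Eu κ => x j) x =
    if i = j then 1 else 0 := by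
  have e : (fun x : Eu κ => x j) = fun x => ⟪bs κ j, x⟫_ℝ := by
    funext y
    unfold bs
    rw [EuclideanSpace.inner_single_left]
    simp
  rw [e, Pool.Agent.Q190.EM.pd_inner, Pool.Agent.Q190.EM.inner_bs]
  simp [eq_comm]

theorem pd_comp {φ φ' : ℝ → ℝ} (hφ : ∀ s, HasDerivAt φ (φ' s) s) (i j : κ) (x : Eu κ) :
    pd (bs κ i) (fun x : Eu κ => φ (x j)) x = if i = j then φ' (x j) else 0 := by
  have h1 : HasFDerivAt (fun x : Eu κ => x j) (fderiv ℝ (fun x : Eu κ => x j) x) x :=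
    ((coord_smooth j).differentiable (by simp) x).hasFDerivAt
  have h2 := (hφ (x j)).comp_hasFDerivAt x h1
  have h3 : fderiv ℝ (fun x : Eu κ => φ (x j)) x = φ' (x j) • fderiv ℝ (fun x : Eu κ => x j) x :=
    h2.fderiv
  have h4 := pd_coord i j x
  unfold pd at h4 ⊢
  rw [h3, _root_.smul_apply, h4, smul_eq_mul]
  split_ifs <;> simp

/-- Hessian of the weight -/
theorem hess_kk (i j : κ) (x : Eu κ) :
    pd (bs κ i) (pd (bs κ j) fun x : Eu κ => ∑ k, kk (x k)) x =
      if i = j then 1 / kk (x j) ^ 3 else 0 := by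
  have hs : ∀ k : κ, ContDiff ℝ 1 fun x : Eu κ => kk (x k) := fun k =>
    (kk_smooth.of_le (by simp)).comp ((coord_smooth k).of_le (by simp))
  have e1 : pd (bs κ j) (fun x : Eu κ => ∑ k, kk (x k)) = fun x => x j / kk (x j) := by
    funext y
    rw [pd_sum Finset.univ (f := fun k (x : Eu κ) => kk (x k)) (fun k _ => hs k)]
    simp_rw [pd_comp kk_deriv]
    simp
  rw [e1, pd_comp kk_deriv2]

/-- the potential `V + ∑ √(1 + x_i²)` satisfies the hypothesis of the mean curvature inequality -/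
theorem gm_of {V : Eu κ → ℝ} {M : ℝ} (hV : ContDiff ℝ ∞ V) (hc : ConvexOn ℝ univ V)
    (hI : ∀ m : ℕ, Integrable fun x => (1 + ‖x‖) ^ m * Real.exp (-(V x + ∑ i, kk (x i))))
    (hM0 : 0 ≤ M)
    (hM : ∀ i, ∫ x, kk (x i) ^ 3 * Real.exp (-(V x + ∑ i, kk (x i))) ≤
      M * ∫ x, Real.exp (-(V x + ∑ i, kk (x i)))) :
    GM (fun x => V x + ∑ i, kk (x i)) M := by
  intro Φ hΦ hs
  set U : Eu κ → ℝ := fun x => V x + ∑ i, kk (x i) with hU
  have hUs : ContDiff ℝ ∞ U := hV.add sum_kk_smooth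
  have hw : Continuous (fun x => Real.exp (-U x)) := (hUs.neg.exp).continuous
  set Z := ∫ x, Real.exp (-U x) with hZ
  -- Cauchy-Schwarz
  obtain ⟨q, hq⟩ : ∃ q : κ → Eu κ → ℝ, q = fun i x => √(kk (x i) ^ 3) := ⟨_, rfl⟩
  have hq0 : ∀ i x, 0 < q i x := fun i x => by
    rw [hq]
    exact Real.sqrt_pos.2 (pow_pos (kk_pos _) 3)
  have hq2 : ∀ i x, q i x ^ 2 = kk (x i) ^ 3 := fun i x => by
    rw [hq]
    exact Real.sq_sqrt (pow_pos (kk_pos _) 3).le
  have hqc : ∀ i, Continuous (q i) := fun i => by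
    rw [hq]
    exact ((kk_cont.comp (by fun_prop)).pow 3).sqrt
  have hpdc : ∀ i, Continuous (pd (bs κ i) Φ) := fun i => (pd_smooth hΦ _).continuous
  have hmi : ∀ i, Integrable fun x : Eu κ => q i x ^ 2 * Real.exp (-U x) := fun i => by
    refine int_gr hUs hI (f := fun x => q i x ^ 2) ((hqc i).pow 2) (C := 1) (m := 3) fun x => ?_
    rw [hq2, one_mul, abs_of_pos (pow_pos (kk_pos _) 3)]
    refine pow_le_pow_left₀ (kk_pos _).le ((kk_le _).trans ?_) 3
    have h1 : |x i| ≤ ‖x‖ := by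
      have := EuclideanSpace.norm_sq_eq x
      refine abs_le_of_sq_le_sq ?_ (norm_nonneg _)
      rw [this]
      have h1 := Finset.single_le_sum (f := fun j => ‖x j‖ ^ 2) (fun j _ => sq_nonneg _)
        (Finset.mem_univ i)
      simpa using h1
    linarith
  have hdi : ∀ i, Integrable fun x : Eu κ => (pd (bs κ i) Φ x / q i x) ^ 2 * Real.exp (-U x) :=
    fun i => by
    refine cc_int volume ((((hpdc i).div (hqc i) fun x => (hq0 i x).ne').pow 2).mul hw) ?_
    have h1 : HasCompactSupport fun x => (pd (bs κ i) Φ x / q i x) ^ 2 := by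
      have h2 : (fun x => (pd (bs κ i) Φ x / q i x) ^ 2) =
          fun x => pd (bs κ i) Φ x * (pd (bs κ i) Φ x * (q i x)⁻¹ ^ 2) := by
        funext x
        rw [div_eq_mul_inv]
        ring
      rw [h2]
      exact (pd_supp hs _).mul_right
    exact h1.mul_right
  have hcs : ∀ i, (∫ x, pd (bs κ i) Φ x * Real.exp (-U x)) ^ 2 ≤
      M * Z * ∫ x, (pd (bs κ i) Φ x / q i x) ^ 2 * Real.exp (-U x) := by
    intro i
    have e1 : ∀ x, pd (bs κ i) Φ x / q i x * q i x = pd (bs κ i) Φ x := fun x =>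
      div_mul_cancel₀ _ (hq0 i x).ne'
    have h1 := wcs (U := U) (f := fun x => pd (bs κ i) Φ x / q i x) (g := q i) (hdi i) (hmi i)
      (by
        simp_rw [e1]
        exact cc_int volume ((hpdc i).mul hw) (pd_supp hs _).mul_right)
    simp_rw [e1] at h1
    have h2 : ∫ x, q i x ^ 2 * Real.exp (-U x) ≤ M * Z := by
      simp_rw [hq2]
      exact hM i
    have h3 : 0 ≤ ∫ x, (pd (bs κ i) Φ x / q i x) ^ 2 * Real.exp (-U x) :=
      integral_nonneg fun x => mul_nonneg (sq_nonneg _) (Real.exp_nonneg _)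
    calc _ ≤ _ := h1
      _ ≤ (∫ x, (pd (bs κ i) Φ x / q i x) ^ 2 * Real.exp (-U x)) * (M * Z) :=
          mul_le_mul_of_nonneg_left h2 h3
      _ = _ := mul_comm _ _
  have hZ0 : 0 ≤ Z := integral_nonneg fun x => Real.exp_nonneg _
  -- the Hessian
  have hess : ∀ x, (∑ i, (pd (bs κ i) Φ x / q i x) ^ 2) * Real.exp (-U x) ≤
      (∑ i, ∑ j, pd (bs κ i) (pd (bs κ j) U) x * pd (bs κ i) Φ x * pd (bs κ j) Φ x) *
        Real.exp (-U x) := by
    intro x
    refine mul_le_mul_of_nonneg_right ?_ (Real.exp_nonneg _)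
    have hS : SCv V 0 := by
      unfold SCv
      simpa using hc
    have h1 := hess_strong hV hS (fun i => pd (bs κ i) Φ x) x
    rw [zero_mul] at h1
    have e1 : ∀ i j, pd (bs κ i) (pd (bs κ j) U) x = pd (bs κ i) (pd (bs κ j) V) x +
        if i = j then 1 / kk (x j) ^ 3 else 0 := by
      intro i j
      have e2 : pd (bs κ j) U = fun x => pd (bs κ j) V x +
          pd (bs κ j) (fun x : Eu κ => ∑ k, kk (x k)) x := by
        funext y
        exact pd_add (sm1 hV) (sm1 sum_kk_smooth) _ _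
      rw [e2, pd_add (sm1 (pd_smooth hV _)) (sm1 (pd_smooth sum_kk_smooth _)), hess_kk]
    have e3 : ∑ i, ∑ j, pd (bs κ i) (pd (bs κ j) U) x * pd (bs κ i) Φ x * pd (bs κ j) Φ x =
        (∑ i, ∑ j, pd (bs κ i) (pd (bs κ j) V) x * pd (bs κ j) Φ x * pd (bs κ i) Φ x) +
        ∑ i, (pd (bs κ i) Φ x / q i x) ^ 2 := by
      rw [← Finset.sum_add_distrib]
      refine Finset.sum_congr rfl fun i _ => ?_
      have e4 : ∀ j, pd (bs κ i) (pd (bs κ j) U) x * pd (bs κ i) Φ x * pd (bs κ j) Φ x =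
          pd (bs κ i) (pd (bs κ j) V) x * pd (bs κ j) Φ x * pd (bs κ i) Φ x +
          if i = j then 1 / kk (x j) ^ 3 * pd (bs κ i) Φ x * pd (bs κ j) Φ x else 0 := by
        intro j
        rw [e1]
        split_ifs <;> ring
      simp_rw [e4]
      rw [Finset.sum_add_distrib, Finset.sum_ite_eq, if_pos (Finset.mem_univ i), div_pow, hq2]
      ring
    rw [e3]
    linarith
  have iL : Integrable fun x => (∑ i, (pd (bs κ i) Φ x / q i x) ^ 2) * Real.exp (-U x) := by
    simp_rw [Finset.sum_mul]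
    exact integrable_finsetSum _ fun i _ => hdi i
  have iR : Integrable fun x => (∑ i, ∑ j, pd (bs κ i) (pd (bs κ j) U) x * pd (bs κ i) Φ x *
      pd (bs κ j) Φ x) * Real.exp (-U x) := by
    refine cc_int volume ((continuous_finsetSum _ fun i _ => continuous_finsetSum _ fun j _ =>
      ((pd_smooth (pd_smooth hUs _) _).continuous.mul (pd_smooth hΦ _).continuous).mul
        (pd_smooth hΦ _).continuous).mul hw) ?_
    exact HasCompactSupport.mul_right (cs_sum _ fun i _ => cs_sum _ fun j _ =>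
      (pd_supp hs _).mul_left)
  calc ∑ i, (∫ x, pd (bs κ i) Φ x * Real.exp (-U x)) ^ 2 ≤
      ∑ i, M * Z * ∫ x, (pd (bs κ i) Φ x / q i x) ^ 2 * Real.exp (-U x) :=
        Finset.sum_le_sum fun i _ => hcs i
    _ = M * Z * ∫ x, (∑ i, (pd (bs κ i) Φ x / q i x) ^ 2) * Real.exp (-U x) := by
        rw [← Finset.mul_sum, ← integral_finsetSum _ fun i _ => hdi i]
        simp_rw [Finset.sum_mul]
    _ ≤ _ := mul_le_mul_of_nonneg_left (integral_mono iL iR hess) (by positivity)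

end

end Pool.Agent.KS6_97.Unc
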