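import Pool.Agent.KS6_97.Unc.SC

/-!
# The Poincare inequality for nonincreasing log-concave densities on the orthant, bounded support
-/

set_option autoImplicit false

namespace Pool.Agent.KS6_97.Unc

open MeasureTheory Set Filter Topology
open scoped ENNReal InnerProductSpace ContDiff
open Pool.Agent.H888R2.KT (LC)
open Pool.Agent.H212R2.KLS (mu Bdd)
open Pool.Agent.Q86.FIB (pd)
open Pool.Agent.Q86.EM (bs)
open Pool.Agent.Q190.EM (norm_fd)

variable {κ : Type} [Fintype κ]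

/-- `(1 + s²)^(3/4)` -/
noncomputable def fr (s : ℝ) : ℝ := √(kk s ^ 3)

theorem fr_sq (s : ℝ) : fr s ^ 2 = kk s ^ 3 := Real.sq_sqrt (pow_pos (kk_pos _) 3).le

theorem fr_pos (s : ℝ) : 0 < fr s := Real.sqrt_pos.2 (pow_pos (kk_pos _) 3)

theorem fr_deriv (s : ℝ) : HasDerivAt fr (3 * kk s * s / (2 * fr s)) s := by
  have h1 := ((kk_deriv s).pow 3).sqrt (pow_pos (kk_pos s) 3).ne'
  have e : (3 : ℕ) * kk s ^ (3 - 1) * (s / kk s) / (2 * √(kk s ^ 3)) =
      3 * kk s * s / (2 * fr s) := by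
    have h2 := kk_pos s
    show _ = 3 * kk s * s / (2 * √(kk s ^ 3))
    congr 1
    push_cast
    field_simp
  have h2 : HasDerivAt fr ((3 : ℕ) * kk s ^ (3 - 1) * (s / kk s) / (2 * √(kk s ^ 3))) s := h1
  rwa [e] at h2

theorem fr_d_sq (s : ℝ) : (3 * kk s * s / (2 * fr s)) ^ 2 ≤ 9 / 4 * s ^ 2 := by
  have h1 := kk_pos s
  have h2 := kk_one s
  have e : (3 * kk s * s / (2 * fr s)) ^ 2 = 9 / 4 * (s ^ 2 / kk s) := by
    rw [div_pow, mul_pow 2, fr_sq]
    field_simp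
    ring
  rw [e]
  have h3 : s ^ 2 / kk s ≤ s ^ 2 := div_le_self (sq_nonneg _) h2
  linarith

theorem fr_le (s : ℝ) : fr s ≤ 1 + s ^ 2 := by
  refine (le_abs_self _).trans (abs_le_of_sq_le_sq ?_ (by positivity))
  rw [fr_sq, ← kk_sq]
  have h2 := kk_one s
  have h3 : kk s ^ 3 ≤ kk s ^ 4 := pow_le_pow_right₀ h2 (by norm_num)
  linarith [show (kk s ^ 2) ^ 2 = kk s ^ 4 by ring]

theorem fr_smooth : ContDiff ℝ 1 fr :=
  ((kk_smooth.of_le (by simp)).pow 3).sqrt fun s => (pow_pos (kk_pos s) 3).ne'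

/-- normalised version -/
theorem orth1 (hCV : S_CV) [DecidableEq κ] {ρ : Eu κ → ℝ} (hρ : LC ρ) (ho : Orth ρ)
    (h1 : mu ρ univ = 1) (hm : ∀ i, 9 * Real.exp 2 * ∫ x, x i ^ 2 ∂(mu ρ) ≤ 1)
    (f : Eu κ → ℝ) (hf : ContDiff ℝ 1 f) :
    ∫ x, f x ^ 2 ∂(mu ρ) - (∫ x, f x ∂(mu ρ)) ^ 2 ≤ 2 * ∫ x, ‖fderiv ℝ f x‖ ^ 2 ∂(mu ρ) := by
  obtain ⟨h, hh, hpos, hint⟩ := hCV κ ρ hρ ho
  have hbs := Pool.Agent.KS6_97.Sch.bs_lc hh
  have hWc : Continuous (Wt (κ := κ)) := by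
    have := wa_cont (κ := κ) 0
    have e : wa (κ := κ) 0 = Wt := funext wa_zero
    rwa [e] at this
  have hii : ∀ F : Eu κ → ℝ, Continuous F → Integrable (fun w => F w * Wt w) (mu h) :=
    fun F hF => hbs.integrable (hF.mul hWc)
  have hmono : ∀ F G : Eu κ → ℝ, Continuous F → Continuous G → (∀ᵐ w ∂(mu h), F w ≤ G w) →
      ∫ w, F w * Wt w ∂(mu h) ≤ ∫ w, G w * Wt w ∂(mu h) := by
    intro F G hF hG hFG
    refine integral_mono_ae (hii F hF) (hii G hG) ?_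
    filter_upwards [hFG] with w hw
    exact mul_le_mul_of_nonneg_right hw (Wt_pos w).le
  have N1 : ∫ w, Wt w ∂(mu h) = 1 := by
    have h2 := hint (fun _ => 1) continuous_const
    simp only [one_mul, integral_const, smul_eq_mul, mul_one] at h2
    rw [← h2, Measure.real, h1, ENNReal.toReal_one]
  have hPc : Continuous (Ps (κ := κ)) := OR.Ps_smooth.continuous
  -- second moments
  have hsec : ∀ i, ∫ w, w i ^ 2 * Wt w ∂(mu h) ≤ 1 / 9 := by
    intro i
    have h2 := hint (fun x => x i ^ 2) (by fun_prop)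
    have h3 : ∫ w, w i ^ 2 * Wt w ∂(mu h) ≤ ∫ w, (Real.exp 2 * (Ps w) i ^ 2) * Wt w ∂(mu h) := by
      refine hmono (fun w => w i ^ 2) (fun w => Real.exp 2 * (Ps w) i ^ 2) (by fun_prop)
        (continuous_const.mul (((continuous_apply i).comp
          ((PiLp.continuous_ofLp 2 _).comp hPc)).pow 2)) ?_
      filter_upwards [hpos] with w hw
      have h4 := OR.ps_ge (hw i)
      rw [OR.Ps_apply]
      calc w i ^ 2 ≤ (Real.exp 1 * ps (w i)) ^ 2 := pow_le_pow_left₀ (hw i) h4 2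
        _ = _ := by
          rw [mul_pow, ← Real.exp_nat_mul]
          norm_num
    have h4 : ∫ w, (Real.exp 2 * (Ps w) i ^ 2) * Wt w ∂(mu h) =
        Real.exp 2 * ∫ x, x i ^ 2 ∂(mu ρ) := by
      rw [h2, ← integral_const_mul]
      refine integral_congr_ae (Eventually.of_forall fun w => ?_)
      simp only
      ring
    have h5 := hm i
    rw [h4] at h3
    linarith
  -- the mean of `(1 + w_i²)^(3/2)` is at most 2
  have hM2 : ∀ i, ∫ w, kk (w i) ^ 3 * Wt w ∂(mu h) ≤ 2 := by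
    intro i1
    have hnek : Nonempty κ := ⟨i1⟩
    obtain ⟨i0, -, hmax⟩ := Finset.exists_max_image (Finset.univ : Finset κ)
      (fun i => ∫ w, kk (w i) ^ 3 * Wt w ∂(mu h)) Finset.univ_nonempty
    refine (hmax i1 (Finset.mem_univ _)).trans ?_
    set M := ∫ w, kk (w i0) ^ 3 * Wt w ∂(mu h) with hMd
    have hM0 : 0 ≤ M := integral_nonneg fun w =>
      mul_nonneg (pow_pos (kk_pos _) 3).le (Wt_pos w).le
    have hfrc : ContDiff ℝ 1 fun w : Eu κ => fr (w i0) := fr_smooth.comp (by fun_prop)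
    have hml := ml hh hM0 (fun i => by
      rw [N1, mul_one]
      exact hmax i (Finset.mem_univ _)) (fun w => fr (w i0)) hfrc
    rw [N1, one_mul, mul_one] at hml
    simp_rw [fr_sq] at hml
    rw [← hMd] at hml
    have hfd : ∀ w : Eu κ, ‖fderiv ℝ (fun w : Eu κ => fr (w i0)) w‖ ^ 2 =
        (3 * kk (w i0) * w i0 / (2 * fr (w i0))) ^ 2 := by
      intro w
      rw [norm_fd]
      have e : ∀ i, fderiv ℝ (fun w : Eu κ => fr (w i0)) w (bs κ i) =
          if i = i0 then 3 * kk (w i0) * w i0 / (2 * fr (w i0)) else 0 := fun i =>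
        pd_comp fr_deriv i i0 w
      simp_rw [e]
      simp
    have h2 : ∫ w, ‖fderiv ℝ (fun w : Eu κ => fr (w i0)) w‖ ^ 2 * Wt w ∂(mu h) ≤ 1 / 4 := by
      have h3 : ∫ w, ‖fderiv ℝ (fun w : Eu κ => fr (w i0)) w‖ ^ 2 * Wt w ∂(mu h) ≤
          ∫ w, (9 / 4 * w i0 ^ 2) * Wt w ∂(mu h) := by
        refine hmono (fun w => ‖fderiv ℝ (fun w : Eu κ => fr (w i0)) w‖ ^ 2)
          (fun w => 9 / 4 * w i0 ^ 2) ((hfrc.continuous_fderiv one_ne_zero).norm.pow 2)
          (by fun_prop) (Eventually.of_forall fun w => ?_)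
        rw [hfd]
        exact fr_d_sq _
      have h4 : ∫ w, (9 / 4 * w i0 ^ 2) * Wt w ∂(mu h) =
          9 / 4 * ∫ w, w i0 ^ 2 * Wt w ∂(mu h) := by
        rw [← integral_const_mul]
        refine integral_congr_ae (Eventually.of_forall fun w => ?_)
        simp only
        ring
      have h5 := hsec i0
      rw [h4] at h3
      linarith
    have h3 : ∫ w, fr (w i0) * Wt w ∂(mu h) ≤ 10 / 9 := by
      have h4 : ∫ w, fr (w i0) * Wt w ∂(mu h) ≤ ∫ w, (1 + w i0 ^ 2) * Wt w ∂(mu h) :=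
        hmono (fun w => fr (w i0)) (fun w => 1 + w i0 ^ 2) hfrc.continuous (by fun_prop)
          (Eventually.of_forall fun w => fr_le _)
      have h5 : ∫ w, (1 + w i0 ^ 2) * Wt w ∂(mu h) =
          (∫ w, Wt w ∂(mu h)) + ∫ w, w i0 ^ 2 * Wt w ∂(mu h) := by
        rw [← integral_add (hbs.integrable hWc) (hii (fun w => w i0 ^ 2) (by fun_prop))]
        refine integral_congr_ae (Eventually.of_forall fun w => ?_)
        simp only
        ring
      rw [N1] at h5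
      have h6 := hsec i0
      linarith
    have h4 : 0 ≤ ∫ w, fr (w i0) * Wt w ∂(mu h) := integral_nonneg fun w =>
      mul_nonneg (fr_pos _).le (Wt_pos w).le
    have h5 : (∫ w, fr (w i0) * Wt w ∂(mu h)) ^ 2 ≤ (10 / 9) ^ 2 := pow_le_pow_left₀ h4 h3 2
    have h6 : M * ∫ w, ‖fderiv ℝ (fun w : Eu κ => fr (w i0)) w‖ ^ 2 * Wt w ∂(mu h) ≤
        M * (1 / 4) := mul_le_mul_of_nonneg_left h2 hM0
    linarith
  -- conclusion
  have hfP : ContDiff ℝ 1 fun w => f (Ps w) := hf.comp OR.Ps_smooth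
  have hml := ml hh (M := 2) (by norm_num) (fun i => by
    rw [N1, mul_one]
    exact hM2 i) (fun w => f (Ps w)) hfP
  rw [N1, one_mul, mul_one, ← hint f hf.continuous, ← hint (fun x => f x ^ 2)
    (hf.continuous.pow 2)] at hml
  refine hml.trans (mul_le_mul_of_nonneg_left ?_ (by norm_num))
  rw [hint (fun x => ‖fderiv ℝ f x‖ ^ 2) ((hf.continuous_fderiv one_ne_zero).norm.pow 2)]
  exact hmono (fun w => ‖fderiv ℝ (fun w => f (Ps w)) w‖ ^ 2)
    (fun w => ‖fderiv ℝ f (Ps w)‖ ^ 2) ((hfP.continuous_fderiv one_ne_zero).norm.pow 2)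
    (((hf.continuous_fderiv one_ne_zero).norm.pow 2).comp hPc)
    (Eventually.of_forall fun w => OR.fd_le hf w)

/-- **the Poincare inequality on the orthant**, bounded support -/
theorem orth (hCV : S_CV) [DecidableEq κ] {ρ : Eu κ → ℝ} (hρ : LC ρ) (ho : Orth ρ)
    (h1 : mu ρ univ = 1) {s : ℝ} (hs : 0 < s) (hm : ∀ i, ∫ x, x i ^ 2 ∂(mu ρ) ≤ s)
    (f : Eu κ → ℝ) (hf : ContDiff ℝ 1 f) :
    ∫ x, f x ^ 2 ∂(mu ρ) - (∫ x, f x ∂(mu ρ)) ^ 2 ≤
      18 * Real.exp 2 * s * ∫ x, ‖fderiv ℝ f x‖ ^ 2 ∂(mu ρ) := by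
  obtain ⟨r, hr⟩ : ∃ r : ℝ, r = √(9 * Real.exp 2 * s) := ⟨_, rfl⟩
  have hr0 : 0 < r := by
    rw [hr]
    exact Real.sqrt_pos.2 (by positivity)
  have hr2 : r ^ 2 = 9 * Real.exp 2 * s := by
    rw [hr]
    exact Real.sq_sqrt (by positivity)
  have hfr : ContDiff ℝ 1 fun y : Eu κ => f (r • y) := hf.comp (contDiff_const_smul r)
  have hmu1 : mu (sc ρ r) univ = 1 := by
    rw [sc_map hρ.meas hr0, Measure.map_apply (measurable_const_smul _) MeasurableSet.univ,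
      preimage_univ, h1]
  have key := orth1 hCV (sc_lc hρ hr0) (sc_orth ho hr0) hmu1 (fun i => by
    rw [sc_int hρ.meas hr0 (F := fun y : Eu κ => y i ^ 2) (by fun_prop)]
    have e : ∫ x : Eu κ, (r⁻¹ • x) i ^ 2 ∂(mu ρ) = (r ^ 2)⁻¹ * ∫ x, x i ^ 2 ∂(mu ρ) := by
      rw [← integral_const_mul]
      refine integral_congr_ae (Eventually.of_forall fun x => ?_)
      simp only [PiLp.smul_apply, smul_eq_mul]
      rw [mul_pow, inv_pow]
    rw [e, hr2]
    have h2 := hm i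
    have h3 : 9 * Real.exp 2 * ((9 * Real.exp 2 * s)⁻¹ * ∫ x, x i ^ 2 ∂(mu ρ)) =
        (∫ x, x i ^ 2 ∂(mu ρ)) / s := by
      have := Real.exp_pos 2
      field_simp
    rw [h3, div_le_one hs]
    exact h2) (fun y => f (r • y)) hfr
  rw [sc_int hρ.meas hr0 (F := fun y : Eu κ => f (r • y) ^ 2) (hfr.continuous.pow 2),
    sc_int hρ.meas hr0 (F := fun y : Eu κ => f (r • y)) hfr.continuous,
    sc_int hρ.meas hr0 (F := fun y : Eu κ => ‖fderiv ℝ (fun y : Eu κ => f (r • y)) y‖ ^ 2)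
      ((hfr.continuous_fderiv one_ne_zero).norm.pow 2)] at key
  have e1 : ∀ x : Eu κ, r • r⁻¹ • x = x := fun x => smul_inv_smul₀ hr0.ne' x
  have e2 : ∀ x : Eu κ, ‖fderiv ℝ (fun y : Eu κ => f (r • y)) (r⁻¹ • x)‖ ^ 2 =
      r ^ 2 * ‖fderiv ℝ f x‖ ^ 2 := by
    intro x
    have h2 : HasFDerivAt (fun y : Eu κ => f (r • y))
        ((fderiv ℝ f (r • r⁻¹ • x)).comp (r • ContinuousLinearMap.id ℝ (Eu κ))) (r⁻¹ • x) :=
      ((hf.differentiable one_ne_zero _).hasFDerivAt).comp (r⁻¹ • x)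
        ((hasFDerivAt_id (r⁻¹ • x)).const_smul r)
    rw [h2.fderiv, e1, ContinuousLinearMap.comp_smul, ContinuousLinearMap.comp_id, norm_smul,
      mul_pow, Real.norm_eq_abs, sq_abs]
  simp_rw [e1, e2] at key
  rw [integral_const_mul, hr2] at key
  linarith

end Pool.Agent.KS6_97.Unc
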