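import Pool.Agent.KS6_97.Unc.ML

/-!
# Scaling of log-concave densities, the coordinate change
-/

set_option autoImplicit false

namespace Pool.Agent.KS6_97.Unc

open MeasureTheory Set Filter Topology
open scoped ENNReal InnerProductSpace ContDiff
open Pool.Agent.H888R2.KT (LC)
open Pool.Agent.H212R2.KLS (mu Bdd)

variable {κ : Type} [Fintype κ]

/-- the density of `r⁻¹ X` -/
noncomputable def sc (ρ : Eu κ → ℝ) (r : ℝ) (y : Eu κ) : ℝ := r ^ Fintype.card κ * ρ (r • y)

theorem sc_map {ρ : Eu κ → ℝ} (hρ : Measurable ρ) {r : ℝ} (hr : 0 < r) :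
    mu (sc ρ r) = (mu ρ).map fun x => r⁻¹ • x := by
  have hm : Measurable fun x : Eu κ => r⁻¹ • x := measurable_const_smul _
  have hm2 : Measurable fun x : Eu κ => r • x := measurable_const_smul _
  refine Measure.ext fun A hA => ?_
  rw [Measure.map_apply hm hA]
  unfold mu sc
  rw [withDensity_apply _ hA, withDensity_apply _ (hm hA), ← lintegral_indicator hA,
    ← lintegral_indicator (hm hA)]
  have e1 : ∀ y : Eu κ, A.indicator (fun y => ENNReal.ofReal (r ^ Fintype.card κ * ρ (r • y))) y =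
      ENNReal.ofReal (r ^ Fintype.card κ) *
        (((fun x : Eu κ => r⁻¹ • x) ⁻¹' A).indicator fun x => ENNReal.ofReal (ρ x)) (r • y) := by
    intro y
    have e2 : (r • y ∈ (fun x : Eu κ => r⁻¹ • x) ⁻¹' A) ↔ y ∈ A := by
      simp only [mem_preimage]
      rw [inv_smul_smul₀ hr.ne']
    by_cases h : y ∈ A
    · rw [indicator_of_mem h, indicator_of_mem (e2.2 h), ENNReal.ofReal_mul (by positivity)]
    · rw [indicator_of_notMem h, indicator_of_notMem (fun h2 => h (e2.1 h2)), mul_zero]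
  simp_rw [e1]
  have hG : Measurable (((fun x : Eu κ => r⁻¹ • x) ⁻¹' A).indicator fun x => ENNReal.ofReal (ρ x)) :=
    (hρ.ennreal_ofReal).indicator (hm hA)
  have hG2 : Measurable fun y : Eu κ => (((fun x : Eu κ => r⁻¹ • x) ⁻¹' A).indicator
      fun x => ENNReal.ofReal (ρ x)) (r • y) := hG.comp hm2
  rw [lintegral_const_mul _ hG2]
  have e3 : ∫⁻ y : Eu κ, (((fun x : Eu κ => r⁻¹ • x) ⁻¹' A).indicator
      fun x => ENNReal.ofReal (ρ x)) (r • y) =
      ENNReal.ofReal |(r ^ Module.finrank ℝ (Eu κ))⁻¹| *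
        ∫⁻ x, (((fun x : Eu κ => r⁻¹ • x) ⁻¹' A).indicator fun x => ENNReal.ofReal (ρ x)) x := by
    rw [← lintegral_map hG hm2, Measure.map_addHaar_smul volume hr.ne', lintegral_smul_measure,
      smul_eq_mul]
  rw [e3, ← mul_assoc, ← ENNReal.ofReal_mul (by positivity), finrank_euclideanSpace,
    abs_of_pos (by positivity), mul_inv_cancel₀ (by positivity), ENNReal.ofReal_one, one_mul]

theorem sc_lc {ρ : Eu κ → ℝ} (hρ : LC ρ) {r : ℝ} (hr : 0 < r) : LC (sc ρ r) := by
  have hm : Measurable fun x : Eu κ => r⁻¹ • x := measurable_const_smul _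
  have hmap := sc_map hρ.meas hr
  refine ⟨fun x => mul_nonneg (by positivity) (hρ.nonneg _),
    (hρ.meas.comp (measurable_const_smul r)).const_mul _, fun x y t h0 h1 => ?_, ?_, ?_, ?_⟩
  · unfold sc
    rw [Real.mul_rpow (by positivity) (hρ.nonneg _), Real.mul_rpow (by positivity) (hρ.nonneg _)]
    have h2 := hρ.logc (r • x) (r • y) t h0 h1
    have e1 : (1 - t) • r • x + t • r • y = r • ((1 - t) • x + t • y) := by
      rw [smul_add, smul_comm (1 - t) r, smul_comm t r]
    rw [e1] at h2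
    have e2 : (r ^ Fintype.card κ) ^ (1 - t) * (r ^ Fintype.card κ) ^ t = r ^ Fintype.card κ := by
      rw [← Real.rpow_add (by positivity)]
      simp
    calc _ = ((r ^ Fintype.card κ) ^ (1 - t) * (r ^ Fintype.card κ) ^ t) *
          (ρ (r • x) ^ (1 - t) * ρ (r • y) ^ t) := by ring
      _ ≤ _ := by
        rw [e2]
        exact mul_le_mul_of_nonneg_left h2 (by positivity)
  · obtain ⟨R, hR⟩ := hρ.bdd
    refine ⟨R / r, fun x hx => ?_⟩
    unfold sc
    rw [hR (r • x), mul_zero]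
    rw [norm_smul, Real.norm_eq_abs, abs_of_pos hr]
    rwa [div_lt_iff₀' hr] at hx
  · rw [hmap, Measure.map_apply hm MeasurableSet.univ, preimage_univ]
    exact hρ.fin
  · intro h0
    apply hρ.ne
    rw [hmap] at h0
    have h1 := (Measure.map_eq_zero_iff hm.aemeasurable).1 h0
    exact h1

theorem sc_orth {ρ : Eu κ → ℝ} (ho : Orth ρ) {r : ℝ} (hr : 0 < r) : Orth (sc ρ r) := by
  refine ⟨fun x hx => ?_, fun x y hx hxy => ?_⟩
  · obtain ⟨i, hi⟩ := hx
    unfold sc
    rw [ho.supp (r • x) ⟨i, by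
      rw [PiLp.smul_apply, smul_eq_mul]
      exact mul_neg_of_pos_of_neg hr hi⟩, mul_zero]
  · unfold sc
    refine mul_le_mul_of_nonneg_left (ho.anti _ _ (fun i => ?_) fun i => ?_) (by positivity)
    · rw [PiLp.smul_apply, smul_eq_mul]
      exact mul_nonneg hr.le (hx i)
    · rw [PiLp.smul_apply, PiLp.smul_apply, smul_eq_mul, smul_eq_mul]
      exact mul_le_mul_of_nonneg_left (hxy i) hr.le

theorem sc_int {ρ : Eu κ → ℝ} (hρ : Measurable ρ) {r : ℝ} (hr : 0 < r) {F : Eu κ → ℝ}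
    (hF : Continuous F) : ∫ y, F y ∂(mu (sc ρ r)) = ∫ x, F (r⁻¹ • x) ∂(mu ρ) := by
  rw [sc_map hρ hr, integral_map (measurable_const_smul _).aemeasurable hF.aestronglyMeasurable]

/-! ### the coordinate change -/

namespace OR

theorem ps_deriv (w : ℝ) : HasDerivAt ps (Real.exp (w - kk w)) w := by
  have hc : Continuous fun u : ℝ => Real.exp (u - √(1 + u ^ 2)) := by
    have := kk_cont
    unfold kk at this
    fun_prop
  exact intervalIntegral.integral_hasDerivAt_right (hc.intervalIntegrable _ _)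
    (hc.stronglyMeasurableAtFilter _ _) hc.continuousAt

theorem ps_smooth : ContDiff ℝ 1 ps := by
  rw [contDiff_one_iff_deriv]
  refine ⟨fun w => (ps_deriv w).differentiableAt, ?_⟩
  rw [show deriv ps = fun w => Real.exp (w - kk w) from funext fun w => (ps_deriv w).deriv]
  exact Real.continuous_exp.comp (continuous_id.sub kk_cont)

theorem ps_zero : ps 0 = 0 := by
  unfold ps
  simp

theorem ps_d_le (w : ℝ) : Real.exp (w - kk w) ≤ 1 := by
  rw [Real.exp_le_one_iff]
  have h1 := kk_sq w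
  have h2 := kk_pos w
  nlinarith

theorem ps_d_ge {w : ℝ} (hw : 0 ≤ w) : Real.exp (-1) ≤ Real.exp (w - kk w) := by
  refine Real.exp_le_exp.2 ?_
  have := kk_le w
  rw [abs_of_nonneg hw] at this
  linarith

theorem ps_ge {w : ℝ} (hw : 0 ≤ w) : w ≤ Real.exp 1 * ps w := by
  have h1 : MonotoneOn (fun w => Real.exp 1 * ps w - w) (Ici 0) := by
    have hd : ∀ w, HasDerivAt (fun w => Real.exp 1 * ps w - w)
        (Real.exp 1 * Real.exp (w - kk w) - 1) w := fun w =>
      ((ps_deriv w).const_mul _).sub (hasDerivAt_id w)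
    refine monotoneOn_of_deriv_nonneg (convex_Ici 0)
      (fun w _ => (hd w).continuousAt.continuousWithinAt)
      (fun w _ => (hd w).differentiableAt.differentiableWithinAt) fun w hw => ?_
    rw [(hd w).deriv]
    rw [interior_Ici] at hw
    have h2 := mul_le_mul_of_nonneg_left (ps_d_ge (le_of_lt hw)) (Real.exp_pos 1).le
    rw [← Real.exp_add] at h2
    simp at h2
    linarith
  have h2 := h1 (show (0 : ℝ) ∈ Ici (0 : ℝ) from mem_Ici.2 le_rfl) (show w ∈ Ici (0 : ℝ) from hw) hw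
  simp only [ps_zero, mul_zero, sub_zero] at h2
  linarith

theorem Ps_apply (w : Eu κ) (i : κ) : Ps w i = ps (w i) := rfl

theorem Ps_smooth : ContDiff ℝ 1 (Ps (κ := κ)) := by
  rw [contDiff_euclidean]
  intro i
  exact ps_smooth.comp (by fun_prop)

/-- the derivative of `f ∘ Ψ` is smaller than the one of `f` -/
theorem fd_le [DecidableEq κ] {f : Eu κ → ℝ} (hf : ContDiff ℝ 1 f) (w : Eu κ) :
    ‖fderiv ℝ (fun w => f (Ps w)) w‖ ^ 2 ≤ ‖fderiv ℝ f (Ps w)‖ ^ 2 := by
  have hP := (Ps_smooth (κ := κ)).differentiable one_ne_zero w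
  have hF := hf.differentiable one_ne_zero (Ps w)
  have e1 : fderiv ℝ (fun w => f (Ps w)) w = (fderiv ℝ f (Ps w)).comp (fderiv ℝ Ps w) :=
    fderiv_comp w hF hP
  rw [Pool.Agent.Q190.EM.norm_fd, Pool.Agent.Q190.EM.norm_fd, e1]
  have e2 : ∀ i : κ, fderiv ℝ Ps w (Pool.Agent.Q86.EM.bs κ i) =
      Real.exp (w i - kk (w i)) • Pool.Agent.Q86.EM.bs κ i := by
    intro i
    ext j
    have h1 : (fderiv ℝ Ps w (Pool.Agent.Q86.EM.bs κ i)) j =
        fderiv ℝ (fun w => (Ps w) j) w (Pool.Agent.Q86.EM.bs κ i) := by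
      have h2 := (hasFDerivWithinAt_euclidean.1
        (hP.hasFDerivAt.hasFDerivWithinAt (s := (univ : Set (Eu κ))))) j
      rw [(hasFDerivWithinAt_univ.1 h2).fderiv]
      rfl
    rw [h1]
    have h3 := pd_comp ps_deriv i j w
    unfold Pool.Agent.Q86.FIB.pd at h3
    have h4 : (fun w : Eu κ => (Ps w) j) = fun w => ps (w j) := rfl
    rw [h4, h3, PiLp.smul_apply]
    unfold Pool.Agent.Q86.EM.bs
    by_cases hij : i = j
    · subst hij
      simp
    · simp [hij, Ne.symm hij]
  refine Finset.sum_le_sum fun i _ => ?_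
  rw [ContinuousLinearMap.comp_apply, e2, map_smul, smul_eq_mul, mul_pow]
  refine mul_le_of_le_one_left (sq_nonneg _) ?_
  exact pow_le_one₀ (Real.exp_pos _).le (ps_d_le _)

end OR

end Pool.Agent.KS6_97.Unc
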